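import Pool.Agent.Lib.DM.F.SpecA

/-!
# Theorem DM, part F: module `F1` (`S_F1`)
-/

set_option autoImplicit false
set_option linter.unusedSectionVars false

open scoped Pointwise Topology MatrixGroups
open Filter

noncomputable section

namespace Pool.Agent.DM.F

open Pool.Agent.MuZ Pool.Agent.FW NumberField IsDedekindDomain Pool.Agent.DN Pool.Agent.DN.F
open Pool.Agent.DI (io ofC io_inj exists_io io_ofC ofC_io VP MP UP TP ex)

private theorem F1_neg (b d : ℤ) : -((3 : ℚ) * (b : ℚ) / d) = 3 * ((-b : ℤ) : ℚ) / d := by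
  push_cast
  ring

private theorem F1_pk {k : ℕ} (x y : Om) : pk k x * pk k y = pk k (x * y) := by
  unfold pk
  rw [mul_inv, mul_pow]
  ring

theorem tF1 (hE1 : DS.S_E1) (hKf : S_Kf) (hKp : S_Kp) (hKP : S_KP) (hGc : S_Gc) (hYE : S_YE)
    (hKap : S_Kap) (hSm : S_Sm) (hBet : S_Bet) (hPb : S_Pb) : S_F1 := by
  intro n t _ f M k e m R R2 hm hFR hR hLv hFR2 hR2 hLv2 χ hχ P hP hk hTy σ hσ s hs0 hyp
  have hPp : P.IsPrime := hP.1.1
  have hf := hm.toFok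
  obtain ⟨k1, -⟩ := hKf n t f hf
  obtain ⟨-, -, hst, -⟩ := k1 f (Or.inl rfl)
  obtain ⟨-, -, -, hgal2⟩ := k1 (3 * f) (Or.inr rfl)
  obtain ⟨g1, g2, g3, g4, g5⟩ := hGc n t f hf
  have hpsi : ∀ τ ∈ GK n t, ∃ a : Ideal (OO n t), Psi τ (3 * f) a := fun τ hτ =>
    (hE1 n t (3 * f) (three_f hf) (d15 hf)).1 τ hτ
  obtain ⟨kap1, -, -⟩ := hKap n t f k hf χ hχ P hP hk hTy
  have hkfull : Kf n t f f ≤ Kf n t f (3 * f) := (hKf n t f hf).2.1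
  -- the numbers `w_g`
  have hden : ∀ b d : ℤ, (9 * M : ℤ) ∣ d - 1 → ((3 : ℚ) * (b : ℚ) / d).den.Coprime M := by
    intro b d hd
    have h := den_cop (b := 3 * b) hd ⟨9, by ring⟩
    push_cast at h
    exact h
  have h0 : (0 : ℚ).den.Coprime M := by
    rw [Rat.den_zero]
    exact Nat.coprime_one_left M
  have hwK : ∀ b d : ℤ, (9 * M : ℤ) ∣ d - 1 → wg f k s m b d ∈ Kf n t f f := by
    intro b d hd
    have e1 := (hYE n t f M k m R hm hFR hLv hk _ (hden b d hd)).1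
    have e2 := (hYE n t f M k m R hm hFR hLv hk _ (hden (-b) d hd)).1
    have e3 := (hYE n t f M k m R hm hFR hLv hk _ h0).1
    rw [← F1_neg] at e2
    unfold wg
    exact add_mem (sub_mem e1 e3) (mul_mem (intCast_mem (Kf n t f f) s) (sub_mem e2 e3))
  have hwV : ∀ b d : ℤ, (9 * M : ℤ) ∣ d - 1 → ∀ Q : Ideal ZZ, Ab3 Q → ∀ τ ∈ GK n t,
      VP Q (τ (wg f k s m b d)) := by
    intro b d hd Q hQ τ hτ
    have hQp : Q.IsPrime := hQ.1.1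
    have e1 := (hYE n t f M k m R hm hFR hLv hk _ (hden b d hd)).2.1 Q hQ τ hτ
    have e2 := (hYE n t f M k m R hm hFR hLv hk _ (hden (-b) d hd)).2.1 Q hQ τ hτ
    have e3 := (hYE n t f M k m R hm hFR hLv hk _ h0).2.1 Q hQ τ hτ
    rw [← F1_neg] at e2
    unfold wg
    rw [map_add, map_sub, map_mul, map_intCast, map_sub]
    exact DI.VP.add (DI.VP.sub e1 e3) (DI.VP.mul (DI.VP.int s) (DI.VP.sub e2 e3))
  -- the units `rO ⊤ a`
  have hrU : ∀ a : Ideal (OO n t), FB f a → ∀ Q : Ideal ZZ, Ab3 Q → ∀ τ ∈ GK n t,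
      UP Q (τ (rO ⊤ a)) := by
    intro a ha Q hQ τ hτ
    obtain ⟨a', ha'⟩ := hpsi τ hτ
    have e1 := (g1 τ hτ a' ha' ⊤ (fb_top f)).2 a ha
    rw [Ideal.mul_top] at e1
    rw [e1, mul_comm a' a]
    exact (g4 a ha).2.2.1 a' (fb_psi ha') Q hQ
  have hrU1 : ∀ a : Ideal (OO n t), FB f a → ∀ Q : Ideal ZZ, Ab3 Q → ∀ τ ∈ GK n t,
      UP Q (τ (pk k (rO ⊤ a))) := by
    intro a ha Q hQ τ hτ
    have hQp : Q.IsPrime := hQ.1.1
    have h := hrU a ha Q hQ τ hτ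
    unfold pk
    rw [map_mul, map_pow, map_inv₀]
    exact DI.UP.mul h (DI.UP.pow (DI.UP.inv h) _)
  have hpkK : ∀ a : Ideal (OO n t), FB f a → pk k (rO ⊤ a) ∈ Kf n t f f := by
    intro a ha
    have h := (g4 a ha).1
    exact mul_mem h (pow_mem (inv_mem h) _)
  -- the set `S`
  let S : Set Om := {w | ∃ τ ∈ GK n t, ∃ a' : Ideal (OO n t), Psi τ (3 * f) a' ∧
    ∃ a b c d : ℤ, G0 (9 * M) a b c d ∧ (9 * M : ℤ) ∣ d - 1 ∧ w = pk k (rO ⊤ a') * τ (wg f k s m b d)}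
  have hS1 : ∀ w ∈ S, w ∈ Kf n t f f ∧ ∀ Q : Ideal ZZ, Ab3 Q → ∀ τ ∈ GK n t, VP Q (τ w) := by
    rintro w ⟨τ', hτ', a', ha', a, b, c, d, h1, h2, rfl⟩
    refine ⟨mul_mem (hpkK a' (fb_psi ha')) (hst τ' hτ' _ (hwK b d h2)),
      fun Q hQ τ hτ => ?_⟩
    have hQp : Q.IsPrime := hQ.1.1
    rw [map_mul]
    exact DI.VP.mul (hrU1 a' (fb_psi ha') Q hQ τ hτ).1
      (hwV b d h2 Q hQ (τ * τ') (mul_mem hτ hτ'))
  have hS2 : ∀ τ ∈ GK n t, ∃ μ ∈ Kf n t f f,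
      (∀ Q : Ideal ZZ, Ab3 Q → ∀ τ' ∈ GK n t, UP Q (τ' μ)) ∧ ∀ w ∈ S, μ * τ w ∈ S := by
    intro τ hτ
    obtain ⟨a'', ha''⟩ := hpsi τ hτ
    refine ⟨pk k (rO ⊤ a''), hpkK a'' (fb_psi ha''),
      fun Q hQ τ' hτ' => hrU1 a'' (fb_psi ha'') Q hQ τ' hτ', ?_⟩
    rintro w ⟨τ', hτ', a', ha', a, b, c, d, h1, h2, rfl⟩
    refine ⟨τ * τ', mul_mem hτ hτ', a'' * a', Eb.psi_mul ha'' ha', a, b, c, d, h1, h2, ?_⟩
    have e1 := (g1 τ hτ a'' ha'' ⊤ (fb_top f)).2 a' (fb_psi ha')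
    rw [Ideal.mul_top] at e1
    have e2 := (g4 ⊤ (fb_top f)).2.2.2.1 a'' (a'' * a') (fb_psi ha'')
      (fb_mul (fb_psi ha'') (fb_psi ha'))
    have e3 : τ (pk k (rO ⊤ a')) = pk k (rO a'' (a'' * a')) := by
      unfold pk
      rw [map_mul, map_pow, map_inv₀, e1]
    rw [map_mul, e3, ← mul_assoc, F1_pk, e2]
    rfl
  have hS3 : ∀ w ∈ S, MP P (∑ b ∈ R, kpp k χ b * σ b w) := by
    rintro w ⟨τ, hτ, a', ha', a, b, c, d, h1, h2, rfl⟩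
    exact hSm n t f M k e m R hm hFR hR hLv χ hχ P hP hk hTy σ hσ s hs0 a b c d h1 h2
      (hyp a b c d h1 h2) τ hτ a' ha'
  -- the class of the leading coefficient
  obtain ⟨b1', hb1', hb1r⟩ : ∃ b1' ∈ R, Ray f (m * b1') ⊤ := by
    obtain ⟨m', hm', e1⟩ := ray_inv (f_pos hf) (fb_f (fm_fb hm))
    obtain ⟨b1', h1, h2⟩ := hR.ex m' hm'.ne hm'.cop
    exact ⟨b1', h1, ray_trans (f_pos hf) (ray_mul (f_pos hf) (ray_refl (f_pos hf) m)
      (ray_symm (f_pos hf) h2)) e1⟩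
  obtain ⟨β₀, hβK, hβ1, hβ2, hβ3⟩ := hBet n t f R hf hFR hR P hP σ hσ (kpp k χ) S
    (fun b hb => (kap1 b (hFR b hb)).2) hS1 hS2 hS3 b1' hb1'
  obtain ⟨N0, hN0, hper⟩ := hPb n t f M k m R R2 hm hFR hR hLv hFR2 hR2 hLv2 hk P hP σ hσ β₀ hβK hβ2
  have h3K : (3 : Om) ∈ Kf n t f (3 * f) := by exact_mod_cast natCast_mem (Kf n t f (3 * f)) 3
  have hbet : ∀ τ ∈ GK n t, ∀ a : Ideal (OO n t), Psi τ (3 * f) a →
      3 * τ (bet n t k β₀) / w8 ^ k = (kp a / w8) ^ k * τ β₀ := by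
    intro τ hτ a ha
    have e1 := (g1 τ hτ a ha ⊤ (fb_top f)).1
    rw [Ideal.mul_top] at e1
    unfold bet
    rw [map_div₀, map_mul, map_pow, e1, map_ofNat, div_pow]
    ring
  refine ⟨N0, bet n t k β₀, hN0, div_mem (mul_mem (pow_mem g3 k) (hkfull hβK)) h3K, ?_, ?_, ?_⟩
  · intro Q hQ τ hτ
    have hQp : Q.IsPrime := hQ.1.1
    obtain ⟨a, ha⟩ := hpsi τ hτ
    rw [hbet τ hτ a ha]
    exact DI.VP.mul (DI.VP.pow ((hKp n t Q hQ a (fb_g30 hf (fb_psi ha))).1.1) k) (hβ2 Q hQ τ hτ)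
  · intro b1 hb1 hray
    have hfb := hFR2 b1 hb1
    rw [hbet _ (hσ.mem b1 hfb) b1 (hσ.psi b1 hfb)]
    have h3 : Ray f b1 b1' := by
      refine ray_cancel' (f_pos hf) (fb_f (fm_fb hm)) ?_
      exact ray_trans (f_pos hf) (ray_f hf hray) (ray_symm (f_pos hf) hb1r)
    rw [(g5 σ hσ f (Or.inl rfl) β₀ hβK).1 b1 b1' hfb (hFR b1' hb1') h3]
    exact DI.UP.mul (DI.UP.pow (hKp n t P hP b1 (fb_g30 hf hfb)).1 k) hβ1
  · intro a b c d h1 h2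
    obtain ⟨α, hα1, hα2⟩ := hper a b c d h1 h2
    obtain ⟨α', hα'1, hα'2⟩ := hper a (-b) (-c) d (g0_inv h1) h2
    refine ⟨α, α', ?_, fun z hz => ⟨hα2 z hz, ?_⟩⟩
    · rw [← (hKP n t P hP).2.1, toO_add, toO_mul, toO_int, ← hα1, ← hα'1]
      have e1 : (N0 : Om) * perA f k m R σ β₀ b d + s * ((N0 : Om) * perA f k m R σ β₀ (-b) d) =
          (N0 : Om) * ∑ b' ∈ R, σ b' (β₀ * wg f k s m b d) := by
        unfold perA
        rw [mul_left_comm (s : Om), ← mul_add, Finset.mul_sum, ← Finset.sum_add_distrib]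
        congr 1
        refine Finset.sum_congr rfl fun b' _ => ?_
        have e2 : (s : Om) = σ b' (s : Om) := by rw [map_intCast]
        rw [e2, ← map_mul, ← map_add, ← F1_neg]
        unfold wg
        congr 1
        ring
      rw [e1]
      refine DI.MP.mul_left (DI.VP.nat N0) ?_
      refine hβ3 _ ⟨1, one_mem _, ⊤, Eb.psi_top _, a, b, c, d, h1, h2, ?_⟩
      rw [(g4 ⊤ (fb_top f)).2.1]
      unfold pk
      rw [inv_one, one_pow, one_mul, one_mul]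
      rfl
    · have h3 := hα'2 z hz
      rw [Int.cast_neg, Int.cast_neg, ← sub_eq_add_neg] at h3
      exact h3

end Pool.Agent.DM.F
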