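import Pool.Agent.Lib.DM.F.Base

/-!
# Theorem DM, part F: `S_F2` (the leading coefficient of `C`)
-/

set_option autoImplicit false
set_option linter.unusedSectionVars false

open scoped Pointwise Topology MatrixGroups
open Filter

noncomputable section

namespace Pool.Agent.DM.F

open Pool.Agent.MuZ Pool.Agent.FW NumberField IsDedekindDomain Pool.Agent.DN Pool.Agent.DN.F
open Pool.Agent.DI (io ofC io_inj exists_io io_ofC ofC_io VP MP UP TP ex)

/-- the valuation of the conjugate of `x`, `x / w8 ^ k` integral at the conjugate prime -/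
private theorem F2_cj {c : Gal(Om/ℚ)} (hcc : c * c = 1) {P : Ideal ZZ} (hP : Ab3 P) {k : ℕ} {x : Om}
    (hx : VP (c • P) (x / w8 ^ k)) : VP P (c x / w8 ^ k) := by
  have hPp : P.IsPrime := hP.1.1
  have hQ := ab3_smul c hP
  have hQp : (c • P).IsPrime := hQ.1.1
  have hcinv : ∀ y : Om, c (c y) = y := by
    intro y
    have h1 := congrArg (fun g : Gal(Om/ℚ) => g y) hcc
    exact h1
  have hci : c⁻¹ = c := inv_eq_of_mul_eq_one_left hcc
  -- `w8 / c w8` is a unit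
  have hcc3 : c w8 ^ 8 = 3 := by rw [← map_pow, w8_pow, map_ofNat]
  have hcc0 : c w8 ≠ 0 := fun h => w8_ne ((map_eq_zero c).1 h)
  have hr : (w8 / c w8) ^ 8 = 1 := by
    rw [div_pow, w8_pow, hcc3]
    norm_num
  have hru : UP (c • P) (w8 / c w8) := by
    refine DI.UP.of_pow (n := 8) (by norm_num) ?_
    rw [hr]
    exact DI.UP.one
  have h1 : VP (c • P) (x / c w8 ^ k) := by
    have e : x / c w8 ^ k = x / w8 ^ k * (w8 / c w8) ^ k := by
      have h3 := w8_ne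
      rw [div_pow]
      field_simp
    rw [e]
    exact DI.VP.mul hx (DI.VP.pow hru.1 k)
  have h2 := (DI.VP.smul (P := c • P) c (x := x / c w8 ^ k)).2 h1
  rw [smul_smul, hcc, one_smul, map_div₀, map_pow, hcinv] at h2
  exact h2

/-- `w - conj w` is a unit above `3`. -/
private theorem F2_w {n t : ℕ} [Ine3 n t] {P : Ideal ZZ} (hP : Ab3 P) :
    UP P (wO n t - (t - wO n t)) := by
  have hPp : P.IsPrime := hP.1.1
  refine DI.UP.of_pow (n := 2) (by norm_num) ?_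
  have e : (wO n t - ((t : Om) - wO n t)) ^ 2 = (t : Om) ^ 2 - 4 * n := by
    have h := wO_sq (n := n) (t := t)
    linear_combination 4 * h
  rw [e]
  rcases ine3_cases n t with ⟨rfl, h⟩ | ⟨rfl, h⟩
  · have h1 := nat_UP hP (j := 4 * n - 1) (by omega)
    have h2 : ((4 * n - 1 : ℕ) : Om) = 4 * n - 1 := by
      rw [Nat.cast_sub (by omega)]
      push_cast
      ring
    rw [h2] at h1
    have h3 := h1.neg
    have e2 : ((1 : ℕ) : Om) ^ 2 - 4 * n = -(4 * n - 1) := by push_cast; ring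
    rw [e2]
    exact h3
  · have h1 := nat_UP hP (j := 4 * n) (by omega)
    have h3 := h1.neg
    have e2 : ((0 : ℕ) : Om) ^ 2 - 4 * n = -((4 * n : ℕ) : Om) := by push_cast; ring
    rw [e2]
    exact h3

private theorem F2_toC (n t : ℕ) [Ine3 n t] {f : ℕ} {m : Ideal (OO n t)} {R : Finset (Ideal (OO n t))}
    (hFR : FR f R) {σ : Ideal (OO n t) → Gal(Om/ℚ)} (hσ : IsSig n t f σ) (N0 : ℕ) (β : Om) :
    (∀ z : ℂ, AF f m R σ N0 (wO n t * β) z = wC n t * AF f m R σ N0 β z) ∧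
    ∀ j : ℕ, aF f m R σ N0 (wO n t * β) j = wO n t * aF f m R σ N0 β j := by
  have key : ∀ b ∈ R, σ b (wO n t * β) = wO n t * σ b β := by
    intro b hb
    rw [map_mul, mem_GK_iff.1 (hσ.mem b (hFR b hb))]
  constructor
  · intro z
    unfold AF
    rw [Finset.mul_sum, Finset.mul_sum, Finset.mul_sum]
    refine Finset.sum_congr rfl fun b hb => ?_
    rw [key b hb, map_mul, io_wO]
    ring
  · intro j
    unfold aF
    rw [Finset.mul_sum, Finset.mul_sum, Finset.mul_sum]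
    refine Finset.sum_congr rfl fun b hb => ?_
    rw [key b hb]
    ring

/-- **S_F2.** -/
theorem tF2 (hKf : S_Kf) (hF1 : S_F1) (hLead : S_Lead) : S_F2 := by
  intro n t _ f M k e m R R2 hm hmt hFR hR hLv hFR2 hR2 hLv2 χ hχ P hP hk hTy σ hσ s hs0 c hc hyp
  have hPp : P.IsPrime := hP.1.1
  have hf := hm.toFok
  obtain ⟨N0, β, hN0, hβ, hV, hU, hper⟩ :=
    hF1 n t f M k e m R R2 hm hFR hR hLv hFR2 hR2 hLv2 χ hχ P hP hk hTy σ hσ s hs0 hyp
  obtain ⟨k1, -, -, -, -, -, -, k9⟩ := hKf n t f hf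
  obtain ⟨-, kw, -, -⟩ := k1 (3 * f) (Or.inr rfl)
  obtain ⟨hcc, hcw⟩ := k9 c hc
  have hwV : ∀ Q : Ideal ZZ, Q.IsPrime → VP Q (wO n t) := fun Q hQ => by
    rw [← toO_wI]
    exact toO_VP _
  -- integrality, for `β` and `w β`
  have hL : ∀ β' ∈ Kf n t f (3 * f), (∀ Q : Ideal ZZ, Ab3 Q → ∀ τ ∈ GK n t, VP Q (3 * τ β' / w8 ^ k)) →
      ∀ j : ℕ, VP P (aF f m R2 σ N0 β' j / w8 ^ k) ∧ VP P (c (aF f m R2 σ N0 β' j) / w8 ^ k) := by
    intro β' hβ' h1 j
    obtain ⟨-, -, -, l4, -⟩ := hLead n t f m R2 hm hFR2 hR2 σ hσ N0 β' hβ'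
    have h2 : ∀ Q : Ideal ZZ, Ab3 Q → VP Q (aF f m R2 σ N0 β' j / w8 ^ k) := fun Q hQ =>
      l4 Q hQ (w8 ^ k) (pow_ne_zero k w8_ne)
        (fun b hb => h1 Q hQ (σ b) (hσ.mem b (hFR2 b hb))) j
    exact ⟨h2 P hP, F2_cj hcc hP (h2 _ (ab3_smul c hP))⟩
  obtain ⟨-, -, -, -, l5⟩ := hLead n t f m R2 hm hFR2 hR2 σ hσ N0 β hβ
  obtain ⟨b1, hb1, hb1r, u, hu1, hu2⟩ := l5 hmt hN0
  have ha1 : UP P (aF f m R2 σ N0 β 1 / w8 ^ k) := by
    rw [hu1, mul_div_assoc]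
    exact DI.UP.mul (hu2 P hP) (hU b1 hb1 hb1r)
  obtain ⟨w1, w2⟩ := F2_toC n t (m := m) hFR2 hσ N0 β
  have hcV : ∀ (β' : Om) (j : ℕ), VP P (aF f m R2 σ N0 β' j / w8 ^ k) →
      VP P (c (aF f m R2 σ N0 β' j) / w8 ^ k) → VP P (cF f s m R2 σ c N0 β' j / w8 ^ k) := by
    intro β' j v1 v2
    unfold cF
    rw [sub_div, mul_div_assoc]
    exact DI.VP.sub v1 (DI.VP.mul (DI.VP.int s) v2)
  by_cases hcase : UP P (cF f s m R2 σ c N0 β 1 / w8 ^ k)
  · refine ⟨N0, β, hβ, fun j => ?_, hcase, hper⟩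
    obtain ⟨v1, v2⟩ := hL β hβ hV j
    exact hcV _ j v1 v2
  · -- `w β`
    have hV' : ∀ Q : Ideal ZZ, Ab3 Q → ∀ τ ∈ GK n t, VP Q (3 * τ (wO n t * β) / w8 ^ k) := by
      intro Q hQ τ hτ
      have hQp : Q.IsPrime := hQ.1.1
      have e : 3 * τ (wO n t * β) / w8 ^ k = wO n t * (3 * τ β / w8 ^ k) := by
        rw [map_mul, mem_GK_iff.1 hτ]
        ring
      rw [e]
      exact DI.VP.mul (hwV Q hQ.1.1) (hV Q hQ τ hτ)
    have hβ' : wO n t * β ∈ Kf n t f (3 * f) := mul_mem kw hβ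
    refine ⟨N0, wO n t * β, hβ', fun j => ?_, ?_, ?_⟩
    · obtain ⟨v1, v2⟩ := hL _ hβ' hV' j
      exact hcV _ j v1 v2
    · obtain ⟨v1, v2⟩ := hL β hβ hV 1
      have hm1 : MP P (cF f s m R2 σ c N0 β 1 / w8 ^ k) := by
        by_contra h
        apply hcase
        exact ⟨hcV _ 1 v1 v2, h⟩
      -- modulo `P`
      have hd := F2_w (n := n) (t := t) hP
      refine DI.UP.congr (x := (wO n t - (t - wO n t)) * (aF f m R2 σ N0 β 1 / w8 ^ k))
        (DI.UP.mul hd ha1) ?_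
      have e : cF f s m R2 σ c N0 (wO n t * β) 1 / w8 ^ k -
          (wO n t - (t - wO n t)) * (aF f m R2 σ N0 β 1 / w8 ^ k) =
          (t - wO n t) * (cF f s m R2 σ c N0 β 1 / w8 ^ k) := by
        unfold cF
        rw [w2, map_mul, hcw]
        ring
      rw [e]
      exact DI.MP.mul_left (DI.VP.sub (DI.VP.nat t) (hwV P hPp)) hm1
    · intro a b c' d h1 h2
      obtain ⟨α, α', h3, h4⟩ := hper a b c' d h1 h2
      refine ⟨wI n t * α, wI n t * α', ?_, fun z hz => ?_⟩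
      · rw [mul_left_comm, ← mul_add]
        exact h3.mul_left _
      · obtain ⟨h5, h6⟩ := h4 z hz
        rw [w1, w1, w1, h5, h6, toC_mul, toC_mul, toC_wI]
        exact ⟨by ring, by ring⟩

end Pool.Agent.DM.F
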