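import Pool.Agent.Lib.DM.F.Tan
import Pool.Agent.Lib.DN.F.FHm

/-!
# Theorem DM, part F: the contradiction (`S_FH`) from the generic form `DM.F4.fh`
-/

set_option autoImplicit false

open scoped Pointwise

noncomputable section

namespace Pool.Agent.DM.F

open Pool.Agent.MuZ Pool.Agent.FW NumberField IsDedekindDomain Pool.Agent.DN Pool.Agent.DN.F
open Pool.Agent.DI (io ofC io_inj exists_io io_ofC ofC_io VP MP UP TP ex)
open _root_.DI.F4
open Pool.Agent.DN.FHm (VPv)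

/-- The valuations of the numbers of the model, abstract form; `c ^ 8 = 3`. -/
private theorem fh_val {P : Ideal ZZ} (hP : Ab3 P) {c x y a b : Om} (hc : c ^ 8 = 3) (ha : UP P a)
    (hb : VP P b) (hy0 : y ≠ 0) (hcrv : y ^ 2 = x ^ 3 + a * x + b)
    (hdiv : 3 * x ^ 4 + 6 * a * x ^ 2 + 12 * b * x - a ^ 2 = 0) :
    UP P ((3 * x ^ 2 + a) / (2 * y) / c ^ 3) ∧ UP P ((y - (3 * x ^ 2 + a) / (2 * y) * x) * c ^ 3) := by
  have hPp : P.IsPrime := hP.1.1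
  have hcm : MP P c := by
    refine DI.MP.of_pow (n := 8) ?_
    rw [hc]
    exact hP.2
  have hc0 : c ≠ 0 := by
    rintro rfl
    rw [zero_pow (by norm_num)] at hc
    exact three_ne_zero hc.symm
  have h2 := two_UP hP
  have h4m : ∀ j : ℕ, 1 ≤ j → MP P (c ^ j) := by
    intro j hj
    obtain ⟨i, rfl⟩ : ∃ i, j = i + 1 := ⟨j - 1, by omega⟩
    rw [pow_succ]
    exact DI.MP.mul_left (DI.VP.pow hcm.vp i) hcm
  obtain ⟨g, hg⟩ : ∃ g, g = c ^ 2 * x := ⟨_, rfl⟩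
  have hx : x = g / c ^ 2 := by
    rw [hg]
    field_simp
  -- the equation of `g`
  have eg : g ^ 4 = a ^ 2 - c ^ 4 * (2 * a * g ^ 2) - c ^ 6 * (4 * b * g) := by
    have e1 : 3 * x ^ 4 = g ^ 4 := by
      rw [← hc, hx]
      field_simp
    have e2 : 6 * a * x ^ 2 = c ^ 4 * (2 * a * g ^ 2) := by
      have : (6 : Om) = 2 * c ^ 8 := by rw [hc]; norm_num
      rw [this, hx]
      field_simp
    have e3 : 12 * b * x = c ^ 6 * (4 * b * g) := by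
      have : (12 : Om) = 4 * c ^ 8 := by rw [hc]; norm_num
      rw [this, hx]
      field_simp
    linear_combination hdiv - e1 - e2 - e3
  have v4 : VP P (4 : Om) := by exact_mod_cast DI.VP.nat (P := P) 4
  have hgV : VP P g := by
    by_contra h
    obtain ⟨h0, h5⟩ := DI.VP.not_iff.1 h
    have h6 : (1 : Om) = g⁻¹ * (a ^ 2 * g⁻¹ ^ 3 - c ^ 4 * (2 * a * g⁻¹) - c ^ 6 * (4 * b * g⁻¹ ^ 2)) := by
      have e5 : g ^ 4 * (g⁻¹ * (a ^ 2 * g⁻¹ ^ 3 - c ^ 4 * (2 * a * g⁻¹) -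
          c ^ 6 * (4 * b * g⁻¹ ^ 2))) = g ^ 4 := by
        conv_rhs => rw [eg]
        field_simp
      exact (mul_left_cancel₀ (pow_ne_zero 4 h0) (by rw [e5, mul_one])).symm
    have h7 : MP P (1 : Om) := by
      rw [h6]
      refine DI.MP.mul_right h5 (DI.VP.sub (DI.VP.sub ?_ ?_) ?_)
      · exact DI.VP.mul (DI.VP.pow ha.1 2) (DI.VP.pow h5.vp 3)
      · exact DI.VP.mul (DI.VP.pow hcm.vp 4) (DI.VP.mul (DI.VP.mul h2.1 ha.1) h5.vp)
      · exact DI.VP.mul (DI.VP.pow hcm.vp 6) (DI.VP.mul (DI.VP.mul v4 hb) (DI.VP.pow h5.vp 2))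
    exact DI.MP.one_not h7
  have hgU : UP P g := by
    refine DI.UP.of_pow (n := 4) (by norm_num) ?_
    refine DI.UP.congr (ha.pow 2) ?_
    have e : g ^ 4 - a ^ 2 = -(c ^ 4 * (2 * a * g ^ 2) + c ^ 6 * (4 * b * g)) := by
      rw [eg]
      ring
    rw [e]
    refine DI.MP.neg (DI.MP.add (DI.MP.mul_right (h4m 4 (by norm_num)) ?_)
      (DI.MP.mul_right (h4m 6 (by norm_num)) ?_))
    · exact DI.VP.mul (DI.VP.mul h2.1 ha.1) (DI.VP.pow hgV 2)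
    · exact DI.VP.mul (DI.VP.mul v4 hb) hgV
  obtain ⟨h, hh⟩ : ∃ h, h = c ^ 3 * y := ⟨_, rfl⟩
  have hh0 : h ≠ 0 := by
    rw [hh]
    exact mul_ne_zero (pow_ne_zero 3 hc0) hy0
  have hhU : UP P h := by
    refine DI.UP.of_pow (n := 2) (by norm_num) ?_
    refine DI.UP.congr (hgU.pow 3) ?_
    have e : h ^ 2 - g ^ 3 = c ^ 4 * (a * g) + c ^ 6 * b := by
      rw [hh, hg]
      linear_combination c ^ 6 * hcrv
    rw [e]
    exact DI.MP.add (DI.MP.mul_right (h4m 4 (by norm_num)) (DI.VP.mul ha.1 hgV))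
      (DI.MP.mul_right (h4m 6 (by norm_num)) hb)
  have hy : y = h / c ^ 3 := by
    rw [hh]
    field_simp
  have e3x : 3 * x ^ 2 = c ^ 4 * g ^ 2 := by
    rw [← hc, hx]
    field_simp
  have hl : (3 * x ^ 2 + a) / (2 * y) / c ^ 3 = (c ^ 4 * g ^ 2 + a) / (2 * h) := by
    rw [e3x, hy]
    field_simp
  have hlU : UP P ((c ^ 4 * g ^ 2 + a) / (2 * h)) := by
    refine DI.UP.div (DI.UP.congr ha ?_) (h2.mul hhU)
    rw [add_sub_cancel_right]
    exact DI.MP.mul_right (h4m 4 (by norm_num)) (DI.VP.pow hgV 2)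
  refine ⟨by rw [hl]; exact hlU, ?_⟩
  have e4 : (y - (3 * x ^ 2 + a) / (2 * y) * x) * c ^ 3 =
      h - c ^ 4 * ((c ^ 4 * g ^ 2 + a) / (2 * h) * g) := by
    have e5 : (3 * x ^ 2 + a) / (2 * y) = (c ^ 4 * g ^ 2 + a) / (2 * h) * c ^ 3 := by
      rw [← hl]
      field_simp
    rw [e5, hx, hy]
    field_simp
  rw [e4]
  refine DI.UP.congr hhU ?_
  have e6 : h - c ^ 4 * ((c ^ 4 * g ^ 2 + a) / (2 * h) * g) - h =
      -(c ^ 4 * ((c ^ 4 * g ^ 2 + a) / (2 * h) * g)) := by ring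
  rw [e6]
  exact DI.MP.neg (DI.MP.mul_right (h4m 4 (by norm_num)) (DI.VP.mul hlU.1 hgV))

/-- The numbers of the model. -/
theorem fh_model (hB1 : S_B1) (hR1 : S_R1) (hR2 : S_R2) {n t : ℕ} [Ine3 n t] {P : Ideal ZZ}
    (hP : Ab3 P) : UP P (a4O n t) ∧ VP P (a6O n t) ∧ UP P (lamO n t / w8 ^ 3) ∧
      UP P (nuO n t * w8 ^ 3) := by
  have hPp : P.IsPrime := hP.1.1
  have h2 := two_UP hP
  obtain ⟨y, hy, ey⟩ := hR2.2.2 n t P hP (⊤ : Ideal (OO n t)) g30_top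
  have h1 := hR2.2.1 n t P hP (⊤ : Ideal (OO n t)) g30_top
  have hcU : UP P (cO (⊤ : Ideal (OO n t))) := by
    refine DI.UP.congr (DI.UP.one.neg) ?_
    rw [sub_neg_eq_add]
    exact h1
  have hi : VP P (2 : Om)⁻¹ := h2.inv.1
  have ha : UP P (a4O n t) := by
    refine DI.UP.congr (hcU.pow 2) ?_
    have e : a4O n t - cO (⊤ : Ideal (OO n t)) ^ 2 = -(3 * (y ^ 2 * (2 : Om)⁻¹ ^ 4)) := by
      unfold a4O
      rw [ey]
      field_simp
      ring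
    rw [e]
    exact DI.MP.neg (DI.MP.mul_right hP.2 (DI.VP.mul (DI.VP.pow hy 2) (DI.VP.pow hi 4)))
  have hb : VP P (a6O n t) := by
    have e : a6O n t = y ^ 3 * (2 : Om)⁻¹ ^ 5 - y * cO (⊤ : Ideal (OO n t)) ^ 2 * (2 : Om)⁻¹ ^ 2 := by
      unfold a6O
      rw [ey]
      field_simp
      ring
    rw [e]
    exact DI.VP.sub (DI.VP.mul (DI.VP.pow hy 3) (DI.VP.pow hi 5))
      (DI.VP.mul (DI.VP.mul hy (DI.VP.pow hcU.1 2)) (DI.VP.pow hi 2))
  obtain ⟨t1, t2, t3⟩ := tan_rel hB1 hR1 n t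
  obtain ⟨v1, v2⟩ := fh_val hP w8_pow ha hb t1 t2 t3
  exact ⟨ha, hb, v1, v2⟩

/-- **S_FH.** -/
theorem tFH (hB1 : S_B1) (hR1 : S_R1) (hR2 : S_R2) (hKf : S_Kf) (hLead : S_Lead) : S_FH := by
  intro n t _ f k m R hm hR hRC P hP hk σ hσ c hc s N0 β hβ hV hu1 T W ψ Q1 Q2 hTW hψ hQ2 hQ K' hK'
    hQ1k hQ2k vQ1 vQ2
  have hPp : P.IsPrime := hP.1.1
  obtain ⟨a1, a2, a3, a4⟩ := fh_model (n := n) (t := t) hB1 hR1 hR2 hP
  obtain ⟨l1, l2, -⟩ := hLead n t f m R hm hR hRC σ hσ N0 β hβ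
  obtain ⟨kf, -⟩ := (hKf n t f hm.toFok).1 (3 * f) (Or.inr rfl)
  obtain ⟨r, hr⟩ : ∃ r : Om, r ^ 3 = nuO n t * w8 ^ 3 :=
    IsAlgClosed.exists_pow_nat_eq _ (by norm_num)
  have hrU : UP P r := by
    refine DI.UP.of_pow (n := 3) (by norm_num) ?_
    rw [hr]
    exact a4
  have hl0 : lamO n t ≠ 0 := by
    intro h
    have h1 := a3.ne_zero
    rw [h, zero_div] at h1
    exact h1 rfl
  -- the field of coefficients
  let S0 : Set Om := {w8, r, a4O n t, a6O n t}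
  have : FiniteDimensional ℚ (IntermediateField.adjoin ℚ S0) :=
    IntermediateField.finiteDimensional_adjoin fun x _ => (Algebra.IsAlgebraic.isAlgebraic x).isIntegral
  let K1 : IntermediateField ℚ Om :=
    K' ⊔ (Kf n t f (3 * f) ⊔ ((Kf n t f (3 * f)).map (c : Om →ₐ[ℚ] Om) ⊔ IntermediateField.adjoin ℚ S0))
  have : FiniteDimensional ℚ K1 := inferInstance
  have hK'1 : K' ≤ K1 := le_sup_left
  have hK2 : Kf n t f (3 * f) ≤ K1 := le_sup_left.trans le_sup_right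
  have hK3 : (Kf n t f (3 * f)).map (c : Om →ₐ[ℚ] Om) ≤ K1 :=
    (le_sup_left.trans le_sup_right).trans le_sup_right
  have hK4 : IntermediateField.adjoin ℚ S0 ≤ K1 :=
    (le_sup_right.trans le_sup_right).trans le_sup_right
  have hS0 : ∀ x ∈ S0, x ∈ K1 := fun x hx => hK4 (IntermediateField.subset_adjoin ℚ S0 hx)
  have h3V : (3 : Om)⁻¹ ∉ VPv P := by
    intro h1
    have h3 : VP P (3 : Om)⁻¹ := h1
    have h4 := DI.MP.mul_left h3 hP.2
    rw [inv_mul_cancel₀ three_ne_zero] at h4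
    exact DI.MP.one_not h4
  obtain ⟨ϖ, hϖ⟩ := _root_.DT.F4.disV Om (VPv P) K1 3 (by norm_num) (by exact_mod_cast h3V)
  have hcu : ∀ j, PowerSeries.coeff j (uF f s m R σ c N0 β) = cF f s m R σ c N0 β j := fun j => by
    unfold uF
    rw [PowerSeries.coeff_mk]
  have hu1' : UP P (PowerSeries.coeff 1 (uF f s m R σ c N0 β) / w8 ^ k) := by
    rw [hcu]
    exact hu1
  refine _root_.DM.F4.fh (V := VPv P) (S := K1.toSubfield) hϖ h3V (c := w8) (a := a4O n t)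
    (b := a6O n t) (lam := lamO n t) (nu := nuO n t) (r := r) (k := k) (by omega) (by omega) w8_pow
    (hS0 _ (by simp [S0])) a1.1 (hS0 _ (by simp [S0])) a2 (hS0 _ (by simp [S0])) a3.1 hl0 a3.inv.1
    hrU.1 (hS0 _ (by simp [S0])) hr (u := uF f s m R σ c N0 β) (T := T) (W := W) (ψ := ψ) (Q1 := Q1)
    (Q2 := Q2) ?_ ?_ ?_ ?_ hu1'.inv.1 hTW hψ hQ2 hQ (fun j => hK'1 (hQ1k j))
    (fun j => hK'1 (hQ2k j)) vQ1 vQ2
  · intro j
    rw [hcu]
    exact hV j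
  · intro j
    rw [hcu]
    unfold cF
    exact sub_mem (hK2 (l1 j)) (mul_mem (intCast_mem _ _) (hK3 ⟨_, l1 j, rfl⟩))
  · rw [hcu]
    unfold cF
    rw [l2, map_zero, mul_zero, sub_zero]
  · intro h
    have h1 := hu1'.ne_zero
    rw [h, zero_div] at h1
    exact h1 rfl

end Pool.Agent.DM.F
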