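import Pool.Agent.Lib.DM.F.SpecL

/-!
# Theorem DM, part F, module `Lead`: the `q`-expansion of `A`
-/

set_option autoImplicit false

noncomputable section

namespace Pool.Agent.DM.F

open Pool.Agent.MuZ Pool.Agent.FW NumberField IsDedekindDomain Pool.Agent.DN Pool.Agent.DN.F
open Pool.Agent.DI (io ofC io_inj io_ofC ofC_io VP MP UP TP ex)

/-- `ofC 0 = 0`. -/
private theorem Lead_zero : ofC 0 = 0 := by
  have := ofC_io 0
  rwa [map_zero] at this

/-- The elements congruent to `1` modulo `3` are units above `3`. -/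
theorem one_UP {n t : ℕ} [SqN n t] {P : Ideal ZZ} (hP : Ab3 P) {x : OO n t} (hx : (3 : OO n t) ∣ x - 1) :
    UP P (toO x) := by
  have hPp : P.IsPrime := hP.1.1
  obtain ⟨y, hy⟩ := hx
  have h1 : toO x - 1 = 3 * toO y := by
    rw [← toO_one (n := n) (t := t), ← toO_sub, hy, toO_mul]
    have := toO_nat (n := n) (t := t) 3
    rw [show (3 : OO n t) = ((3 : ℕ) : OO n t) by norm_cast, this]
    norm_num
  refine DI.UP.congr DI.UP.one ?_
  rw [h1]
  exact DI.MP.mul_right hP.2 (toO_VP y)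

/-- The quotients `rO b ⊤` are units above `3`. -/
theorem rO_UP (hR1 : S_R1) (hD2 : S_D2) {n t : ℕ} [Ine3 n t] {f : ℕ} (hf : Fok f)
    {b : Ideal (OO n t)} (hb : FB f b) {P : Ideal ZZ} (hP : Ab3 P) : UP P (rO b ⊤) := by
  have hPp : P.IsPrime := hP.1.1
  have hG := fb_g30 hf hb
  have h1 := (hD2 n t P hP ⊤ g30_top).2.2.2.2.2.2.2 b hb.ne hG.cop
  rw [Ideal.mul_top] at h1
  have h2 := rO_mul hR1 hG g30_top
  have h3 : rO b ⊤ = (rO ⊤ b)⁻¹ := eq_inv_of_mul_eq_one_left h2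
  rw [h3]
  exact h1.inv

theorem tLead (hR1 : S_R1) (hD2 : S_D2) (hC7 : S_C7) (hCoL : S_CoL) (hHas : S_Has)
    (hV1b : S_V1b) : S_Lead := by
  classical
  intro n t _ f m R hm hR hRC σ hσ N0 β hβ
  obtain ⟨h1, h2⟩ := hHas n t f m R hm hRC σ N0 β
  refine ⟨(hCoL n t f m R hm hRC σ hσ N0 β hβ).2, h2, h1, ?_, ?_⟩
  · -- divisibility
    intro Q hQ γ hγ hb j
    have hQp : Q.IsPrime := hQ.1.1
    have e : aF f m R σ N0 β j / γ =
        N0 * ∑ b ∈ R, (3 * σ b β / γ) * rO b ⊤ * (ofC (cM (3 * f) m b j) / 3) := by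
      unfold aF
      rw [mul_div_assoc, Finset.sum_div]
      congr 1
      refine Finset.sum_congr rfl fun b _ => ?_
      field_simp
    rw [e]
    have h3 : VP Q ((N0 : ℕ) : Om) := DI.VP.integral (by
      simpa using isIntegral_algebraMap (R := ℤ) (A := Om) (x := (N0 : ℤ)))
    refine h3.mul (DI.VP.sum _ _ fun b hbR => ?_)
    have hfb := rc_fb hRC hbR
    refine ((hb b hbR).mul (rO_UP hR1 hD2 hm.toFok hfb hQ).1).mul ?_
    obtain ⟨y, hy, hy'⟩ := ((hC7 n t f m b hm hfb).2.2.2.2.1 j).2 Q hQ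
    rw [hy', mul_div_cancel_left₀ y three_ne_zero]
    exact hy
  · intro hmt hN0
    have hf : 0 < f := hm.pos
    have h2f : 0 < 3 * f := by omega
    obtain ⟨b1, hb1, hr1, hun⟩ := exists_b1 h2f (fb_pn (fm_fb hm)) hRC
    have hfb1 := rc_fb hRC hb1
    obtain ⟨x, hx0, hx1, hx2, hx3, hx4⟩ := (hV1b n t f m b1 hm hfb1).2 hr1
    have hfC : (f : ℂ) ≠ 0 := by exact_mod_cast hf.ne'
    have hxC : toC x ≠ 0 := toC_ne hx0
    -- the coefficients
    have hc1 : ofC (cM (3 * f) m b1 1) = 3 * f * toO x := by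
      have h3 : cM (3 * f) m b1 1 = io (3 * f * toO x) := by
        unfold cM
        rw [hx3, Finset.sum_singleton, if_neg (hx4 hmt), one_mul, one_div, inv_inv, map_mul,
          map_mul, map_natCast, io_toO, map_ofNat]
        push_cast
        ring
      rw [h3, ofC_io]
    have hc2 : ∀ b ∈ R, b ≠ b1 → ofC (cM (3 * f) m b 1) = 0 := by
      intro b hb hne
      have h3 : vN (3 * f) (m * b) 1 = ∅ := by
        by_contra h4
        exact hne (hun b hb ((hV1b n t f m b hm (rc_fb hRC hb)).1 h4))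
      have h4 : cM (3 * f) m b 1 = 0 := by
        unfold cM
        rw [h3, Finset.sum_empty]
      rw [h4, Lead_zero]
    have ha : aF f m R σ N0 β 1 = N0 * (σ b1 β * rO b1 ⊤ * (3 * f * toO x)) := by
      unfold aF
      rw [Finset.sum_eq_single b1 (fun b hb hne => by rw [hc2 b hb hne, mul_zero])
        (fun h => absurd hb1 h), hc1]
    refine ⟨b1, hb1, hr1, N0 * rO b1 ⊤ * (f * toO x), ?_, fun Q hQ => ?_⟩
    · rw [ha]
      ring
    · have hQp : Q.IsPrime := hQ.1.1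
      have h22 : (3 : OO n t) ∣ x - 1 := by
        have h3 : ((3 : ℕ) : OO n t) ∣ ((3 * f : ℕ) : OO n t) := Nat.cast_dvd_cast (Dvd.intro _ rfl)
        exact_mod_cast h3.trans hx2
      have hf3 : ¬ 3 ∣ f := by
        intro h3
        have h4 := Nat.dvd_gcd h3 (dvd_refl 3)
        rw [hm.cop] at h4
        norm_num at h4
      exact ((nat_UP hQ hN0).mul (rO_UP hR1 hD2 hm.toFok hfb1 hQ)).mul
        ((nat_UP hQ hf3).mul (one_UP hQ h22))

end Pool.Agent.DM.F
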