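import Pool.Agent.Lib.DM.F.SpecA

/-!
# Theorem DM, part F, module `Pa`: the periods of `A`
-/

set_option autoImplicit false
set_option linter.unusedSectionVars false

open scoped Pointwise Topology MatrixGroups
open Filter

noncomputable section

namespace Pool.Agent.DM.F

open Pool.Agent.MuZ Pool.Agent.FW NumberField IsDedekindDomain Pool.Agent.DN Pool.Agent.DN.F
open Pool.Agent.DI (io ofC io_inj exists_io io_ofC ofC_io VP MP UP TP ex)

theorem tPa (hC2 : S_C2) (hC6 : S_C6) (hE1 : DS.S_E1) (hKf : S_Kf) (hTm : S_TmF) (hGc : S_Gc)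
    (hYE : S_YE) : S_Pa := by
  intro n t _ f M k m R R2 hFM hFR hR hLv hFR2 hR2 hLv2 hk σ hσ β₀ hβ₀ hβV a b c' d hg hd
  obtain ⟨G1, G2, -, -, G5⟩ := hGc n t f hFM.toFok
  obtain ⟨T1, T2, -⟩ := hTm n t f hFM.toFok
  obtain ⟨-, -, -, hfix, -⟩ := hKf n t f hFM.toFok
  have hfp : 0 < f := f_pos hFM.toFok
  have hMd : (M : ℤ) ∣ d - 1 := dvd_trans (⟨9, by ring⟩) hd
  have hden : ((3 : ℚ) * b / d).den.Coprime M := by
    have h := den_cop (b := 3 * b) hMd (dvd_refl _)
    have e : (((3 * b : ℤ) : ℚ)) / d = 3 * b / d := by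
      push_cast
      ring
    rwa [e] at h
  have hden0 : (0 : ℚ).den.Coprime M := by simp
  obtain ⟨Y1, Y2, Y3, -⟩ := hYE n t f M k m R hFM hFR hLv hk _ hden
  obtain ⟨Z1, Z2, Z3, -⟩ := hYE n t f M k m R hFM hFR hLv hk _ hden0
  set x : Om := yE f k m (⊤ : Ideal (OO n t)) (3 * b / d) - yE f k m ⊤ 0 with hx
  have hxK : β₀ * x ∈ Kf n t f f := (Kf n t f f).mul_mem hβ₀ ((Kf n t f f).sub_mem Y1 Z1)
  refine ⟨?_, ?_, ?_⟩
  · intro z hz
    -- the class function
    set F : Ideal (OO n t) → Om := fun b' => kp b' ^ k * σ b' β₀ / 3 *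
      (etaM (3 * f) m b' (b / d) - etaM (3 * f) m b' 0) with hF
    have hFc : ∀ b1 b2, FB f b1 → FB f b2 → Ray (3 * f) b1 b2 → F b1 = F b2 := by
      intro b1 b2 h1 h2 h3
      have e1 := G2 b1 b2 h1 h2 h3
      have e2 := (G5 σ hσ f (Or.inl rfl) β₀ hβ₀).1 b1 b2 h1 h2 (ray_f hFM.toFok h3)
      have e3 := ((hC6 n t f m b1 hFM h1).1 b2 h2 h3).2
      change kp b1 ^ k * σ b1 β₀ / 3 * (etaM (3 * f) m b1 (b / d) - etaM (3 * f) m b1 0) =
        kp b2 ^ k * σ b2 β₀ / 3 * (etaM (3 * f) m b2 (b / d) - etaM (3 * f) m b2 0)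
      rw [e1, e2, e3, e3]
    have hsum := (T2 Om F hFc).1 R R2 hR hFR hR2
    have hin : ∀ b' ∈ R, ∑ α ∈ tm n t f, F (sp α * b') = σ b' (β₀ * x) := by
      intro b' hb'
      have hfb := hFR b' hb'
      have e1 : ∀ α ∈ tm n t f, F (sp α * b') = σ b' β₀ *
          (1 / 3 * (kp (sp α * b') ^ k * etaM (3 * f) m (sp α * b') (3 * b / d / 3)) -
            1 / 3 * (kp (sp α * b') ^ k * etaM (3 * f) m (sp α * b') (0 / 3))) := by
        intro α hα
        obtain ⟨h1, h2, h3, h4⟩ := T1 α hα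
        have h5 : Ray f (sp α * b') b' := by
          refine ray_of (one_ne_zero) h1 ?_ h2 ?_
          · rw [sub_self]
            exact dvd_zero _
          · rw [sp_one, Ideal.top_mul]
        have h6 : FB f (sp α * b') := fb_mul (fb_sp hFM.toFok h4) hfb
        have h7 := (G5 σ hσ f (Or.inl rfl) β₀ hβ₀).1 _ b' h6 hfb h5
        have h8 : (3 : ℚ) * b / d / 3 = b / d := by ring
        have h9 : (0 : ℚ) / 3 = 0 := by ring
        change kp (sp α * b') ^ k * σ (sp α * b') β₀ / 3 *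
          (etaM (3 * f) m (sp α * b') (b / d) - etaM (3 * f) m (sp α * b') 0) = _
        rw [h7, h8, h9]
        ring
      rw [Finset.sum_congr rfl e1, ← Finset.mul_sum, Finset.sum_sub_distrib, ← Finset.mul_sum,
        ← Finset.mul_sum, map_mul, hx, map_sub, Y3 (σ b') (hσ.mem b' hfb) b' (hσ.psi b' hfb),
        Z3 (σ b') (hσ.mem b' hfb) b' (hσ.psi b' hfb)]
      rfl
    rw [Finset.sum_congr rfl hin] at hsum
    have h1 : ∀ b' ∈ R2, io (σ b' (bet n t k β₀)) * ThM (3 * f) m b' ((a * z + b) / (c' * z + d)) =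
        io (σ b' (bet n t k β₀)) * ThM (3 * f) m b' z + io (F b') := by
      intro b' hb'
      have hfb := hFR2 b' hb'
      have h2 := hC2 n t f M m b' hFM hfb (lv_one hLv2 hb') a b c' d hg hd z hz
      have h3 := (G1 (σ b') (hσ.mem b' hfb) b' (hσ.psi b' hfb) ⊤ (fb_top f)).1
      rw [Ideal.mul_top] at h3
      have h4 : F b' = σ b' (bet n t k β₀) * (etaM (3 * f) m b' (b / d) - etaM (3 * f) m b' 0) := by
        unfold bet
        rw [map_div₀, map_mul, map_pow, h3, map_ofNat]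
      rw [h2, h4, mul_add, ← map_mul io]
    unfold AF
    rw [Finset.sum_congr rfl h1, Finset.sum_add_distrib, ← map_sum io, hsum]
    unfold perA
    push_cast
    ring
  · refine hfix _ fun τ hτ => ?_
    obtain ⟨e, he⟩ := (hE1 n t (3 * f) (three_f hFM.toFok) (d15 hFM.toFok)).1 τ hτ
    have hfe : FB f e := fb_psi he
    obtain ⟨h1, h2⟩ := G5 σ hσ f (Or.inl rfl) (β₀ * x) hxK
    have h3 := sum_mulF hfp (Dvd.intro_left 3 rfl) hR hFR hfe (fun b' => σ b' (β₀ * x)) h1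
    unfold perA
    rw [map_sum, ← hx, ← h3]
    exact Finset.sum_congr rfl fun b' hb' => (h2 τ hτ e he b' (hFR b' hb')).1
  · intro Q hQ
    have := hQ.1.1
    refine DI.VP.sum _ _ fun b' hb' => ?_
    rw [map_mul, map_sub]
    have hm := hσ.mem b' (hFR b' hb')
    exact (hβV Q hQ _ hm).mul ((Y2 Q hQ _ hm).sub (Z2 Q hQ _ hm))

end Pool.Agent.DM.F
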