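import Pool.Agent.Lib.DM.F.TWs
import Pool.Agent.Lib.DI.F.PsiExp
import Pool.Agent.Lib.DI.F.F3core

/-!
# Theorem DM (`p = 3`), part F: the expansion of `q F(u(q))`, `F(u)³ = y(u) - lam x(u) - nu` (generic), author helper79

`x = ℘`, `y = ℘'/2` for a period pair `Λ` whose invariants are algebraic; `u(q)` a power series with algebraic
coefficients, `u(0) = 0`, `u'(0) ≠ 0`; `F` meromorphic at `0`.
-/

set_option autoImplicit false

open scoped Topology
open Filter

noncomputable section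

namespace Pool.Agent.DM.F

open Pool.Agent.MuZ NumberField
open Pool.Agent.DI (io ofC io_inj exists_io io_ofC ofC_io VP MP UP TP ex)
open Pool.Agent.DI.F (tay Co Cf P0 P1)
open Pool.Agent.DI.F.PsiExpAux (pmap_inj der_map lift)

private theorem c3_mul (K : Subfield ℂ) (p q : PowerSeries ℂ) (hp : Cf K p) (hq : Cf K q) :
    Cf K (p * q) := by
  intro n
  rw [PowerSeries.coeff_mul]
  exact K.sum_mem fun x _ => K.mul_mem (hp _) (hq _)

/-- Cube roots of power series. -/
theorem cub_root (K : Subfield ℂ) (p : PowerSeries ℂ) (h0 : PowerSeries.coeff 0 p ∈ K)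
    (hne : PowerSeries.coeff 0 p ≠ 0) (hC : Cf K (p ^ 3)) : Cf K p := by
  intro n
  induction n using Nat.strong_induction_on with
  | _ n ih =>
    rcases Nat.eq_zero_or_pos n with hn | hn
    · rw [hn]
      exact h0
    · let T : PowerSeries ℂ := PowerSeries.mk fun m => if m < n then PowerSeries.coeff m p else 0
      have hT : Cf K T := by
        intro m
        rw [PowerSeries.coeff_mk]
        split_ifs with h
        · exact ih m h
        · exact K.zero_mem
      obtain ⟨S, hS⟩ : (PowerSeries.X : PowerSeries ℂ) ^ n ∣ p - T := by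
        rw [PowerSeries.X_pow_dvd_iff]
        intro m hm
        rw [map_sub, PowerSeries.coeff_mk, if_pos hm, sub_self]
      have hS0 : PowerSeries.coeff 0 S = PowerSeries.coeff n p := by
        have h1 := congrArg (PowerSeries.coeff n) hS
        rw [map_sub, PowerSeries.coeff_mk, if_neg (lt_irrefl n), sub_zero] at h1
        have h2 := PowerSeries.coeff_X_pow_mul S n 0
        rw [zero_add] at h2
        rw [← h2, ← h1]
      have hT0 : PowerSeries.coeff 0 T = PowerSeries.coeff 0 p := by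
        rw [PowerSeries.coeff_mk, if_pos hn]
      have h3 : p ^ 3 = T * T * T + PowerSeries.X ^ n * (3 * (T * T * S) +
          PowerSeries.X ^ n * (3 * (T * S * S) + PowerSeries.X ^ n * (S * S * S))) := by
        have h4 : p = T + PowerSeries.X ^ n * S := by rw [← hS]; ring
        rw [h4]
        ring
      have h5 : PowerSeries.coeff n (p ^ 3) = PowerSeries.coeff n (T * T * T) +
          3 * (PowerSeries.coeff 0 p * PowerSeries.coeff 0 p * PowerSeries.coeff n p) := by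
        have h6 := PowerSeries.coeff_X_pow_mul (3 * (T * T * S) + PowerSeries.X ^ n *
          (3 * (T * S * S) + PowerSeries.X ^ n * (S * S * S))) n 0
        rw [zero_add] at h6
        rw [h3, map_add, h6]
        congr 1
        obtain ⟨n', rfl⟩ : ∃ n', n = n' + 1 := ⟨n - 1, by omega⟩
        rw [PowerSeries.coeff_zero_eq_constantCoeff_apply, map_add, map_mul, map_mul, map_mul,
          map_mul, map_pow, PowerSeries.constantCoeff_X, zero_pow (Nat.succ_ne_zero n'),
          zero_mul, add_zero, map_ofNat, ← PowerSeries.coeff_zero_eq_constantCoeff_apply,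
          ← PowerSeries.coeff_zero_eq_constantCoeff_apply, hT0, hS0]
      have h7 : PowerSeries.coeff n p = (PowerSeries.coeff n (p ^ 3) -
          PowerSeries.coeff n (T * T * T)) /
            (3 * (PowerSeries.coeff 0 p * PowerSeries.coeff 0 p)) := by
        rw [h5]
        field_simp
        ring
      rw [h7]
      exact K.div_mem (K.sub_mem (hC n) (c3_mul K _ _ (c3_mul K _ _ hT hT) hT n))
        (K.mul_mem (ofNat_mem K 3) (K.mul_mem h0 h0))

private theorem c3_twr {a b : Om} {u T W : PowerSeries Om}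
    (h : _root_.DM.F4.TWr (io a) (io b) (PowerSeries.map io u) (PowerSeries.map io T)
      (PowerSeries.map io W)) : _root_.DM.F4.TWr a b u T W := by
  refine ⟨?_, ?_, ?_, ?_, ?_⟩
  · apply pmap_inj
    have := h.curve
    simp only [map_add, map_mul, map_pow, PowerSeries.map_C]
    exact this
  · apply pmap_inj
    have := h.diff
    rw [der_map, der_map, der_map] at this
    simp only [map_sub, map_mul, map_neg, map_ofNat]
    exact this
  · have := h.T0
    rw [PowerSeries.coeff_map] at this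
    exact io_inj (by rw [this, map_zero])
  · have := h.T1
    rw [PowerSeries.coeff_map, PowerSeries.coeff_map] at this
    exact io_inj this
  · have := h.W0
    rw [PowerSeries.coeff_map] at this
    exact io_inj (by rw [this, map_zero])

/-- A meromorphic cube root is analytic. -/
private theorem c3_mer {F E : ℂ → ℂ} (hF : MeromorphicAt F 0) (hE : AnalyticAt ℂ E 0)
    (hE0 : E 0 ≠ 0) (h : ∀ᶠ u in 𝓝[≠] (0 : ℂ), F u ^ 3 = E u) :
    ∃ g : ℂ → ℂ, AnalyticAt ℂ g 0 ∧ g 0 ≠ 0 ∧ ∀ᶠ u in 𝓝[≠] (0 : ℂ), F u = g u := by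
  have hcongr : (F ^ 3) =ᶠ[𝓝[≠] (0 : ℂ)] E := h
  have h1 : meromorphicOrderAt (F ^ 3) 0 = ((0 : ℤ) : WithTop ℤ) := by
    rw [meromorphicOrderAt_congr hcongr, meromorphicOrderAt_eq_int_iff hE.meromorphicAt]
    refine ⟨E, hE, hE0, Filter.Eventually.of_forall fun z => ?_⟩
    rw [zpow_zero, one_smul]
  rw [meromorphicOrderAt_pow hF] at h1
  have h2 : meromorphicOrderAt F 0 = ((0 : ℤ) : WithTop ℤ) := by
    cases ho : meromorphicOrderAt F 0 with
    | top =>
      rw [ho] at h1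
      exact absurd h1 (by decide)
    | coe n =>
      rw [ho] at h1
      have h3 : ((3 * n : ℤ) : WithTop ℤ) = ((0 : ℤ) : WithTop ℤ) := h1
      have h4 : 3 * n = 0 := WithTop.coe_injective h3
      have h5 : n = 0 := by omega
      rw [h5]
  obtain ⟨g, hg, hg0, hFg⟩ := (meromorphicOrderAt_eq_int_iff hF).1 h2
  refine ⟨g, hg, hg0, ?_⟩
  filter_upwards [hFg] with z hz
  rw [hz, zpow_zero, one_smul]

/-- Numbers: `u³ (y - lam x - nu)`, `x = T/W`, `y = -1/W`, `T = u t`, `W = u³ w`. -/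
private theorem c3_num {u T W t w l m : ℂ} (hu : u ≠ 0) (hT : T = u * t) (hW : W = u ^ 3 * w)
    (hw : w ≠ 0) : u ^ 3 * (-1 / W - l * (T / W) - m) =
      -((1 + l * (u * t) + m * (u * u * u * w)) * w⁻¹) := by
  rw [hT, hW]
  field_simp
  ring

/-- **The expansion.** -/
theorem core3 (Λ : PeriodPair) (L0 : IntermediateField ℚ Om) (hL0 : FiniteDimensional ℚ L0)
    (a b lam nu : Om) (aL : a ∈ L0) (bL : b ∈ L0) (lL : lam ∈ L0) (nL : nu ∈ L0)
    (ha : io a = -Λ.g₂ / 4) (hb : io b = -Λ.g₃ / 4) (F : ℂ → ℂ) (hF : MeromorphicAt F 0)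
    (hFc : ∀ᶠ u in 𝓝[≠] (0 : ℂ), F u ^ 3 =
      Λ.derivWeierstrassP u / 2 - io lam * Λ.weierstrassP u - io nu)
    (uC : ℂ → ℂ) (cA0 : Co (L0.toSubfield.map io) uC) (zA : uC 0 = 0) (dA : deriv uC 0 ≠ 0)
    (U : PowerSeries Om) (tA : tay uC = PowerSeries.map io U) :
    ∃ (T W ψ : PowerSeries Om) (L : IntermediateField ℚ Om) (ε : ℝ), FiniteDimensional ℚ L ∧
      0 < ε ∧ (∀ i, PowerSeries.coeff i ψ ∈ L) ∧ _root_.DM.F4.TWr a b U T W ∧
      ψ ^ 3 * W = -(PowerSeries.X ^ 3 * (1 + PowerSeries.C lam * T + PowerSeries.C nu * W)) ∧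
      ∀ q : ℂ, q ≠ 0 → ‖q‖ < ε →
        HasSum (fun i : ℕ => io (PowerSeries.coeff i ψ) * q ^ i) (q * F (uC q)) := by
  have hCo0 : Pool.Agent.DI.F.S_Co := Pool.Agent.DI.F.tCo Pool.Agent.DI.F.tTay
  obtain ⟨hT1, _, _, hTmul, ⟨hTc, hTX⟩, _, hTcongr⟩ := Pool.Agent.DI.F.tTay
  -- (1) the function `u F(u)`
  have m2 : Λ.g₂ ∈ L0.toSubfield.map io := by
    have e : Λ.g₂ = io (-4 * a) := by
      rw [map_mul, ha, map_neg, map_ofNat]
      ring
    rw [e]
    exact ⟨_, mul_mem (neg_mem (ofNat_mem L0 4)) aL, rfl⟩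
  have m3 : Λ.g₃ ∈ L0.toSubfield.map io := by
    have e : Λ.g₃ = io (-4 * b) := by
      rw [map_mul, hb, map_neg, map_ofNat]
      ring
    rw [e]
    exact ⟨_, mul_mem (neg_mem (ofNat_mem L0 4)) bL, rfl⟩
  -- in terms of the small field
  have hFm : MeromorphicAt (fun u : ℂ => u * F u) 0 := analyticAt_id.meromorphicAt.mul hF
  have lK0 : io lam ∈ L0.toSubfield.map io := ⟨_, lL, rfl⟩
  have nK0 : io nu ∈ L0.toSubfield.map io := ⟨_, nL, rfl⟩
  obtain ⟨hT0, hW0, -, -, ⟨tt, ww, htt, hww, htt0, hww0, hTt, hWw⟩, hTWn⟩ :=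
    tTWs Λ (L0.toSubfield.map io) m2 m3
  have hEC0 : Co (L0.toSubfield.map io) (fun u : ℂ =>
      -((1 + io lam * (u * tt u) + io nu * (u * u * u * ww u)) * (ww u)⁻¹)) := by
    obtain ⟨hc, har, _, hinv, -⟩ := hCo0 (L0.toSubfield.map io)
    have cid := hc.2
    exact (har _ _ (har _ _ (har _ _ (har _ _ (hc.1 1 (one_mem _))
      (har _ _ (hc.1 _ lK0) (har _ _ cid htt).2.1).2.1).1
      (har _ _ (hc.1 _ nK0) (har _ _ (har _ _ (har _ _ cid cid).2.1 cid).2.1 hww).2.1).2.1).1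
      (hinv _ hww (by rw [hww0]; exact one_ne_zero))).2.1 htt).2.2.2
  have hE0 : -((1 + io lam * (0 * tt 0) + io nu * (0 * 0 * 0 * ww 0)) * (ww 0)⁻¹) = -1 := by
    rw [hww0]
    norm_num
  have hwne : ∀ᶠ u in 𝓝 (0 : ℂ), ww u ≠ 0 :=
    hww.1.continuousAt.eventually_ne (by rw [hww0]; exact one_ne_zero)
  have hcub : ∀ᶠ u in 𝓝[≠] (0 : ℂ), (u * F u) ^ 3 =
      -((1 + io lam * (u * tt u) + io nu * (u * u * u * ww u)) * (ww u)⁻¹) := by
    filter_upwards [hTWn, self_mem_nhdsWithin, hwne.filter_mono nhdsWithin_le_nhds, hFc]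
      with u hu hu0 hwu hc3
    obtain ⟨h1, h2, h3, h4⟩ := hu
    have hu0' : u ≠ 0 := hu0
    rw [mul_pow, hc3, h3, h4]
    exact c3_num hu0' (hTt u) (hWw u) hwu
  obtain ⟨g, hga, hg0, hFg⟩ := c3_mer hFm hEC0.1 (by rw [hE0]; norm_num) hcub
  have hg3 : g 0 ^ 3 = -1 := by
    have hev : (fun u => g u ^ 3) =ᶠ[𝓝 0] (fun u =>
        -((1 + io lam * (u * tt u) + io nu * (u * u * u * ww u)) * (ww u)⁻¹)) := by
      refine (ContinuousAt.eventuallyEq_nhds_iff_eventuallyEq_nhdsNE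
        (hga.pow 3).continuousAt hEC0.1.continuousAt).1 ?_
      filter_upwards [hFg, hcub] with u h1 h2
      simp only [Pi.pow_apply]
      rw [← h1, h2]
    have h1 := hev.self_of_nhds
    rw [← hE0]
    exact h1
  -- (2) the field
  obtain ⟨ρ, hρ⟩ : ∃ ρ : Om, io ρ = g 0 := by
    apply exists_io
    refine ⟨Polynomial.X ^ 3 + 1, ?_, ?_⟩
    · intro h
      have h1 := congrArg (Polynomial.coeff · 0) h
      simp at h1
    · simp [hg3]
  let S0 : Set Om := {ρ}
  have hfd1 : FiniteDimensional ℚ (IntermediateField.adjoin ℚ S0) :=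
    IntermediateField.finiteDimensional_adjoin fun x _ => (Algebra.IsAlgebraic.isAlgebraic x).isIntegral
  obtain ⟨L, hL⟩ : ∃ L : IntermediateField ℚ Om, L = L0 ⊔ IntermediateField.adjoin ℚ S0 := ⟨_, rfl⟩
  have hLfd : FiniteDimensional ℚ L := by
    rw [hL]
    exact IntermediateField.finiteDimensional_sup _ _
  have hL0L : L0 ≤ L := by
    rw [hL]
    exact le_sup_left
  have hρL : ρ ∈ L := by
    rw [hL]
    exact (le_sup_right : IntermediateField.adjoin ℚ S0 ≤ _)
      (IntermediateField.subset_adjoin ℚ S0 rfl)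
  set K : Subfield ℂ := L.toSubfield.map io with hK
  have up : ∀ {f : ℂ → ℂ}, Co (L0.toSubfield.map io) f → Co K f := by
    intro f hf
    refine ⟨hf.1, fun j => ?_⟩
    obtain ⟨y, hy, hy'⟩ := hf.2 j
    exact ⟨y, hL0L hy, hy'⟩
  have cA := up cA0
  have hEC := up hEC0
  have m2K : Λ.g₂ ∈ K := by
    obtain ⟨y, hy, hy'⟩ := m2
    exact ⟨y, hL0L hy, hy'⟩
  have m3K : Λ.g₃ ∈ K := by
    obtain ⟨y, hy, hy'⟩ := m3
    exact ⟨y, hL0L hy, hy'⟩
  obtain ⟨hc, har, _, hinv, hcomp, hsl, hcg⟩ := hCo0 K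
  obtain ⟨hTAk, hWAk, hrelA⟩ := tTWsc Λ K m2K m3K uC cA zA
  rw [← ha, ← hb] at hrelA
  obtain ⟨hnA, htA⟩ := Pool.Agent.DI.F.F3coreAux.near uC K hCo0 cA zA dA
  obtain ⟨haC, ha0, haq⟩ := hsl uC cA zA
  have hA0 : dslope uC 0 0 ≠ 0 := by
    rw [ha0]
    exact dA
  -- (3) the function `h`
  have agA : AnalyticAt ℂ (fun q => g (uC q)) 0 := hga.fun_comp_of_eq cA.1 zA
  have ah : AnalyticAt ℂ (fun q => g (uC q) * (dslope uC 0 q)⁻¹) 0 :=
    agA.mul (haC.1.fun_inv hA0)
  obtain ⟨h, hh⟩ : ∃ h : ℂ → ℂ, h = fun q => g (uC q) * (dslope uC 0 q)⁻¹ := ⟨_, rfl⟩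
  rw [← hh] at ah
  have hhq : ∀ᶠ q in 𝓝[≠] (0 : ℂ), h q = q * F (uC q) := by
    filter_upwards [hnA, htA.eventually hFg] with q h1 h2
    rw [hh]
    simp only
    rw [← h2]
    have h3 := haq q
    obtain ⟨b1, b2, b3⟩ := h1
    generalize dslope uC 0 q = d at b2 h3
    rw [h3]
    field_simp
  -- (4) the cube of `h`
  have hECc := hcomp _ uC hEC cA zA
  have hDi := hinv _ haC hA0
  have hE := (har _ _ (har _ _ ((har _ _ hECc hDi).2.1) hDi).2.1 hDi).2.1
  have hh2 : ∀ᶠ q in 𝓝[≠] (0 : ℂ), h q * h q * h q =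
      -((1 + io lam * (uC q * tt (uC q)) + io nu * (uC q * uC q * uC q * ww (uC q))) *
        (ww (uC q))⁻¹) * (dslope uC 0 q)⁻¹ * (dslope uC 0 q)⁻¹ * (dslope uC 0 q)⁻¹ := by
    filter_upwards [htA.eventually hFg, htA.eventually hcub] with q h2 h3
    have h5 : g (uC q) ^ 3 = -((1 + io lam * (uC q * tt (uC q)) +
        io nu * (uC q * uC q * uC q * ww (uC q))) * (ww (uC q))⁻¹) := by
      rw [← h2]
      exact h3
    rw [hh, ← h5]
    simp only
    ring
  have ahh : AnalyticAt ℂ (fun q => h q * h q * h q) 0 := (ah.mul ah).mul ah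
  have hev : (fun q => h q * h q * h q) =ᶠ[𝓝 0]
      (fun q => -((1 + io lam * (uC q * tt (uC q)) + io nu * (uC q * uC q * uC q * ww (uC q))) *
        (ww (uC q))⁻¹) * (dslope uC 0 q)⁻¹ * (dslope uC 0 q)⁻¹ * (dslope uC 0 q)⁻¹) :=
    (ContinuousAt.eventuallyEq_nhds_iff_eventuallyEq_nhdsNE ahh.continuousAt
      hE.1.continuousAt).1 hh2
  have htay2 : tay (fun q => h q * h q * h q) = tay h ^ 3 := by
    rw [hTmul (fun q => h q * h q) h (ah.mul ah) ah, hTmul h h ah ah]
    ring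
  have hCf2 : Cf K (tay h ^ 3) := by
    rw [← htay2, hTcongr _ _ hev]
    exact hE.2
  -- the relation with `W`
  have hrelH : tay h ^ 3 * tay (fun q => Ws Λ (uC q)) =
      -(PowerSeries.X ^ 3 * (1 + PowerSeries.C (io lam) * tay (fun q => Ts Λ (uC q)) +
        PowerSeries.C (io nu) * tay (fun q => Ws Λ (uC q)))) := by
    have h1 : (fun q => h q * h q * h q * Ws Λ (uC q)) =ᶠ[𝓝 0]
        (fun q => (-1 : ℂ) * (q * q * q) * (1 + (io lam * Ts Λ (uC q) + io nu * Ws Λ (uC q)))) := by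
      have hwn : ∀ᶠ q in 𝓝 (0 : ℂ), ww (uC q) ≠ 0 := by
        refine (hcomp _ uC (up hww) cA zA).1.continuousAt.eventually_ne ?_
        rw [zA, hww0]
        exact one_ne_zero
      have hdn : ∀ᶠ q in 𝓝 (0 : ℂ), dslope uC 0 q ≠ 0 := haC.1.continuousAt.eventually_ne hA0
      filter_upwards [hev, hwn, hdn] with q h1 h2 h3
      rw [h1, hWw (uC q), hTt (uC q)]
      have h4 := haq q
      generalize dslope uC 0 q = d at h3 h4
      generalize ww (uC q) = w at h2
      generalize tt (uC q) = t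
      rw [h4]
      field_simp
      ring
    have h2 := hTcongr _ _ h1
    have aq : AnalyticAt ℂ (fun q : ℂ => q) 0 := analyticAt_id
    have aW := hWAk.1
    have aT := hTAk.1
    have hTadd := Pool.Agent.DI.F.tTay.2.2.1
    rw [hTmul (fun q => h q * h q * h q) (fun q => Ws Λ (uC q)) ahh aW,
      htay2, hTmul (fun q => (-1 : ℂ) * (q * q * q))
        (fun q => 1 + (io lam * Ts Λ (uC q) + io nu * Ws Λ (uC q)))
        (analyticAt_const.mul ((aq.mul aq).mul aq))
        (analyticAt_const.add ((analyticAt_const.mul aT).add (analyticAt_const.mul aW))),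
      hTmul (fun _ => (-1 : ℂ)) (fun q => q * q * q) analyticAt_const ((aq.mul aq).mul aq),
      hTmul (fun q => q * q) (fun q => q) (aq.mul aq) aq,
      hTmul (fun q => q) (fun q => q) aq aq,
      hTadd (fun _ => (1 : ℂ)) (fun q => io lam * Ts Λ (uC q) + io nu * Ws Λ (uC q))
        analyticAt_const ((analyticAt_const.mul aT).add (analyticAt_const.mul aW)),
      hTadd (fun q => io lam * Ts Λ (uC q)) (fun q => io nu * Ws Λ (uC q))
        (analyticAt_const.mul aT) (analyticAt_const.mul aW),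
      hTmul (fun _ => io lam) (fun q => Ts Λ (uC q)) analyticAt_const aT,
      hTmul (fun _ => io nu) (fun q => Ws Λ (uC q)) analyticAt_const aW,
      hTc, hTc, hTc, hTc, hTX, map_neg, map_one] at h2
    rw [h2]
    ring
  -- (5) the coefficients
  have hc0 : PowerSeries.coeff 0 (tay h) = h 0 := Pool.Agent.DI.F.F3coreAux.coeff_zero_tay h
  have hdK : dslope uC 0 0 ∈ K := by
    have h1 := haC.2 0
    rwa [Pool.Agent.DI.F.F3coreAux.coeff_zero_tay] at h1
  have hh0 : h 0 = g 0 * (dslope uC 0 0)⁻¹ := by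
    rw [hh]
    simp only
    rw [zA]
  have hh0K : h 0 ∈ K := by
    rw [hh0, ← hρ]
    exact K.mul_mem ⟨ρ, hρL, rfl⟩ (K.inv_mem hdK)
  have hCfh : Cf K (tay h) := by
    refine cub_root K _ ?_ ?_ hCf2
    · rw [hc0]
      exact hh0K
    · rw [hc0, hh0]
      exact mul_ne_zero hg0 (inv_ne_zero hA0)
  -- (6) the lift
  obtain ⟨T', -, hT'⟩ := lift L _ hTAk.2
  obtain ⟨W', -, hW'⟩ := lift L _ hWAk.2
  obtain ⟨H', lH, hH'⟩ := lift L _ hCfh
  rw [← hT', ← hW', tA] at hrelA
  rw [← hW', ← hH', ← hT'] at hrelH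
  rw [eventually_nhdsWithin_iff, Metric.eventually_nhds_iff] at hhq
  obtain ⟨ε, hε, hhq⟩ := hhq
  have hHS := hT1 h ah
  rw [← hH', Metric.eventually_nhds_iff] at hHS
  obtain ⟨ε', hε', hHS⟩ := hHS
  refine ⟨T', W', H', L, min ε ε', hLfd, lt_min hε hε', lH, c3_twr hrelA, ?_, ?_⟩
  · apply pmap_inj
    rw [map_mul, map_pow, hrelH]
    simp only [map_mul, map_pow, map_neg, map_add, map_one, PowerSeries.map_X, PowerSeries.map_C]
  · intro q hq hqε
    have h1 := hhq (y := q) (by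
      rw [dist_zero_right]
      exact lt_of_lt_of_le hqε (min_le_left _ _)) hq
    have h2 := hHS (y := q) (by
      rw [dist_zero_right]
      exact lt_of_lt_of_le hqε (min_le_right _ _))
    rw [h1] at h2
    simp only [PowerSeries.coeff_map] at h2
    exact h2

end Pool.Agent.DM.F
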