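import Pool.Agent.Lib.DM.F.LaF
import Pool.Agent.Lib.DM.F.Core3

/-!
# Theorem DM, part F, module PsE: the expansion of `Ψ = (DN.fr(1)/fr(1)) G(C/3)`
-/

set_option autoImplicit false

open scoped Pointwise Topology MatrixGroups
open Filter

noncomputable section

namespace Pool.Agent.DM.F

open Pool.Agent.MuZ Pool.Agent.FW NumberField IsDedekindDomain Pool.Agent.DN Pool.Agent.DN.F
open Pool.Agent.DI (io ofC io_inj exists_io io_ofC ofC_io VP MP UP TP ex)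
open Pool.Agent.DI.F (tay Co Cf P0 P1)
open Pool.Agent.DI.F.PsiExpAux (pmap_inj der_map lift norm_ex ex_ne)

/-- The bound for the imaginary part. -/
private theorem PsE_bound {ε : ℝ} (hε : 0 < ε) : ∃ Y : ℝ, 0 ≤ Y ∧ ∀ z : ℂ, Y < z.im → ‖ex z‖ < ε := by
  refine ⟨max 0 (-Real.log ε / (2 * Real.pi)), le_max_left _ _, fun z hz => ?_⟩
  have h1 : -Real.log ε / (2 * Real.pi) < z.im := lt_of_le_of_lt (le_max_right _ _) hz
  rw [div_lt_iff₀ (by positivity)] at h1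
  rw [norm_ex, ← Real.exp_log hε, Real.exp_lt_exp]
  linarith

/-- Numbers. -/
private theorem PsE_num {F φ W X a1 a3 wd wp w2 d p : ℂ} (hF : F ≠ 0) (hφ : φ ≠ 0) (hd : d ≠ 0)
    (hW : W = wd / F ^ 3) (hX : X = (wp - p) / F ^ 2) (h1 : a1 = w2 / (d * F)) (h3 : a3 = d / F ^ 3) :
    (F / φ) ^ 3 * ((W - a1 * X - a3) / 2) =
      wd / φ ^ 3 / 2 - w2 / (2 * d * φ) * (wp / φ ^ 2) - (d - w2 * p / d) / (2 * φ ^ 3) := by
  rw [hW, hX, h1, h3]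
  field_simp
  ring

/-- The cube of `Ψ`. -/
theorem PsE_cub (hB1 : S_B1) (hR1 : S_R1) (n t : ℕ) [SqN n t] {G : ℂ → ℂ} (hG : Gt3.IsG3 n t G)
    {v : ℂ} (hv : v ∉ Lam (⊤ : Ideal (OO n t))) :
    (DN.fr (⊤ : Ideal (OO n t)) / fr (⊤ : Ideal (OO n t)) * G (v / 3)) ^ 3 =
      wdC (⊤ : Ideal (OO n t)) v / fr (⊤ : Ideal (OO n t)) ^ 3 / 2 - io (lamO n t) *
        (wpC (⊤ : Ideal (OO n t)) v / fr (⊤ : Ideal (OO n t)) ^ 2) - io (nuO n t) := by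
  obtain ⟨hφ, -, -, -, -, hl, hn⟩ := tan_io hB1 hR1 n t
  obtain ⟨-, -, -, -, -, b6⟩ := DN.aB1 n t (⊤ : Ideal (OO n t)) Eb.ne_top
  obtain ⟨hF, -⟩ := b6 (Eb.pri_top 15)
  have e3 : 3 * (v / 3) = v := by ring
  have h3 : 3 * (v / 3) ∉ Lam (⊤ : Ideal (OO n t)) := by
    rw [e3]
    exact hv
  rw [mul_pow, hG.cub _ h3, e3, hl, hn]
  exact PsE_num hF hφ (wd3_ne n t) rfl rfl rfl rfl

/-- **The expansion of `Ψ`.** -/
theorem tPsE (hKf : S_Kf) (hLead : S_Lead) (hB1 : S_B1) (hB7 : S_B7) (hR1 : S_R1) : S_PsE := by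
  intro n t _ f m R hm hFR hRC σ hσ c hc s N0 β hβ h1ne G hG
  -- the field
  obtain ⟨kfin, -⟩ := (hKf n t f hm.toFok).1 (3 * f) (Or.inr rfl)
  obtain ⟨l1, -⟩ := hLead n t f m R hm hFR hRC σ hσ N0 β hβ
  let S0 : Set Om := {a4O n t, a6O n t, lamO n t, nuO n t}
  have : FiniteDimensional ℚ (IntermediateField.adjoin ℚ S0) :=
    IntermediateField.finiteDimensional_adjoin fun x _ => (Algebra.IsAlgebraic.isAlgebraic x).isIntegral
  obtain ⟨L, hLe⟩ : ∃ L : IntermediateField ℚ Om, L = Kf n t f (3 * f) ⊔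
    ((Kf n t f (3 * f)).map (c : Om →ₐ[ℚ] Om) ⊔ IntermediateField.adjoin ℚ S0) := ⟨_, rfl⟩
  have hLfd : FiniteDimensional ℚ L := by
    rw [hLe]
    infer_instance
  have hK2 : Kf n t f (3 * f) ≤ L := by
    rw [hLe]
    exact le_sup_left
  have hK3 : (Kf n t f (3 * f)).map (c : Om →ₐ[ℚ] Om) ≤ L := by
    rw [hLe]
    exact le_sup_left.trans le_sup_right
  have hK4 : ∀ x ∈ S0, x ∈ L := by
    intro x hx
    rw [hLe]
    exact (le_sup_right.trans le_sup_right : IntermediateField.adjoin ℚ S0 ≤ _)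
      (IntermediateField.subset_adjoin ℚ S0 hx)
  have hcL : ∀ j, cF f s m R σ c N0 β j ∈ L := by
    intro j
    unfold cF
    exact sub_mem (hK2 (l1 j)) (mul_mem (intCast_mem _ _) (hK3 ⟨_, l1 j, rfl⟩))
  obtain ⟨hφ, Λ, h4, h6, hLat, hX⟩ := tLaF hB1 hR1 n t
  obtain ⟨uA, cA, zA, dA, tA, eA⟩ := tuC hLead hB7 n t f m R hm hFR hRC σ hσ c hc s N0 β hβ h1ne L hcL
  obtain ⟨φ, hφe⟩ : ∃ φ, φ = fr (⊤ : Ideal (OO n t)) := ⟨_, rfl⟩
  obtain ⟨κ, hκe⟩ : ∃ κ, κ = DN.fr (⊤ : Ideal (OO n t)) / φ := ⟨_, rfl⟩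
  have hcub : ∀ v : ℂ, v ∉ Lam (⊤ : Ideal (OO n t)) → (κ * G (v / 3)) ^ 3 =
      Λ.derivWeierstrassP (φ * v) / 2 - io (lamO n t) * Λ.weierstrassP (φ * v) - io (nuO n t) := by
    intro v hv
    rw [hκe, hφe, (hX v).1, (hX v).2]
    exact PsE_cub hB1 hR1 n t hG hv
  rw [← hφe] at hφ hLat eA
  have hFm : MeromorphicAt (fun u : ℂ => κ * G (u / (3 * φ))) 0 := by
    have h1 : AnalyticAt ℂ (fun u : ℂ => u / (3 * φ)) 0 := analyticAt_id.div_const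
    exact (MeromorphicAt.const _ _).mul ((hG.mer _).comp_analyticAt h1)
  have hFc : ∀ᶠ u in 𝓝[≠] (0 : ℂ), (κ * G (u / (3 * φ))) ^ 3 =
      Λ.derivWeierstrassP u / 2 - io (lamO n t) * Λ.weierstrassP u - io (nuO n t) := by
    obtain ⟨-, -, -, -, -, h⟩ := tTWs Λ ⊤ (Subfield.mem_top _) (Subfield.mem_top _)
    filter_upwards [h] with u hu
    have h1 : u / φ ∉ Lam (⊤ : Ideal (OO n t)) := by
      rw [hLat, mul_div_cancel₀ _ hφ]
      exact hu.1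
    have h2 := hcub _ h1
    have e : u / φ / 3 = u / (3 * φ) := by
      rw [div_div, mul_comm]
    rw [e, mul_div_cancel₀ _ hφ] at h2
    exact h2
  obtain ⟨T, W, ψ, L', ε, hL'fd, hε, hψL, hTW, hrel, hsum⟩ := core3 Λ L hLfd (a4O n t) (a6O n t)
    (lamO n t) (nuO n t) (hK4 _ (by simp [S0])) (hK4 _ (by simp [S0])) (hK4 _ (by simp [S0]))
    (hK4 _ (by simp [S0])) h4 h6 (fun u => κ * G (u / (3 * φ))) hFm hFc uA cA zA dA _ tA
  obtain ⟨Y, hY0, hYb⟩ := PsE_bound hε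
  refine ⟨T, W, ψ, Y, 1, L', hL'fd, hψL, hTW, hrel, fun z hz => ?_⟩
  have hz0 : 0 < z.im := lt_of_le_of_lt hY0 hz
  have h2 := hsum (ex z) (ex_ne z) (hYb z hz)
  have h3 : ex z * (κ * G (uA (ex z) / (3 * φ))) = ex z ^ 1 * PsF G f s m R σ N0 β z := by
    rw [eA z hz0, pow_one]
    unfold PsF
    rw [hκe, hφe]
    congr 3
    rw [← hφe]
    field_simp
  rw [h3] at h2
  exact h2

end Pool.Agent.DM.F
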