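import Pool.Agent.Lib.DM.F.SpecA

/-!
# Theorem DM, part F, module Sm: the sums with `χ`
-/

set_option autoImplicit false

open scoped Pointwise

noncomputable section

namespace Pool.Agent.DM.F

open Pool.Agent.MuZ Pool.Agent.FW NumberField IsDedekindDomain Pool.Agent.DN Pool.Agent.DN.F
open Pool.Agent.DI (io ofC io_inj exists_io io_ofC ofC_io VP MP UP TP ex)

theorem tSm (hYE : S_YE) (hGc : S_Gc) (hKap : S_Kap) : S_Sm := by
  intro n t _ f M k e m R hm hFR hRC hlv χ hχ P hP hk hTy σ hσ s hs0 a b c d hG hd9 hxs τ hτ a' ha'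
  have hPr : P.IsPrime := hP.1.1
  have hf := hm.toFok
  have hd : (M : ℤ) ∣ d - 1 := dvd_trans ⟨9, by ring⟩ hd9
  have hfp : 0 < f := f_pos hf
  obtain ⟨g1, -, -, g4, g5⟩ := hGc n t f hf
  obtain ⟨p1, p2, p3⟩ := hKap n t f k hf χ hχ P hP hk hTy
  have htop : FB f (⊤ : Ideal (OO n t)) := fb_top f
  have hfa : FB f a' := fb_psi ha'
  have hr1 : ∀ b : Ideal (OO n t), FB f b → UP P (rO ⊤ b) := by
    intro b hb
    have h := (g4 b hb).2.2.1 ⊤ htop P hP
    rwa [Ideal.mul_top] at h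
  -- the three arguments
  have d1 : ((3 * b : ℚ) / d).den.Coprime M := by
    have h := den_cop (b := 3 * b) hd (dvd_refl _)
    push_cast at h
    exact h
  have d2 : (-((3 * b : ℚ) / d)).den.Coprime M := by
    rw [Rat.neg_den]
    exact d1
  have d0 : (0 : ℚ).den.Coprime M := by
    rw [Rat.den_zero]
    exact Nat.coprime_one_left M
  obtain ⟨k1, v1, s1, t1⟩ := hYE n t f M k m R hm hFR hlv hk _ d1
  obtain ⟨k2, v2, s2, t2⟩ := hYE n t f M k m R hm hFR hlv hk _ d2
  obtain ⟨k0, v0, s0, t0⟩ := hYE n t f M k m R hm hFR hlv hk _ d0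
  obtain ⟨w, hw⟩ : ∃ w : Om, w = wg f k s m b d := ⟨_, rfl⟩
  rw [← hw]
  have hwK : w ∈ Kf n t f f := by
    rw [hw]
    have h2 : (s : Om) ∈ Kf n t f f := intCast_mem (Kf n t f f) s
    exact add_mem (sub_mem k1 k0) (mul_mem h2 (sub_mem k2 k0))
  have hwV : ∀ b' : Ideal (OO n t), FB f b' → VP P (σ b' w) := by
    intro b' hb'
    rw [hw]
    unfold wg
    rw [map_add, map_sub, map_mul, map_intCast, map_sub]
    have hs := hσ.mem b' hb'
    exact DI.VP.add (DI.VP.sub (v1 P hP _ hs) (v0 P hP _ hs))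
      (DI.VP.mul (DI.VP.int s) (DI.VP.sub (v2 P hP _ hs) (v0 P hP _ hs)))
  -- the first sum
  have hS1 : MP P (∑ b' ∈ R, kpp k χ b' * σ b' w) := by
    have e : ∑ b' ∈ R, kpp k χ b' * σ b' w =
        (xs P f k e m R χ (3 * b / d) - xs P f k e m R χ 0) +
        ∑ b' ∈ R, χ b' * rO ⊤ b' * ((kp b' / w8) ^ k)⁻¹ *
          (((yE f k m b' (3 * b / d) - (kp b' / w8) ^ k * (w8 ^ k / 3 * etE P f k m b' (3 * b / d))) -
              (yE f k m b' 0 - (kp b' / w8) ^ k * (w8 ^ k / 3 * etE P f k m b' 0))) +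
            s * ((yE f k m b' (-(3 * b / d)) -
                (kp b' / w8) ^ k * (w8 ^ k / 3 * etE P f k m b' (-(3 * b / d)))) -
              (yE f k m b' 0 - (kp b' / w8) ^ k * (w8 ^ k / 3 * etE P f k m b' 0)))) := by
      have hse : ((-1 : Om)) ^ e = (s : Om) := by
        rw [hs0]
        push_cast
        rfl
      unfold xs
      rw [hse, neg_zero]
      unfold xw
      rw [Finset.mul_sum, Finset.mul_sum, Finset.mul_sum, Finset.mul_sum, ← Finset.sum_add_distrib,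
        Finset.mul_sum, ← Finset.sum_add_distrib, ← Finset.sum_sub_distrib, ← Finset.sum_add_distrib]
      refine Finset.sum_congr rfl fun b' hb' => ?_
      have hb := hFR b' hb'
      have hne : (kp b' / w8) ^ k ≠ 0 := by
        intro h0
        have h1 := (p1 b' hb).2.ne_zero
        unfold kpp at h1
        rw [h0, inv_zero, mul_zero] at h1
        exact h1 rfl
      have hs := hσ.mem b' hb
      have hp := hσ.psi b' hb
      rw [hw]
      unfold wg kpp
      rw [map_add, map_sub, map_mul, map_intCast, map_sub, s1 _ hs b' hp, s2 _ hs b' hp,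
        s0 _ hs b' hp]
      generalize (kp b' / w8) ^ k = X at *
      field_simp
      ring
    rw [e]
    refine DI.MP.add hxs (DI.MP.sum _ _ fun b' hb' => ?_)
    have hb := hFR b' hb'
    refine DI.MP.mul_left (p1 b' hb).2.1 ?_
    exact DI.MP.add (DI.MP.sub (t1 P hP b' hb').2 (t0 P hP b' hb').2)
      (DI.MP.mul_left (DI.VP.int s) (DI.MP.sub (t2 P hP b' hb').2 (t0 P hP b' hb').2))
  -- the class function
  have hcl : ∀ b1 b2 : Ideal (OO n t), FB f b1 → FB f b2 → Ray f b1 b2 →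
      MP P (kpp k χ b1 * σ b1 w - kpp k χ b2 * σ b2 w) := by
    intro b1 b2 hb1 hb2 hr
    rw [(g5 σ hσ f (Or.inl rfl) w hwK).1 b1 b2 hb1 hb2 hr, ← sub_mul]
    exact DI.MP.mul_right (p3 b1 b2 hb1 hb2 hr) (hwV b2 hb2)
  have hS2 : MP P (∑ b' ∈ R, kpp k χ (a' * b') * σ (a' * b') w) := by
    have h := sum_mulP hfp (Dvd.intro_left 3 rfl) hPr hRC hFR hfa
      (fun b' => kpp k χ b' * σ b' w) hcl
    have e : ∑ b' ∈ R, kpp k χ (a' * b') * σ (a' * b') w =
        (∑ b' ∈ R, kpp k χ (a' * b') * σ (a' * b') w - ∑ b' ∈ R, kpp k χ b' * σ b' w) +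
          ∑ b' ∈ R, kpp k χ b' * σ b' w := by ring
    rw [e]
    exact DI.MP.add h hS1
  have hS3 : MP P (χ a' * ∑ b' ∈ R, kpp k χ b' * σ b' (pk k (rO ⊤ a') * τ w)) := by
    have e : χ a' * ∑ b' ∈ R, kpp k χ b' * σ b' (pk k (rO ⊤ a') * τ w) =
        ∑ b' ∈ R, kpp k χ (a' * b') * σ (a' * b') w -
        ∑ b' ∈ R, (kpp k χ (a' * b') - χ a' * pk k (rO b' (a' * b')) * kpp k χ b') *
          σ (a' * b') w := by
      rw [Finset.mul_sum, ← Finset.sum_sub_distrib]
      refine Finset.sum_congr rfl fun b' hb' => ?_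
      have hb := hFR b' hb'
      have h1 : σ b' (rO ⊤ a') = rO b' (a' * b') := by
        have h := (g1 (σ b') (hσ.mem b' hb) b' (hσ.psi b' hb) ⊤ htop).2 a' hfa
        rw [Ideal.mul_top, mul_comm b' a'] at h
        exact h
      have h2 : σ b' (τ w) = σ (a' * b') w :=
        ((g5 σ hσ f (Or.inl rfl) w hwK).2 τ hτ a' ha' b' hb).2
      have h3 : σ b' (pk k (rO ⊤ a')) = pk k (rO b' (a' * b')) := by
        unfold pk
        rw [map_mul, map_pow, map_inv₀, h1]
      rw [map_mul, h3, h2]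
      ring
    rw [e]
    refine DI.MP.sub hS2 (DI.MP.sum _ _ fun b' hb' => ?_)
    have hb := hFR b' hb'
    exact DI.MP.mul_right (p2 a' b' hfa hb) (hwV _ (fb_mul hfa hb))
  have h7 := DI.MP.mul_left (p1 a' hfa).1.inv.1 hS3
  rwa [inv_mul_cancel_left₀ (p1 a' hfa).1.ne_zero] at h7

end Pool.Agent.DM.F
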