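import Pool.Agent.Lib.DM.F.Hm
import Pool.Agent.Lib.DM.F.Al
import Pool.Agent.Lib.DM.F.CoL
import Pool.Agent.Lib.DM.F.Has
import Pool.Agent.Lib.DM.F.V1a
import Pool.Agent.Lib.DM.F.V1b
import Pool.Agent.Lib.DM.F.Lead
import Pool.Agent.Lib.DM.F.Cus
import Pool.Agent.Lib.DM.F.PsG
import Pool.Agent.Lib.DM.F.PsE
import Pool.Agent.Lib.DM.F.FHm
import Pool.Agent.Lib.DM.F.KP
import Pool.Agent.Lib.DM.F.Od
import Pool.Agent.Lib.DM.F.TmF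
import Pool.Agent.Lib.DM.F.Gc
import Pool.Agent.Lib.DM.F.YE
import Pool.Agent.Lib.DM.F.Kap
import Pool.Agent.Lib.DM.F.Sm
import Pool.Agent.Lib.DM.F.Bet
import Pool.Agent.Lib.DM.F.Pa
import Pool.Agent.Lib.DM.F.Pb
import Pool.Agent.Lib.DM.F.F1
import Pool.Agent.Lib.DM.F.F2
import Pool.Agent.Lib.DM.F.Kf
import Pool.Agent.Lib.DM.F.Asm
import Pool.Agent.Lib.DM.E.All
import Pool.Agent.Lib.DS.D.AllE
import Pool.Agent.Lib.FW.G.Ine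

/-!
# Theorem DM (`p = 3`, `3` inert), part F: Proposition F (`S_F`) from the statements of the other parts (author helper79)

`xF`: from `S_C2`, `S_C3`, `S_C6`, `S_C7`, `S_C8`, `S_C11`, `S_Tm`, `S_Kp`, `S_R2`, `S_D2`, `S_E4a`; the parts B, R1, E and the global
theory are complete (`DM/E/All.lean`, `DS/E/AllA.lean`, `DS.zD1`).
-/

set_option autoImplicit false

noncomputable section

namespace Pool.Agent.DM.F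

open Pool.Agent.DN

/-- `S_Kf`. -/
theorem xKf (hE4a : S_E4a) : S_Kf :=
  tKf (gE1 DS.zD1) hE4a (DS.bE7 DS.zR1 (DS.gqB DS.zGQ) DS.zD1 (DS.zD3 DS.zD1))
    (DS.bE8 DS.zR1 (DS.gqB DS.zGQ) DS.zD1 (DS.zD3 DS.zD1))
    (DS.bCj DS.zR1 (DS.gqB DS.zGQ) DS.zD1 (DS.zD3 DS.zD1)) Pool.Agent.FW.tIne

/-- `S_Lead`. -/
theorem xLead (hC7 : S_C7) (hD2 : S_D2) (hKf : S_Kf) : S_Lead :=
  have hHm : S_Hm := tHm aB7 hC7
  have hAl : S_Al := tAl hC7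
  tLead zR1 hD2 hC7 (tCoL hKf (zE10 DS.zD1) zR1 hHm hAl) (tHas zR1 hC7 hAl) (tV1b hC7 (tV1a hC7))

/-- `S_Psi`. -/
theorem xPsi (hC3 : S_C3) (hC7 : S_C7) (hKf : S_Kf) (hLead : S_Lead) : S_Psi :=
  sPsi (tPsG hC7 (tCus hC3)) (tPsE hKf hLead aB1 aB7 zR1)

/-- `S_F1`. -/
theorem xF1 (hC2 : S_C2) (hC6 : S_C6) (hC8 : S_C8) (hC11 : S_C11) (hTm : S_Tm) (hKp : S_Kp)
    (hD2 : S_D2) (hKf : S_Kf) : S_F1 :=
  have hE1 : DS.S_E1 := gE1 DS.zD1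
  have hTF : S_TmF := tTmF hTm tOd
  have hGc : S_Gc := tGc hE1 (DS.bE7 DS.zR1 (DS.gqB DS.zGQ) DS.zD1 (DS.zD3 DS.zD1)) (zE10 DS.zD1)
    aB7 aB1 zR1 hD2 hKf
  have hYE : S_YE := tYE hC6 hC8 hC11 hTF hGc
  have hKap : S_Kap := tKap hKp tOd hGc
  have hPa : S_Pa := tPa hC2 hC6 hE1 hKf hTF hGc hYE
  tF1 hE1 hKf hKp tKP hGc hYE hKap (tSm hYE hGc hKap) (tBet hE1 hKf tKP hGc) (tPb tKP hPa)

/-- **Proposition F**, from the statements of the parts C, D, T, R2 and `S_E4a`. -/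
theorem xF (hC2 : S_C2) (hC3 : S_C3) (hC6 : S_C6) (hC7 : S_C7) (hC8 : S_C8) (hC11 : S_C11)
    (hTm : S_Tm) (hKp : S_Kp) (hR2 : S_R2) (hD2 : S_D2) (hE4a : S_E4a) : S_F :=
  have hKf : S_Kf := xKf hE4a
  have hLead : S_Lead := xLead hC7 hD2 hKf
  tAsm hKf (tF2 hKf (xF1 hC2 hC6 hC8 hC11 hTm hKp hD2 hKf) hLead) (xPsi hC3 hC7 hKf hLead)
    (tFH aB1 zR1 hR2 hKf hLead)

end Pool.Agent.DM.F
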