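import Pool.Agent.Lib.DM.IfaceF
import Pool.Agent.Lib.DN.F.Base
import Pool.Agent.Lib.DN.Base

/-!
# Theorem DM, part F: elementary lemmas (author helper79)

The generic lemmas (`PN`, `pn_..`, `ray_..`, `rep`, `sum_rep`, `sum_mul`, `cj_..`, `g0_..`) are in `DN/F/Base.lean`
(namespace `Pool.Agent.DN.F`, opened in the files of this directory). Here: arithmetic modulo `3` (`3` inert), `FB`, `FM`,
`IsLv`, the primes above `3`, sums modulo `P`.
-/

set_option autoImplicit false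
set_option linter.unusedSectionVars false
set_option linter.unusedSimpArgs false

open scoped Pointwise Topology
open Filter

noncomputable section

namespace Pool.Agent.DM.F

open Pool.Agent.MuZ Pool.Agent.FW NumberField IsDedekindDomain Pool.Agent.DN Pool.Agent.DN.F
open Pool.Agent.DI (io ofC io_inj exists_io io_ofC ofC_io VP MP UP TP ex)

/-! ## Arithmetic modulo `3` -/

section three

variable {n t : ℕ} [Ine3 n t]

/-- The two cases. -/
theorem ine3_cases (n t : ℕ) [Ine3 n t] : (t = 1 ∧ n % 3 = 2) ∨ (t = 0 ∧ n % 3 = 1) := by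
  have h := Ine3.one (n := n) (t := t)
  unfold Dk at h
  have hs : SqN n t := inferInstance
  rcases hs.out with ⟨rfl, h0, -⟩ | ⟨rfl, h0, -, -⟩
  · left
    refine ⟨rfl, ?_⟩
    norm_num at h
    omega
  · right
    refine ⟨rfl, ?_⟩
    norm_num at h
    omega

private theorem z3 : ∀ x y : ZMod 3, x ^ 2 + y ^ 2 = 0 → x = 0 ∧ y = 0 := by decide

/-- `3` divides the norm only if it divides `v`. -/
theorem three_nm {v : OO n t} (h : (3 : ℤ) ∣ Nm v) : (3 : OO n t) ∣ v := by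
  have h4 := four_Nm v
  obtain ⟨j, hj⟩ : ∃ j : ℤ, 4 * (n : ℤ) - (t : ℤ) ^ 2 = 3 * j + 1 := by
    rcases ine3_cases n t with ⟨rfl, h1⟩ | ⟨rfl, h1⟩
    · exact ⟨(4 * n - 2) / 3, by push_cast; omega⟩
    · exact ⟨(4 * n - 1) / 3, by push_cast; omega⟩
  rw [hj] at h4
  have h5 : ((2 * v.re + t * v.im : ℤ) : ZMod 3) ^ 2 + ((v.im : ℤ) : ZMod 3) ^ 2 = 0 := by
    have h6 : (((2 * v.re + t * v.im) ^ 2 + v.im ^ 2 : ℤ) : ZMod 3) = 0 := by
      refine (ZMod.intCast_zmod_eq_zero_iff_dvd _ 3).2 ?_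
      obtain ⟨i, hi⟩ := h
      exact ⟨4 * i - j * v.im ^ 2, by push_cast; linear_combination -h4 + 4 * hi⟩
    push_cast at h6 ⊢
    exact h6
  obtain ⟨h7, h8⟩ := z3 _ _ h5
  have h9 : (3 : ℤ) ∣ 2 * v.re + t * v.im := by
    exact_mod_cast (ZMod.intCast_zmod_eq_zero_iff_dvd _ 3).1 h7
  have h10 : (3 : ℤ) ∣ v.im := by exact_mod_cast (ZMod.intCast_zmod_eq_zero_iff_dvd _ 3).1 h8
  have h11 : (3 : ℤ) ∣ v.re := by
    have h12 : (3 : ℤ) ∣ 2 * v.re := by
      have e : 2 * v.re = (2 * v.re + t * v.im) - t * v.im := by ring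
      rw [e]
      exact dvd_sub h9 (h10.mul_left _)
    omega
  have := (nat_dvd_iff 3 v).2 ⟨by exact_mod_cast h11, by exact_mod_cast h10⟩
  exact_mod_cast this

theorem cop3_nm (v : OO n t) : Cop v 3 ↔ ¬ (3 : ℤ) ∣ Nm v := by
  unfold Cop
  rw [Int.isCoprime_iff_gcd_eq_one]
  have h3 : Prime (3 : ℤ) := Int.prime_three
  constructor
  · intro h h1
    have h2 : (3 : ℤ) ∣ ((Int.gcd (Nm v) (3 : ℕ) : ℕ) : ℤ) := Int.dvd_coe_gcd h1 (by norm_num)
    rw [h] at h2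
    norm_num at h2
  · intro h
    have h1 : IsCoprime (3 : ℤ) (Nm v) := (Prime.coprime_iff_not_dvd h3).2 h
    have h2 := Int.isCoprime_iff_gcd_eq_one.1 h1.symm
    exact_mod_cast h2

/-- `v` is prime to `3` if and only if `3` does not divide `v`. -/
theorem cop3_iff (v : OO n t) : Cop v 3 ↔ ¬ (3 : OO n t) ∣ v := by
  rw [cop3_nm]
  constructor
  · intro h h1
    apply h
    have h2 := Nm_dvd h1
    have h3 : Nm (3 : OO n t) = 9 := by
      have h4 := Nm_nat (n := n) (t := t) 3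
      norm_num at h4
      exact h4
    rw [h3] at h2
    exact dvd_trans ⟨3, by norm_num⟩ h2
  · intro h h1
    exact h (three_nm h1)

/-- `w³ = conj w` modulo `3`. -/
private theorem w_cube : (3 : OO n t) ∣ wI n t ^ 3 - ((t : OO n t) - wI n t) := by
  have e : wI n t ^ 3 - ((t : OO n t) - wI n t) =
      ((((t : ℤ) ^ 2 - n + 1 : ℤ)) : OO n t) * wI n t - ((((t : ℤ) * (n + 1) : ℤ)) : OO n t) := by
    apply ext'
    · simp only [pow_succ, pow_zero, one_mul, QuadraticAlgebra.re_sub, re_mul, im_mul, re_int, im_int, re_nat,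
        im_nat, wI, QuadraticAlgebra.im_sub]
      push_cast
      ring
    · simp only [pow_succ, pow_zero, one_mul, QuadraticAlgebra.re_sub, re_mul, im_mul, re_int, im_int, re_nat,
        im_nat, wI, QuadraticAlgebra.im_sub]
      push_cast
      ring
  rw [e]
  have hc : ∀ i : ℤ, (3 : ℤ) ∣ i → (3 : OO n t) ∣ (i : OO n t) := by
    rintro i ⟨j, rfl⟩
    exact ⟨(j : OO n t), by push_cast; rfl⟩
  rcases ine3_cases n t with ⟨h0, h1⟩ | ⟨h0, h1⟩
  · refine dvd_sub (dvd_mul_of_dvd_left (hc _ ?_) _) (hc _ ?_)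
    · rw [h0]
      push_cast
      omega
    · rw [h0]
      push_cast
      omega
  · refine dvd_sub (dvd_mul_of_dvd_left (hc _ ?_) _) (hc _ ?_)
    · rw [h0]
      push_cast
      omega
    · rw [h0]
      simp

/-- `v³ = conj v` modulo `3`. -/
theorem cube_cj (v : OO n t) : (3 : OO n t) ∣ v ^ 3 - cjO v := by
  obtain ⟨u, hu⟩ := w_cube (n := n) (t := t)
  have e1 : v = (v.re : OO n t) + (v.im : OO n t) * wI n t := by
    apply ext'
    · simp [re_mul, wI]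
    · simp [im_mul, wI]
  have e2 : cjO v = (v.re : OO n t) + (v.im : OO n t) * ((t : OO n t) - wI n t) := by
    apply ext'
    · simp [re_mul, wI, cjO]
      ring
    · simp [im_mul, wI, cjO]
  have h3 : ∀ i : ℤ, ∃ j : ℤ, i ^ 3 = i + 3 * j := by
    intro i
    have h : (3 : ℤ) ∣ i ^ 3 - i := by
      have hz : ∀ x : ZMod 3, x ^ 3 - x = 0 := by decide
      have := hz (i : ZMod 3)
      have h5 : (((i ^ 3 - i : ℤ)) : ZMod 3) = 0 := by push_cast; exact this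
      exact_mod_cast (ZMod.intCast_zmod_eq_zero_iff_dvd _ 3).1 h5
    obtain ⟨j, hj⟩ := h
    exact ⟨j, by linear_combination hj⟩
  obtain ⟨a, ha⟩ := h3 v.re
  obtain ⟨b, hb⟩ := h3 v.im
  have ha' : ((v.re : ℤ) : OO n t) ^ 3 = v.re + 3 * a := by exact_mod_cast congrArg (Int.cast : ℤ → OO n t) ha
  have hb' : ((v.im : ℤ) : OO n t) ^ 3 = v.im + 3 * b := by exact_mod_cast congrArg (Int.cast : ℤ → OO n t) hb
  rw [e2]
  nth_rewrite 1 [e1]
  generalize ((v.re : ℤ) : OO n t) = x at *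
  generalize ((v.im : ℤ) : OO n t) = y at *
  generalize wI n t = w at *
  refine ⟨a + x ^ 2 * (y * w) + x * (y * w) ^ 2 + b * w ^ 3 + y * u, ?_⟩
  linear_combination ha' + w ^ 3 * hb' + y * hu

/-- `v^8 = 1` modulo `3`. -/
theorem pow8 {v : OO n t} (h : Cop v 3) : (3 : OO n t) ∣ v ^ 8 - 1 := by
  obtain ⟨u, hu⟩ := cube_cj v
  have h1 := mul_cjO v
  have h2 : ∃ j : ℤ, Nm v ^ 2 = 1 + 3 * j := by
    have hz : ∀ x : ZMod 3, x ≠ 0 → x ^ 2 = 1 := by decide
    have h3 := hz ((Nm v : ℤ) : ZMod 3) (fun h4 => (cop3_nm v).1 h (by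
      exact_mod_cast (ZMod.intCast_zmod_eq_zero_iff_dvd _ 3).1 h4))
    have h5 : (((Nm v ^ 2 - 1 : ℤ)) : ZMod 3) = 0 := by push_cast; rw [h3]; ring
    obtain ⟨j, hj⟩ : (3 : ℤ) ∣ Nm v ^ 2 - 1 := by
      exact_mod_cast (ZMod.intCast_zmod_eq_zero_iff_dvd _ 3).1 h5
    exact ⟨j, by linear_combination hj⟩
  obtain ⟨j, hj⟩ := h2
  have hj' : ((Nm v : ℤ) : OO n t) ^ 2 = 1 + 3 * j := by exact_mod_cast congrArg (Int.cast : ℤ → OO n t) hj
  have h4 : v ^ 4 = (Nm v : OO n t) + 3 * (v * u) := by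
    rw [← h1]
    linear_combination v * hu
  refine ⟨j + 2 * (Nm v : OO n t) * (v * u) + 3 * (v * u) ^ 2, ?_⟩
  have e : v ^ 8 = (v ^ 4) ^ 2 := by ring
  rw [e, h4]
  linear_combination hj'

end three

/-! ## `FB`, `FM`, `IsLv` -/

section fb

variable {n t : ℕ} [SqN n t]

theorem three_f {f : ℕ} (hf : Fok f) : 0 < 3 * f := by
  have := hf.pos
  omega

theorem f_pos {f : ℕ} (hf : Fok f) : 0 < f := hf.pos

theorem f20 {f : ℕ} (hf : Fok f) : 20 ≤ f := Nat.le_of_dvd hf.pos hf.dvd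

theorem d15 {f : ℕ} (hf : Fok f) : 15 ∣ 3 * f := by
  obtain ⟨j, hj⟩ := hf.dvd
  exact ⟨4 * j, by rw [hj]; ring⟩

theorem d60 {f : ℕ} (hf : Fok f) : 60 ∣ 3 * f := by
  obtain ⟨j, hj⟩ := hf.dvd
  exact ⟨j, by rw [hj]; ring⟩

theorem d30 {f : ℕ} (hf : Fok f) : 30 ∣ 3 * f := by
  obtain ⟨j, hj⟩ := hf.dvd
  exact ⟨2 * j, by rw [hj]; ring⟩

theorem fb_pn {f : ℕ} {b : Ideal (OO n t)} (h : FB f b) : PN (3 * f) b := ⟨h.ne, h.prm⟩

theorem pn_fb {f : ℕ} {b : Ideal (OO n t)} (h : PN (3 * f) b) : FB f b := ⟨h.ne, h.cop⟩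

theorem fb_top (f : ℕ) : FB f (⊤ : Ideal (OO n t)) := ⟨Eb.ne_top, Eb.pri_top _⟩

theorem fb_mul {f : ℕ} {a b : Ideal (OO n t)} (h : FB f a) (h' : FB f b) : FB f (a * b) :=
  ⟨Eb.ne_mul h.ne h'.ne, Eb.pri_mul h.prm h'.prm⟩

theorem fb_of_mul {f : ℕ} {a b : Ideal (OO n t)} (h : FB f (a * b)) : FB f a ∧ FB f b :=
  ⟨pn_fb (pn_of_mul (fb_pn h)).1, pn_fb (pn_of_mul (fb_pn h)).2⟩

theorem fb_cj {f : ℕ} {a : Ideal (OO n t)} (h : FB f a) : FB f (cjI a) := pn_fb (pn_cj (fb_pn h))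

theorem fb_psi {f : ℕ} {τ : Gal(Om/ℚ)} {a : Ideal (OO n t)} (h : Psi τ (3 * f) a) : FB f a :=
  pn_fb (pn_psi h)

theorem fb_ray {f : ℕ} (hf : 0 < f) {a b : Ideal (OO n t)} (h : Ray (3 * f) a b) (ha : FB f a) :
    FB f b := pn_fb (pn_ray (by omega) h (fb_pn ha))

theorem fb_three {f : ℕ} {b : Ideal (OO n t)} (h : FB f b) : PN 3 b :=
  ⟨h.ne, Eb.pri_dvd h.prm (Dvd.intro _ rfl)⟩

theorem fb_f {f : ℕ} {b : Ideal (OO n t)} (h : FB f b) : PN f b :=
  ⟨h.ne, Eb.pri_dvd h.prm (Dvd.intro_left _ rfl)⟩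

theorem fb_of {f : ℕ} {b : Ideal (OO n t)} (h : PN 3 b) (h' : PN f b) : FB f b :=
  ⟨h.ne, pri_mulN.2 ⟨h.cop, h'.cop⟩⟩

theorem fb_30 {f : ℕ} (hf : Fok f) {b : Ideal (OO n t)} (h : FB f b) : PrI b 30 :=
  Eb.pri_dvd h.prm (d30 hf)

theorem fb_g30 {f : ℕ} (hf : Fok f) {b : Ideal (OO n t)} (h : FB f b) : G30 b := ⟨h.ne, fb_30 hf h⟩

theorem fb_g15 {f : ℕ} (hf : Fok f) {b : Ideal (OO n t)} (h : FB f b) : G15 b :=
  ⟨h.ne, Eb.pri_dvd h.prm (d15 hf)⟩

theorem g30_top : G30 (⊤ : Ideal (OO n t)) := ⟨Eb.ne_top, Eb.pri_top 30⟩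

theorem g30_mul {a b : Ideal (OO n t)} (h : G30 a) (h' : G30 b) : G30 (a * b) :=
  ⟨Eb.ne_mul h.ne h'.ne, Eb.pri_mul h.cop h'.cop⟩

theorem fm_fb {f : ℕ} {m : Ideal (OO n t)} (h : FM f m) : FB f m := ⟨h.ne, h.prm⟩

theorem fm_cj {f : ℕ} {m : Ideal (OO n t)} (h : FM f m) : FM f (cjI m) :=
  ⟨h.toFok, cjI_ne h.ne, pri_cj.2 h.prm⟩

/-- Prime to `N`: the norm is not divisible by `3`. -/
theorem NI_three {b : Ideal (OO n t)} (h : PN 3 b) : ¬ 3 ∣ NI b := by
  intro h1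
  have h2 := (pri_NI (n := n) (t := t) (by norm_num)).1 h.cop
  have h3 := Nat.dvd_gcd h1 (dvd_refl 3)
  rw [h2] at h3
  norm_num at h3

theorem lv_three {f M : ℕ} {m : Ideal (OO n t)} {R : Finset (Ideal (OO n t))} (h : IsLv f m R M) :
    ¬ 3 ∣ M := by
  have := h.one
  omega

theorem lv_cj {f M : ℕ} {m : Ideal (OO n t)} {R : Finset (Ideal (OO n t))} (h : IsLv f m R M) :
    IsLv f (cjI m) R M := by
  refine ⟨h.pos, h.one, ?_⟩
  have h1 : lev f (cjI m) R = lev f m R := by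
    unfold lev
    rw [NI_cjI]
  rw [h1]
  exact h.dvd

theorem lv_one {f M : ℕ} {m : Ideal (OO n t)} {R : Finset (Ideal (OO n t))} (h : IsLv f m R M)
    {b : Ideal (OO n t)} (hb : b ∈ R) : IsLv f m {b} M := by
  refine ⟨h.pos, h.one, dvd_trans ?_ h.dvd⟩
  unfold lev
  rw [Finset.prod_singleton]
  exact mul_dvd_mul_left _ (pow_dvd_pow_of_dvd (mul_dvd_mul_left _ (Finset.dvd_prod_of_mem _ hb)) 3)

theorem lv_top {f M : ℕ} {m : Ideal (OO n t)} {R : Finset (Ideal (OO n t))} (h : IsLv f m R M) :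
    IsLv f m {(⊤ : Ideal (OO n t))} M := by
  refine ⟨h.pos, h.one, dvd_trans ?_ h.dvd⟩
  unfold lev
  rw [Finset.prod_singleton, NI_top, mul_one]
  exact mul_dvd_mul_left _ (pow_dvd_pow_of_dvd (Dvd.intro _ rfl) 3)

theorem lv_m {f M : ℕ} {m : Ideal (OO n t)} {R : Finset (Ideal (OO n t))} (h : IsLv f m R M) :
    NI m ∣ M := by
  refine dvd_trans ?_ h.dvd
  unfold lev
  refine Dvd.dvd.mul_left ?_ _
  exact dvd_trans (Dvd.intro _ rfl) (dvd_pow_self _ (by norm_num))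

/-- `sp α`, `α` prime to `3 f`. -/
theorem fb_sp {f : ℕ} (hf : Fok f) {α : OO n t} (h : Cop α (3 * f)) : FB f (sp α) := by
  refine ⟨?_, ((aO6 n t).2.2.2.1 (3 * f) α (three_f hf)).2 h⟩
  refine Eb.ne_sp ?_
  rintro rfl
  unfold Cop at h
  rw [Nm_zero] at h
  have h1 := isCoprime_zero_left.1 h
  rw [Int.isUnit_iff] at h1
  have := three_f hf
  have := f20 hf
  omega

/-- `α = 1` modulo `f` and prime to `3`: prime to `3 f`. -/
theorem cop_of {f : ℕ} {α : OO n t} (h : (f : OO n t) ∣ α - 1) (h2 : Cop α 3) : Cop α (3 * f) := by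
  have h1 : Cop α f := cop_of_one h
  unfold Cop at *
  push_cast
  exact IsCoprime.mul_right (by exact_mod_cast h2) h1

/-! ## The ray class relation -/

/-- modulo `3 f` implies modulo `f` -/
theorem ray_f {f : ℕ} (hf : Fok f) {a b : Ideal (OO n t)} (h : Ray (3 * f) a b) : Ray f a b :=
  ray_dvd (three_f hf) (Dvd.intro_left _ rfl) h

theorem rc_fb {f : ℕ} {R : Finset (Ideal (OO n t))} (hR : IsRC (3 * f) R) {b : Ideal (OO n t)}
    (hb : b ∈ R) : FB f b := pn_fb (rc_pn hR hb)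

theorem rc_fr {f : ℕ} {R : Finset (Ideal (OO n t))} (hR : IsRC (3 * f) R) : FR f R :=
  fun _ hb => rc_fb hR hb

/-! ## Sums over representatives; `N = f` or `N = 3 f` -/

/-- **Reindexing.** `F` is a class function, `g` is injective on the classes. -/
theorem sum_repF {A : Type} [AddCommMonoid A] {f N : ℕ} (hN : 0 < N) (hNf : N ∣ 3 * f)
    {R : Finset (Ideal (OO n t))} (hR : IsRC N R) (hFR : FR f R) (g : Ideal (OO n t) → Ideal (OO n t))
    (hg : ∀ b, FB f b → FB f (g b))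
    (hinj : ∀ b b', FB f b → FB f b' → Ray N (g b) (g b') → Ray N b b')
    (F : Ideal (OO n t) → A) (hF : ∀ b b', FB f b → FB f b' → Ray N b b' → F b = F b') :
    ∑ b ∈ R, F (g b) = ∑ b ∈ R, F b := by
  classical
  have hex : ∀ b, FB f b → ∃ b' ∈ R, Ray N b b' := fun b hb => hR.ex b hb.ne (Eb.pri_dvd hb.prm hNf)
  have hrep : ∀ b ∈ R, ∃ b' ∈ R, Ray N (g b) b' := fun b hb => hex _ (hg b (hFR b hb))
  choose rp hrp1 hrp2 using hrep
  let rep : Ideal (OO n t) → Ideal (OO n t) := fun b => if h : b ∈ R then rp b h else ⊤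
  have e1 : ∀ b, ∀ h : b ∈ R, rep b = rp b h := fun b h => dif_pos h
  have h1 : ∀ b ∈ R, rep b ∈ R := fun b hb => by
    rw [e1 b hb]
    exact hrp1 b hb
  have h2 : ∀ b ∈ R, F (g b) = F (rep b) := fun b hb => by
    rw [e1 b hb]
    exact hF _ _ (hg b (hFR b hb)) (hFR _ (hrp1 b hb)) (hrp2 b hb)
  have h3 : ∀ b ∈ R, ∀ b' ∈ R, rep b = rep b' → b = b' := by
    intro b hb b' hb' h
    rw [e1 b hb, e1 b' hb'] at h
    apply hR.uni b hb b' hb'
    apply hinj b b' (hFR b hb) (hFR b' hb')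
    have h4 := hrp2 b hb
    have h5 := hrp2 b' hb'
    rw [h] at h4
    exact ray_trans hN h4 (ray_symm hN h5)
  rw [Finset.sum_congr rfl h2]
  have h4 : R.image rep = R := by
    apply Finset.eq_of_subset_of_card_le
    · intro b hb
      rw [Finset.mem_image] at hb
      obtain ⟨b', hb', rfl⟩ := hb
      exact h1 b' hb'
    · rw [Finset.card_image_of_injOn]
      intro b hb b' hb' h
      exact h3 b hb b' hb' h
  conv_rhs => rw [← h4]
  rw [Finset.sum_image (fun b hb b' hb' h => h3 b hb b' hb' h)]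

/-- Reindexing by multiplication with `a`. -/
theorem sum_mulF {A : Type} [AddCommMonoid A] {f N : ℕ} (hN : 0 < N) (hNf : N ∣ 3 * f)
    {R : Finset (Ideal (OO n t))} (hR : IsRC N R) (hFR : FR f R) {a : Ideal (OO n t)} (ha : FB f a)
    (F : Ideal (OO n t) → A) (hF : ∀ b b', FB f b → FB f b' → Ray N b b' → F b = F b') :
    ∑ b ∈ R, F (a * b) = ∑ b ∈ R, F b :=
  sum_repF hN hNf hR hFR (fun b => a * b) (fun _ hb => fb_mul ha hb)
    (fun _ _ _ _ h => ray_cancel' hN (pn_dvd (fb_pn ha) hNf) h) F hF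

/-- Reindexing by multiplication with `a`, modulo `P`. -/
theorem sum_mulP {f N : ℕ} (hN : 0 < N) (hNf : N ∣ 3 * f) {P : Ideal ZZ} (hP : P.IsPrime)
    {R : Finset (Ideal (OO n t))} (hR : IsRC N R) (hFR : FR f R) {a : Ideal (OO n t)} (ha : FB f a)
    (F : Ideal (OO n t) → Om) (hF : ∀ b b', FB f b → FB f b' → Ray N b b' → MP P (F b - F b')) :
    MP P (∑ b ∈ R, F (a * b) - ∑ b ∈ R, F b) := by
  let I : AddSubgroup Om :=
    { carrier := {x | MP P x}
      add_mem' := fun hx hy => DI.MP.add hx hy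
      zero_mem' := DI.MP.zero
      neg_mem' := fun hx => DI.MP.neg hx }
  have hI : ∀ x y : Om, (QuotientAddGroup.mk x : Om ⧸ I) = QuotientAddGroup.mk y ↔ MP P (x - y) := by
    intro x y
    rw [QuotientAddGroup.eq]
    constructor
    · intro h
      have h1 : MP P (-x + y) := h
      have h2 := DI.MP.neg h1
      have e : -(-x + y) = x - y := by ring
      rwa [e] at h2
    · intro h
      have h2 := DI.MP.neg h
      have e : -(x - y) = -x + y := by ring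
      rw [e] at h2
      exact h2
  have h := sum_mulF (A := Om ⧸ I) hN hNf hR hFR ha (fun b => (QuotientAddGroup.mk (F b) : Om ⧸ I))
    (fun b b' h1 h2 h3 => (hI _ _).2 (hF b b' h1 h2 h3))
  rw [← hI]
  have e : ∀ G : Ideal (OO n t) → Om,
      (QuotientAddGroup.mk (∑ b ∈ R, G b) : Om ⧸ I) = ∑ b ∈ R, (QuotientAddGroup.mk (G b) : Om ⧸ I) :=
    fun G => map_sum (QuotientAddGroup.mk' I) G R
  rw [e, e]
  exact h

end fb

/-! ## The primes above `3` -/

/-- The translate of a prime above `3`. -/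
theorem ab3_smul (σ : Gal(Om/ℚ)) {P : Ideal ZZ} (hP : Ab3 P) : Ab3 (σ • P) := by
  have hp : P.IsPrime := hP.1.1
  have hp' : (σ • P).IsPrime := inferInstance
  refine ⟨⟨hp', fun h => hP.1.2 ?_⟩, ?_⟩
  · rw [eq_bot_iff]
    intro x hx
    have h1 : σ • x ∈ σ • P := (DI.smul_mem_smul_iff σ x).2 hx
    rw [h, Ideal.mem_bot] at h1
    have h3 : σ⁻¹ • σ • x = 0 := by rw [h1, smul_zero]
    rw [inv_smul_smul] at h3
    rw [h3]
    exact Ideal.zero_mem _
  · have h1 := (DI.MP.smul (P := P) σ (x := (3 : Om))).2 hP.2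
    rwa [map_ofNat] at h1

/-- Natural numbers prime to `3` are units above `3`. -/
theorem nat_UP {P : Ideal ZZ} (hP : Ab3 P) {j : ℕ} (hj : ¬ 3 ∣ j) : UP P (j : Om) := by
  have hPp : P.IsPrime := hP.1.1
  refine ⟨DI.VP.nat j, fun h => ?_⟩
  have h1 : IsCoprime (j : ℤ) 3 := by
    have h2 : Nat.Coprime j 3 := ((Nat.Prime.coprime_iff_not_dvd Nat.prime_three).2 hj).symm
    exact_mod_cast Nat.isCoprime_iff_coprime.2 h2
  obtain ⟨a, b, hab⟩ := h1
  have h3 : (a : Om) * j + b * 3 = 1 := by exact_mod_cast congrArg (Int.cast : ℤ → Om) hab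
  apply DI.MP.one_not (P := P)
  rw [← h3]
  exact DI.MP.add (DI.MP.mul_left (DI.VP.int a) h) (DI.MP.mul_left (DI.VP.int b) hP.2)

/-- `2` is a unit above `3`. -/
theorem two_UP {P : Ideal ZZ} (hP : Ab3 P) : UP P (2 : Om) := by
  have := nat_UP hP (j := 2) (by norm_num)
  exact_mod_cast this

/-- `w8 ^ 8 = 3`. -/
theorem w8_pow : w8 ^ 8 = 3 := by
  have h : ∃ y : Om, y ^ 8 = 3 := IsAlgClosed.exists_pow_nat_eq (3 : Om) (by norm_num)
  unfold w8
  rw [dif_pos h]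
  exact h.choose_spec

theorem w8_ne : w8 ≠ 0 := by
  intro h
  have := w8_pow
  rw [h] at this
  norm_num at this

theorem w8_mp {P : Ideal ZZ} [P.IsPrime] (h3 : MP P 3) : MP P w8 := by
  refine DI.MP.of_pow (n := 8) ?_
  rw [w8_pow]
  exact h3

end Pool.Agent.DM.F
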