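import Pool.Agent.Lib.DN.F.Gt

/-!
# Theorem DM (`p = 3`), part F: the function `G`, `G(v)³ = y(3 v)`, author helper79

Lattice `O`; `x = X - X(1/3)`, `W² = 4 x³ + (a x + b)²`, `y = (W - a x - b)/2` (the tangent at `1/3`; the divisor of
`y` is `3 (1/3) - 3 (0)`), `a = A1`, `b = A3` (framing of DN). `Xt(v) = ∑ x(v + j/3) + a²/3`, `Vt(v) = ∑ W(v + j/3)`,
`q = 3 b - a³/9`: `Vt² = 4 Xt³ - 3 (a Xt + q)²`, `9 x(3 v) Xt² = Xt³ - a² Xt² - 3 a q Xt - 3 q²`,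
`27 W(3 v) Xt³ = Vt (Xt³ + 3 a q Xt + 6 q²)`, `G = (Vt - a Xt - 3 q)/(6 Xt)`.
-/

set_option autoImplicit false
set_option linter.unusedSectionVars false

open scoped Pointwise Topology MatrixGroups
open Filter

noncomputable section

namespace Pool.Agent.DM.F.Gt3

open Pool.Agent.MuZ Pool.Agent.FW NumberField IsDedekindDomain Pool.Agent.DN Pool.Agent.DN.F

/-- `Xt(v) = x(v) + x(v + 1/3) + x(v + 2/3) + a²/3`. -/
def Xt (n t : ℕ) (v : ℂ) : ℂ :=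
  XC (⊤ : Ideal (OO n t)) v + XC (⊤ : Ideal (OO n t)) (v + 1 / 3) +
    XC (⊤ : Ideal (OO n t)) (v + 2 / 3) + A1 (⊤ : Ideal (OO n t)) ^ 2 / 3

/-- `Vt(v) = W(v) + W(v + 1/3) + W(v + 2/3)`. -/
def Vt (n t : ℕ) (v : ℂ) : ℂ :=
  WC (⊤ : Ideal (OO n t)) v + WC (⊤ : Ideal (OO n t)) (v + 1 / 3) +
    WC (⊤ : Ideal (OO n t)) (v + 2 / 3)

/-- `q = 3 b - a³/9`. -/
def qt (n t : ℕ) : ℂ := 3 * A3 (⊤ : Ideal (OO n t)) - A1 (⊤ : Ideal (OO n t)) ^ 3 / 9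

/-- The function `G`. -/
def G3 (n t : ℕ) (v : ℂ) : ℂ :=
  (Vt n t v - A1 (⊤ : Ideal (OO n t)) * Xt n t v - 3 * qt n t) / (6 * Xt n t v)

/-- The properties of `G`. -/
structure IsG3 (n t : ℕ) (G : ℂ → ℂ) : Prop where
  mer : Meromorphic G
  cub : ∀ v : ℂ, 3 * v ∉ Lam (⊤ : Ideal (OO n t)) →
    G v ^ 3 = (WC (⊤ : Ideal (OO n t)) (3 * v) -
      A1 (⊤ : Ideal (OO n t)) * XC (⊤ : Ideal (OO n t)) (3 * v) - A3 (⊤ : Ideal (OO n t))) / 2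
  per : ∀ (v : ℂ) (α : OO n t), G (v + toC α) = G v
  third : ∀ v : ℂ, G (v + 1 / 3) = G v

/-! ## Algebra -/

/-- `3 x² Xt = ψ`. -/
private theorem alg_X {x p m a b X : ℂ} (h1 : (p + m) * x ^ 2 = a * b * x + b ^ 2)
    (hX : X = x + p + m + a ^ 2 / 3) :
    3 * x ^ 2 * X = 3 * x ^ 3 + a ^ 2 * x ^ 2 + 3 * a * b * x + 3 * b ^ 2 := by
  rw [hX]
  linear_combination 3 * h1

private theorem alg_V2 {x a b q X V W : ℂ} (hx : x ≠ 0)
    (hX : 3 * x ^ 2 * X = 3 * x ^ 3 + a ^ 2 * x ^ 2 + 3 * a * b * x + 3 * b ^ 2)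
    (hV : x ^ 3 * V = (x ^ 3 - a * b * x - 2 * b ^ 2) * W) (hW : W ^ 2 = 4 * x ^ 3 + (a * x + b) ^ 2)
    (hq : q = 3 * b - a ^ 3 / 9) : V ^ 2 = 4 * X ^ 3 - 3 * (a * X + q) ^ 2 := by
  have h1 : X = (3 * x ^ 3 + a ^ 2 * x ^ 2 + 3 * a * b * x + 3 * b ^ 2) / (3 * x ^ 2) := by
    rw [eq_div_iff (mul_ne_zero three_ne_zero (pow_ne_zero 2 hx))]
    linear_combination hX
  have h2 : x ^ 6 * V ^ 2 = (x ^ 3 - a * b * x - 2 * b ^ 2) ^ 2 * (4 * x ^ 3 + (a * x + b) ^ 2) := by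
    rw [← hW]
    linear_combination (x ^ 3 * V + (x ^ 3 - a * b * x - 2 * b ^ 2) * W) * hV
  apply mul_left_cancel₀ (pow_ne_zero 6 hx)
  rw [h2, h1, hq]
  field_simp
  ring

private theorem alg_D {x a b q X D N S : ℂ} (hx : x ≠ 0)
    (hX : 3 * x ^ 2 * X = 3 * x ^ 3 + a ^ 2 * x ^ 2 + 3 * a * b * x + 3 * b ^ 2)
    (hN : N = x ^ 4 - a * b * x ^ 2 - 2 * b ^ 2 * x) (hS : S = 4 * x ^ 3 + (a * x + b) ^ 2)
    (hq : q = 3 * b - a ^ 3 / 9)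
    (hD : D * (N - x * S) ^ 2 = 2 * N * x * (N + x * S) + a ^ 2 * N * x * S +
      a * b * (N + x * S) * S + b ^ 2 * S ^ 2 - x * (N - x * S) ^ 2) :
    9 * D * X ^ 2 = X ^ 3 - a ^ 2 * X ^ 2 - 3 * a * q * X - 3 * q ^ 2 := by
  have h1 : X = (3 * x ^ 3 + a ^ 2 * x ^ 2 + 3 * a * b * x + 3 * b ^ 2) / (3 * x ^ 2) := by
    rw [eq_div_iff (mul_ne_zero three_ne_zero (pow_ne_zero 2 hx))]
    linear_combination hX
  have h2 : N - x * S = -(3 * x ^ 3 * X) := by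
    rw [hN, hS]
    linear_combination x * hX
  have h3 : 27 * (2 * N * x * (N + x * S) + a ^ 2 * N * x * S +
      a * b * (N + x * S) * S + b ^ 2 * S ^ 2 - x * (N - x * S) ^ 2) =
      27 * x ^ 6 * X ^ 3 - 27 * a ^ 2 * x ^ 6 * X ^ 2 - 81 * a * q * x ^ 6 * X -
        81 * q ^ 2 * x ^ 6 := by
    rw [h1, hN, hS, hq]
    field_simp
    ring
  apply mul_left_cancel₀ (pow_ne_zero 6 hx)
  rw [h2] at hD
  have h4 : D * (-(3 * x ^ 3 * X)) ^ 2 = 9 * x ^ 6 * D * X ^ 2 := by ring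
  rw [h4] at hD
  rw [← h2] at hD
  linear_combination hD + h3 / 27

private theorem alg_G {a b q X V D E : ℂ} (hX : X ≠ 0) (hq : q = 3 * b - a ^ 3 / 9)
    (hV : V ^ 2 = 4 * X ^ 3 - 3 * (a * X + q) ^ 2)
    (hD : 9 * D * X ^ 2 = X ^ 3 - a ^ 2 * X ^ 2 - 3 * a * q * X - 3 * q ^ 2)
    (hE : 27 * E * X ^ 3 = V * (X ^ 3 + 3 * a * q * X + 6 * q ^ 2)) :
    ((V - a * X - 3 * q) / (6 * X)) ^ 3 = (E - a * D - b) / 2 := by
  rw [div_pow, div_eq_div_iff (pow_ne_zero 3 (mul_ne_zero (by norm_num) hX)) two_ne_zero]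
  linear_combination (2 * (V - 3 * (a * X + 3 * q))) * hV - 8 * hE + 24 * a * X * hD -
    72 * X ^ 3 * hq

/-! ## The function `G` -/

section main

variable {n t : ℕ} [SqN n t]

theorem lam_one : (1 : ℂ) ∈ Lam (⊤ : Ideal (OO n t)) := lam_top.2 ⟨1, toC_one.symm⟩

/-- The points near `v`. -/
theorem ev3 {v : ℂ} (hv : 3 * v ∉ Lam (⊤ : Ideal (OO n t))) :
    ∀ᶠ y in 𝓝 v, 3 * y ∉ Lam (⊤ : Ideal (OO n t)) := by
  have hO := DN.F.Gt.open_compl (n := n) (t := t) (b := ⊤) Eb.ne_top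
  have hc : Tendsto (fun y : ℂ => 3 * y) (𝓝 v) (𝓝 (3 * v)) :=
    (continuous_const.mul continuous_id).tendsto v
  exact hc.eventually (hO.mem_nhds hv)

/-- The points `v`, `v ± 1/3`. -/
theorem pts {v : ℂ} (hv : 3 * v ∉ Lam (⊤ : Ideal (OO n t))) :
    v ∉ Lam (⊤ : Ideal (OO n t)) ∧ v + 1 / 3 ∉ Lam (⊤ : Ideal (OO n t)) ∧
    v - 1 / 3 ∉ Lam (⊤ : Ideal (OO n t)) ∧ v + 2 / 3 ∉ Lam (⊤ : Ideal (OO n t)) := by
  have h3 : ∀ u : ℂ, u ∈ Lam (⊤ : Ideal (OO n t)) → 3 * u ∈ Lam (⊤ : Ideal (OO n t)) := by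
    intro u hu
    have e : 3 * u = u + u + u := by ring
    rw [e]
    exact lam_add (lam_add hu hu) hu
  refine ⟨fun h => hv (h3 _ h), fun h => hv ?_, fun h => hv ?_, fun h => hv ?_⟩
  · have h1 := lam_sub (h3 _ h) (lam_one (n := n) (t := t))
    have e : 3 * (v + 1 / 3) - 1 = 3 * v := by ring
    rwa [e] at h1
  · have h1 := lam_add (h3 _ h) (lam_one (n := n) (t := t))
    have e : 3 * (v - 1 / 3) + 1 = 3 * v := by ring
    rwa [e] at h1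
  · have h1 := lam_sub (lam_sub (h3 _ h) (lam_one (n := n) (t := t))) (lam_one (n := n) (t := t))
    have e : 3 * (v + 2 / 3) - 1 - 1 = 3 * v := by ring
    rwa [e] at h1

theorem third_nlam : (1 / 3 : ℂ) ∉ Lam (⊤ : Ideal (OO n t)) := by
  have h := aL6.1 n t ⊤ 3 Eb.ne_top (by norm_num) (Eb.pri_top 3) 1
  rw [toC_one] at h
  intro h1
  have h2 := h.1 (by exact_mod_cast h1)
  have h3 := ((nat_dvd_iff 3 (1 : OO n t)).1 h2).1
  rw [re_one] at h3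
  omega

/-- The function `XC (v + 2/3)` is `XC (v - 1/3)`. -/
theorem X23 (hB1 : S_B1) (v : ℂ) :
    XC (⊤ : Ideal (OO n t)) (v + 2 / 3) = XC (⊤ : Ideal (OO n t)) (v - 1 / 3) ∧
    WC (⊤ : Ideal (OO n t)) (v + 2 / 3) = WC (⊤ : Ideal (OO n t)) (v - 1 / 3) := by
  have h := (hB1 n t ⊤ Eb.ne_top).1 (v - 1 / 3) 1 lam_one
  have e : v + 2 / 3 = v - 1 / 3 + 1 := by ring
  unfold XC WC
  rw [e, h.1, h.2]
  exact ⟨rfl, rfl⟩

/-- The data at a point `v` with `3 v ∉ Lam`, and the relations which need no derivative. -/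
theorem base (hB1 : S_B1) (hB2 : S_B2) (hB3 : S_B3) {v : ℂ} (hv : 3 * v ∉ Lam (⊤ : Ideal (OO n t))) :
    XC (⊤ : Ideal (OO n t)) v ≠ 0 ∧
    3 * XC (⊤ : Ideal (OO n t)) v ^ 2 * Xt n t v = 3 * XC (⊤ : Ideal (OO n t)) v ^ 3 +
      A1 (⊤ : Ideal (OO n t)) ^ 2 * XC (⊤ : Ideal (OO n t)) v ^ 2 +
      3 * A1 (⊤ : Ideal (OO n t)) * A3 (⊤ : Ideal (OO n t)) * XC (⊤ : Ideal (OO n t)) v +
      3 * A3 (⊤ : Ideal (OO n t)) ^ 2 ∧
    9 * XC (⊤ : Ideal (OO n t)) (3 * v) * Xt n t v ^ 2 = Xt n t v ^ 3 -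
      A1 (⊤ : Ideal (OO n t)) ^ 2 * Xt n t v ^ 2 - 3 * A1 (⊤ : Ideal (OO n t)) * qt n t * Xt n t v -
      3 * qt n t ^ 2 := by
  have hn : (⊤ : Ideal (OO n t)) ≠ ⊥ := Eb.ne_top
  have h15 : PrI (⊤ : Ideal (OO n t)) 15 := Eb.pri_top 15
  obtain ⟨p1, p2, p3, p4⟩ := pts hv
  obtain ⟨b1, b2, b3, b4, b5, b6⟩ := hB1 n t ⊤ hn
  obtain ⟨f1, f2, f3, f4, f5, -, f7, -, -⟩ := b6 h15
  have hX0 : XC (⊤ : Ideal (OO n t)) v ≠ 0 := by
    intro h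
    have h1 : wpC (⊤ : Ideal (OO n t)) v = wpC (⊤ : Ideal (OO n t)) (1 / 3) := by
      unfold XC at h
      rcases div_eq_zero_iff.1 h with h | h
      · exact sub_eq_zero.1 h
      · exact absurd h (pow_ne_zero 2 f1)
    rcases (b4 v (1 / 3) p1 third_nlam).1 h1 with h2 | h2
    · exact p3 h2
    · exact p2 h2
  -- the sum
  have hsum := (((hB3 n t ⊤ hn).1 v (1 / 3) p1 third_nlam p2 p3).2.2.2 h15).1
  rw [f5] at hsum
  have hX : Xt n t v = XC (⊤ : Ideal (OO n t)) v + XC (⊤ : Ideal (OO n t)) (v + 1 / 3) +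
      XC (⊤ : Ideal (OO n t)) (v - 1 / 3) + A1 (⊤ : Ideal (OO n t)) ^ 2 / 3 := by
    unfold Xt
    rw [(X23 hB1 v).1]
  have hXt := alg_X (x := XC (⊤ : Ideal (OO n t)) v) (p := XC (⊤ : Ideal (OO n t)) (v + 1 / 3))
    (m := XC (⊤ : Ideal (OO n t)) (v - 1 / 3)) (a := A1 (⊤ : Ideal (OO n t)))
    (b := A3 (⊤ : Ideal (OO n t))) (X := Xt n t v) (by linear_combination hsum) hX
  refine ⟨hX0, hXt, ?_⟩
  have hW2 := ((hB2 n t ⊤ hn v p1).2 h15).1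
  refine alg_D hX0 hXt rfl rfl rfl ?_
  by_cases h2 : 2 * v ∈ Lam (⊤ : Ideal (OO n t))
  · -- `2 v` is a period
    have e3 : XC (⊤ : Ideal (OO n t)) (3 * v) = XC (⊤ : Ideal (OO n t)) v := by
      have h := b1 v (2 * v) h2
      have e : 3 * v = v + 2 * v := by ring
      unfold XC
      rw [e, h.1]
    have hw : WC (⊤ : Ideal (OO n t)) v = 0 := by
      unfold WC
      rw [(b5 v p1).2 h2, zero_div]
    rw [hw, zero_pow two_ne_zero] at hW2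
    rw [e3, ← hW2]
    ring
  · have hdup := ((hB3 n t ⊤ hn).2 v h2).2 h15
    have hv3 : 2 * v + v ∉ Lam (⊤ : Ideal (OO n t)) := by
      have e : 2 * v + v = 3 * v := by ring
      rw [e]
      exact hv
    have hv1 : 2 * v - v ∉ Lam (⊤ : Ideal (OO n t)) := by
      have e : 2 * v - v = v := by ring
      rw [e]
      exact p1
    have hs := (((hB3 n t ⊤ hn).1 (2 * v) v h2 p1 hv3 hv1).2.2.2 h15).1
    have e1 : 2 * v + v = 3 * v := by ring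
    have e2 : 2 * v - v = v := by ring
    rw [e1, e2] at hs
    rw [hW2] at hdup
    rw [← hdup]
    generalize XC (⊤ : Ideal (OO n t)) (3 * v) = D at hs ⊢
    generalize XC (⊤ : Ideal (OO n t)) (2 * v) = E at hs hdup ⊢
    generalize XC (⊤ : Ideal (OO n t)) v = x at hs hdup ⊢
    generalize A1 (⊤ : Ideal (OO n t)) = a at hs hdup ⊢
    generalize A3 (⊤ : Ideal (OO n t)) = b at hs hdup ⊢
    linear_combination (4 * x ^ 3 + (a * x + b) ^ 2) ^ 2 * hs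

/-- The derivatives. -/
theorem ders (hB2 : S_B2) {v : ℂ} (hv : 3 * v ∉ Lam (⊤ : Ideal (OO n t))) :
    HasDerivAt (XC (⊤ : Ideal (OO n t))) (fr (⊤ : Ideal (OO n t)) * WC (⊤ : Ideal (OO n t)) v) v ∧
    HasDerivAt (Xt n t) (fr (⊤ : Ideal (OO n t)) * Vt n t v) v ∧
    HasDerivAt (fun y => XC (⊤ : Ideal (OO n t)) (3 * y))
      (3 * (fr (⊤ : Ideal (OO n t)) * WC (⊤ : Ideal (OO n t)) (3 * v))) v := by
  have hn : (⊤ : Ideal (OO n t)) ≠ ⊥ := Eb.ne_top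
  have h15 : PrI (⊤ : Ideal (OO n t)) 15 := Eb.pri_top 15
  obtain ⟨p1, p2, p3, p4⟩ := pts hv
  have d1 := ((hB2 n t ⊤ hn v p1).2 h15).2.1
  have d2 := (((hB2 n t ⊤ hn (v + 1 / 3) p2).2 h15).2.1).comp_add_const v (1 / 3)
  have d3 := (((hB2 n t ⊤ hn (v + 2 / 3) p4).2 h15).2.1).comp_add_const v (2 / 3)
  have d4 := ((hB2 n t ⊤ hn (3 * v) hv).2 h15).2.1
  refine ⟨d1, ?_, ?_⟩
  · have h := ((d1.add d2).add d3).add_const (A1 (⊤ : Ideal (OO n t)) ^ 2 / 3)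
    have e : fr (⊤ : Ideal (OO n t)) * Vt n t v = fr (⊤ : Ideal (OO n t)) * WC (⊤ : Ideal (OO n t)) v +
        fr (⊤ : Ideal (OO n t)) * WC (⊤ : Ideal (OO n t)) (v + 1 / 3) +
        fr (⊤ : Ideal (OO n t)) * WC (⊤ : Ideal (OO n t)) (v + 2 / 3) := by
      unfold Vt
      ring
    rw [e]
    exact h
  · have h3 : HasDerivAt (fun y : ℂ => 3 * y) 3 v := by
      have h := (hasDerivAt_id v).const_mul (3 : ℂ)
      rw [mul_one] at h
      exact h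
    have h := HasDerivAt.comp v d4 h3
    rw [mul_comm (3 : ℂ)]
    exact h

/-- The cube. -/
theorem cube (hB1 : S_B1) (hB2 : S_B2) (hB3 : S_B3) {v : ℂ}
    (hv : 3 * v ∉ Lam (⊤ : Ideal (OO n t))) : G3 n t v ^ 3 = (WC (⊤ : Ideal (OO n t)) (3 * v) -
      A1 (⊤ : Ideal (OO n t)) * XC (⊤ : Ideal (OO n t)) (3 * v) - A3 (⊤ : Ideal (OO n t))) / 2 := by
  have hn : (⊤ : Ideal (OO n t)) ≠ ⊥ := Eb.ne_top
  have h15 : PrI (⊤ : Ideal (OO n t)) 15 := Eb.pri_top 15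
  obtain ⟨p1, p2, p3, p4⟩ := pts hv
  obtain ⟨f1, f2, f3, f4, -⟩ := (hB1 n t ⊤ hn).2.2.2.2.2 h15
  obtain ⟨hx, hX, hD⟩ := base hB1 hB2 hB3 hv
  obtain ⟨d1, d2, d3⟩ := ders hB2 hv
  have hW2 := ((hB2 n t ⊤ hn v p1).2 h15).1
  have hX0 : Xt n t v ≠ 0 := by
    intro h
    rw [h] at hD
    have h1 : qt n t ^ 2 = 0 := by linear_combination (1 / 3 : ℂ) * hD
    have h2 : qt n t = 0 := by
      rcases pow_eq_zero_iff (two_ne_zero) |>.1 h1 with h3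
      exact h3
    unfold qt at h2
    apply f3
    linear_combination (-9 : ℂ) * h2
  -- the derivative of the first relation
  have e1 : ∀ᶠ y in 𝓝 v, 3 * XC (⊤ : Ideal (OO n t)) y ^ 2 * Xt n t y =
      3 * XC (⊤ : Ideal (OO n t)) y ^ 3 +
      A1 (⊤ : Ideal (OO n t)) ^ 2 * XC (⊤ : Ideal (OO n t)) y ^ 2 +
      3 * A1 (⊤ : Ideal (OO n t)) * A3 (⊤ : Ideal (OO n t)) * XC (⊤ : Ideal (OO n t)) y +
      3 * A3 (⊤ : Ideal (OO n t)) ^ 2 := by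
    filter_upwards [ev3 hv] with y hy
    exact (base hB1 hB2 hB3 hy).2.1
  have l1 := ((d1.pow 2).const_mul (3 : ℂ)).mul d2
  have r1 := ((((d1.pow 3).const_mul (3 : ℂ)).add ((d1.pow 2).const_mul
    (A1 (⊤ : Ideal (OO n t)) ^ 2))).add (d1.const_mul
    (3 * A1 (⊤ : Ideal (OO n t)) * A3 (⊤ : Ideal (OO n t))))).add_const
    (3 * A3 (⊤ : Ideal (OO n t)) ^ 2)
  have q1 := l1.unique (r1.congr_of_eventuallyEq e1)
  have hV3 : XC (⊤ : Ideal (OO n t)) v ^ 3 * Vt n t v = (XC (⊤ : Ideal (OO n t)) v ^ 3 -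
      A1 (⊤ : Ideal (OO n t)) * A3 (⊤ : Ideal (OO n t)) * XC (⊤ : Ideal (OO n t)) v -
      2 * A3 (⊤ : Ideal (OO n t)) ^ 2) * WC (⊤ : Ideal (OO n t)) v := by
    apply mul_left_cancel₀ f1
    simp only [Pi.pow_apply] at q1
    generalize XC (⊤ : Ideal (OO n t)) v = x at q1 hX ⊢
    generalize WC (⊤ : Ideal (OO n t)) v = w at q1 ⊢
    generalize fr (⊤ : Ideal (OO n t)) = p at q1 ⊢
    norm_num at q1
    linear_combination (x / 3) * q1 - (2 / 3 * p * w) * hX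
  have hV2 := alg_V2 hx hX hV3 hW2 rfl
  -- the derivative of the second relation
  have e2 : ∀ᶠ y in 𝓝 v, 9 * XC (⊤ : Ideal (OO n t)) (3 * y) * Xt n t y ^ 2 = Xt n t y ^ 3 -
      A1 (⊤ : Ideal (OO n t)) ^ 2 * Xt n t y ^ 2 -
      3 * A1 (⊤ : Ideal (OO n t)) * qt n t * Xt n t y - 3 * qt n t ^ 2 := by
    filter_upwards [ev3 hv] with y hy
    exact (base hB1 hB2 hB3 hy).2.2
  have l2 := (d3.const_mul (9 : ℂ)).mul (d2.pow 2)
  have r2 := (((d2.pow 3).sub ((d2.pow 2).const_mul (A1 (⊤ : Ideal (OO n t)) ^ 2))).sub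
    (d2.const_mul (3 * A1 (⊤ : Ideal (OO n t)) * qt n t))).sub_const (3 * qt n t ^ 2)
  have q2 := l2.unique (r2.congr_of_eventuallyEq e2)
  have hE : 27 * WC (⊤ : Ideal (OO n t)) (3 * v) * Xt n t v ^ 3 = Vt n t v * (Xt n t v ^ 3 +
      3 * A1 (⊤ : Ideal (OO n t)) * qt n t * Xt n t v + 6 * qt n t ^ 2) := by
    apply mul_left_cancel₀ f1
    simp only [Pi.pow_apply] at q2
    generalize Xt n t v = X at q2 hD ⊢
    generalize Vt n t v = V at q2 ⊢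
    generalize fr (⊤ : Ideal (OO n t)) = p at q2 ⊢
    norm_num at q2
    linear_combination X * q2 - (2 * p * V) * hD
  exact alg_G hX0 rfl hV2 hD hE

end main

open DN.F.Gt in
/-- **The function `G`.** -/
theorem isG3 (hB1 : S_B1) (hB2 : S_B2) (hB3 : S_B3) (n t : ℕ) [SqN n t] : IsG3 n t (G3 n t) := by
  have hn : (⊤ : Ideal (OO n t)) ≠ ⊥ := Eb.ne_top
  have hb := hB1 n t ⊤ hn
  have h1 : Meromorphic (wpC (⊤ : Ideal (OO n t))) := (LP ⊤).meromorphic_weierstrassP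
  have h2 : Meromorphic (wdC (⊤ : Ideal (OO n t))) := (LP ⊤).meromorphic_derivWeierstrassP
  have mX : Meromorphic (XC (⊤ : Ideal (OO n t))) := fun z =>
    ((h1 z).sub (MeromorphicAt.const _ z)).div (MeromorphicAt.const _ z)
  have mW : Meromorphic (WC (⊤ : Ideal (OO n t))) := fun z =>
    (h2 z).div (MeromorphicAt.const _ z)
  have sh : ∀ (F : ℂ → ℂ) (c z : ℂ), Meromorphic F → MeromorphicAt (fun y => F (y + c)) z := by
    intro F c z hF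
    have h3 : AnalyticAt ℂ (fun y : ℂ => y + c) z := analyticAt_id.add analyticAt_const
    have h4 : MeromorphicAt (F ∘ fun y : ℂ => y + c) z :=
      MeromorphicAt.comp_analyticAt (hF (z + c)) h3
    exact h4
  have mXt : Meromorphic (Xt n t) := fun z =>
    (((mX z).add (sh _ _ z mX)).add (sh _ _ z mX)).add (MeromorphicAt.const _ z)
  have mVt : Meromorphic (Vt n t) := fun z =>
    ((mW z).add (sh _ _ z mW)).add (sh _ _ z mW)
  have pX : ∀ (v l : ℂ), l ∈ Lam (⊤ : Ideal (OO n t)) →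
      XC (⊤ : Ideal (OO n t)) (v + l) = XC (⊤ : Ideal (OO n t)) v ∧
      WC (⊤ : Ideal (OO n t)) (v + l) = WC (⊤ : Ideal (OO n t)) v := by
    intro v l hl
    have h := hb.1 v l hl
    unfold XC WC
    rw [h.1, h.2]
    exact ⟨rfl, rfl⟩
  have per : ∀ (v l : ℂ), l ∈ Lam (⊤ : Ideal (OO n t)) →
      Xt n t (v + l) = Xt n t v ∧ Vt n t (v + l) = Vt n t v := by
    intro v l hl
    have e1 : v + l + 1 / 3 = v + 1 / 3 + l := by ring
    have e2 : v + l + 2 / 3 = v + 2 / 3 + l := by ring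
    unfold Xt Vt
    rw [e1, e2, (pX v l hl).1, (pX v l hl).2, (pX _ l hl).1, (pX _ l hl).2, (pX _ l hl).1,
      (pX _ l hl).2]
    exact ⟨rfl, rfl⟩
  have thi : ∀ v : ℂ, Xt n t (v + 1 / 3) = Xt n t v ∧ Vt n t (v + 1 / 3) = Vt n t v := by
    intro v
    have e1 : v + 1 / 3 + 1 / 3 = v + 2 / 3 := by ring
    have e2 : v + 1 / 3 + 2 / 3 = v + 1 := by ring
    unfold Xt Vt
    rw [e1, e2, (pX v 1 lam_one).1, (pX v 1 lam_one).2]
    exact ⟨by ring, by ring⟩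
  refine ⟨fun z => ?_, fun v hv => cube hB1 hB2 hB3 hv, fun v α => ?_, fun v => ?_⟩
  · exact ((((mVt z).sub ((MeromorphicAt.const _ z).mul (mXt z)))).sub
      (MeromorphicAt.const _ z)).div ((MeromorphicAt.const _ z).mul (mXt z))
  · have h := per v (toC α) (lam_top.2 ⟨α, rfl⟩)
    unfold G3
    rw [h.1, h.2]
  · unfold G3
    rw [(thi v).1, (thi v).2]

end Pool.Agent.DM.F.Gt3
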