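import Pool.Agent.Lib.DM.F.Tan
import Pool.Agent.Lib.DM.F.SpecG
import Pool.Agent.Lib.DK.B.Scl
import Pool.Agent.Lib.DI.F.PsiExp

/-!
# Theorem DM, part F: the lattice `fr(1) O`; the function `u = fr(1) C` of `q`
-/

set_option autoImplicit false

open scoped Pointwise Topology MatrixGroups
open Filter

noncomputable section

namespace Pool.Agent.DM.F

open Pool.Agent.MuZ Pool.Agent.FW NumberField IsDedekindDomain Pool.Agent.DN Pool.Agent.DN.F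
open Pool.Agent.DI (io ofC io_inj exists_io io_ofC ofC_io VP MP UP TP ex)
open Pool.Agent.DI.F (tay Co Cf P0 P1)
open Pool.Agent.DI.F.PsiExpAux (pmap_inj norm_ex ex_ne exists_ex)

/-- The lattice `fr(1) O`. -/
theorem tLaF (hB1 : S_B1) (hR1 : S_R1) (n t : ℕ) [SqN n t] : fr (⊤ : Ideal (OO n t)) ≠ 0 ∧
    ∃ Λ : PeriodPair, io (a4O n t) = -Λ.g₂ / 4 ∧ io (a6O n t) = -Λ.g₃ / 4 ∧
      (∀ z : ℂ, z ∈ Lam (⊤ : Ideal (OO n t)) ↔ fr (⊤ : Ideal (OO n t)) * z ∈ Λ.lattice) ∧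
      ∀ z : ℂ, Λ.weierstrassP (fr (⊤ : Ideal (OO n t)) * z) =
          wpC (⊤ : Ideal (OO n t)) z / fr (⊤ : Ideal (OO n t)) ^ 2 ∧
        Λ.derivWeierstrassP (fr (⊤ : Ideal (OO n t)) * z) =
          wdC (⊤ : Ideal (OO n t)) z / fr (⊤ : Ideal (OO n t)) ^ 3 := by
  have ht : (⊤ : Ideal (OO n t)) ≠ ⊥ := Eb.ne_top
  obtain ⟨hφ0, h4, h6, -⟩ := tan_io hB1 hR1 n t
  refine ⟨hφ0, ?_⟩
  obtain ⟨φ, hφ⟩ : ∃ φ, φ = fr (⊤ : Ideal (OO n t)) := ⟨_, rfl⟩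
  rw [← hφ] at hφ0 h4 h6 ⊢
  obtain ⟨Λ, hΛ⟩ := DKB.tScl.2.2 (LP (⊤ : Ideal (OO n t))) φ⁻¹ (inv_ne_zero hφ0)
  obtain ⟨s1, s2, -, g2, g3⟩ :=
    DKB.tScl.1 (LP (⊤ : Ideal (OO n t))) Λ φ⁻¹ (inv_ne_zero hφ0) hΛ
  have hlat : ∀ z : ℂ, z ∈ Lam (⊤ : Ideal (OO n t)) ↔ φ * z ∈ Λ.lattice := by
    intro z
    have h := hΛ (φ * z)
    rw [inv_mul_cancel_left₀ hφ0] at h
    have h4 : φ * z ∈ Λ.lattice ↔ z ∈ (LP (⊤ : Ideal (OO n t))).lattice := h
    rw [h4]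
    have h5 := aL1 n t ⊤ ht
    rw [← h5]
    exact Iff.rfl
  refine ⟨Λ, ?_, ?_, hlat, fun z => ⟨?_, ?_⟩⟩
  · rw [g2, h4, inv_pow]
    field_simp
  · rw [g3, h6, inv_pow]
    field_simp
  · have h := s1 (φ * z)
    rw [inv_mul_cancel_left₀ hφ0] at h
    have h4 : Λ.weierstrassP (φ * z) = φ⁻¹ ^ 2 * wpC (⊤ : Ideal (OO n t)) z := h
    rw [h4, inv_pow, div_eq_inv_mul]
  · have h := s2 (φ * z)
    rw [inv_mul_cancel_left₀ hφ0] at h
    have h4 : Λ.derivWeierstrassP (φ * z) = φ⁻¹ ^ 3 * wdC (⊤ : Ideal (OO n t)) z := h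
    rw [h4, inv_pow, div_eq_inv_mul]

private theorem uC_ex (z : ℂ) : ex (-(starRingEnd ℂ) z) = (starRingEnd ℂ) (ex z) := by
  unfold ex
  rw [← Complex.exp_conj]
  congr 1
  simp only [map_mul, Complex.conj_I, Complex.conj_ofReal, map_ofNat]
  ring

/-- The function `u = fr(1) C` of `q`. -/
theorem tuC (hLead : S_Lead) (hB7 : S_B7) (n t : ℕ) [Ine3 n t] (f : ℕ) (m : Ideal (OO n t))
    (R : Finset (Ideal (OO n t))) (hm : FM f m) (hR : FR f R) (hRC : IsRC (3 * f) R)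
    (σ : Ideal (OO n t) → Gal(Om/ℚ)) (hσ : IsSig n t f σ) (c : Gal(Om/ℚ)) (hc : IsCj c) (s : ℤ)
    (N0 : ℕ) (β : Om) (hβ : β ∈ Kf n t f (3 * f)) (h1ne : cF f s m R σ c N0 β 1 ≠ 0)
    (L : IntermediateField ℚ Om) (hL : ∀ j, cF f s m R σ c N0 β j ∈ L) :
    ∃ uC : ℂ → ℂ, Co (L.toSubfield.map io) uC ∧ uC 0 = 0 ∧ deriv uC 0 ≠ 0 ∧
      tay uC = PowerSeries.map io (uF f s m R σ c N0 β) ∧
      ∀ z : ℂ, 0 < z.im → uC (ex z) = fr (⊤ : Ideal (OO n t)) * CF f s m R σ N0 β z := by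
  obtain ⟨-, ha0, hsum, -⟩ := hLead n t f m R hm hR hRC σ hσ N0 β hβ
  have b4 := (hB7 n t (⊤ : Ideal (OO n t)) Eb.ne_top (Eb.pri_top 2)).2.2.2.1
  rw [cjI_top] at b4
  have hcj : ∀ x : Om, io (c x) = (starRingEnd ℂ) (io x) := hc
  have hsum' : ∀ z : ℂ, 0 < z.im →
      HasSum (fun j : ℕ => io (cF f s m R σ c N0 β j) * ex z ^ j)
        (fr (⊤ : Ideal (OO n t)) * CF f s m R σ N0 β z) := by
    intro z hz
    have hz' : 0 < (-(starRingEnd ℂ) z).im := by simpa using hz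
    have h1 := hsum z hz
    have h2 := ((Complex.hasSum_conj' ).2 (hsum _ hz')).mul_left (s : ℂ)
    have e1 : (fun j : ℕ => (s : ℂ) * (starRingEnd ℂ)
        (io (aF f m R σ N0 β j) * ex (-(starRingEnd ℂ) z) ^ j)) =
        fun j : ℕ => (s : ℂ) * (io (c (aF f m R σ N0 β j)) * ex z ^ j) := by
      funext j
      rw [map_mul, map_pow, uC_ex, Complex.conj_conj, hcj]
    have e2 : (starRingEnd ℂ) (fr (⊤ : Ideal (OO n t)) * AF f m R σ N0 β (-(starRingEnd ℂ) z)) =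
        fr (⊤ : Ideal (OO n t)) * (starRingEnd ℂ) (AF f m R σ N0 β (-(starRingEnd ℂ) z)) := by
      rw [map_mul, b4]
    rw [e1, e2] at h2
    have h3 := h1.sub h2
    have e3 : (fun j : ℕ => io (aF f m R σ N0 β j) * ex z ^ j -
        (s : ℂ) * (io (c (aF f m R σ N0 β j)) * ex z ^ j)) =
        fun j : ℕ => io (cF f s m R σ c N0 β j) * ex z ^ j := by
      funext j
      unfold cF
      rw [map_sub, map_mul, map_intCast]
      ring
    rw [e3] at h3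
    unfold CF
    have e4 : fr (⊤ : Ideal (OO n t)) * (AF f m R σ N0 β z -
        s * (starRingEnd ℂ) (AF f m R σ N0 β (-(starRingEnd ℂ) z))) =
        fr (⊤ : Ideal (OO n t)) * AF f m R σ N0 β z - s * (fr (⊤ : Ideal (OO n t)) *
          (starRingEnd ℂ) (AF f m R σ N0 β (-(starRingEnd ℂ) z))) := by ring
    rw [e4]
    exact h3
  have hc' : ∀ j : ℕ, PowerSeries.coeff j (uF f s m R σ c N0 β) = cF f s m R σ c N0 β j := fun j =>
    PowerSeries.coeff_mk j _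
  have hc0 : cF f s m R σ c N0 β 0 = 0 := by
    unfold cF
    rw [ha0, map_zero, mul_zero, sub_zero]
  let uC : ℂ → ℂ := fun q => ∑' j : ℕ, io (cF f s m R σ c N0 β j) * q ^ j
  have hz : ∀ z : ℂ, 0 < z.im → uC (ex z) = fr (⊤ : Ideal (OO n t)) * CF f s m R σ N0 β z :=
    fun z hz => (hsum' z hz).tsum_eq
  have h0 : HasSum (fun j : ℕ => io (cF f s m R σ c N0 β j) * (0 : ℂ) ^ j) 0 := by
    have e : (fun j : ℕ => io (cF f s m R σ c N0 β j) * (0 : ℂ) ^ j) = fun _ => 0 := by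
      funext j
      rcases Nat.eq_zero_or_pos j with rfl | hj
      · rw [hc0, map_zero, zero_mul]
      · rw [zero_pow hj.ne', mul_zero]
    rw [e]
    exact hasSum_zero
  have hu0 : uC 0 = 0 := h0.tsum_eq
  have hev : ∀ᶠ q in 𝓝 (0 : ℂ),
      HasSum (fun j : ℕ => PowerSeries.coeff j (PowerSeries.map io (uF f s m R σ c N0 β)) * q ^ j)
        (uC q) := by
    filter_upwards [Metric.ball_mem_nhds (0 : ℂ) one_pos] with q hq
    rw [mem_ball_zero_iff] at hq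
    simp only [PowerSeries.coeff_map, hc']
    rcases eq_or_ne q 0 with rfl | hq0
    · rw [hu0]
      exact h0
    · obtain ⟨z, hz1, rfl⟩ := exists_ex q hq0 hq
      rw [hz z hz1]
      exact hsum' z hz1
  obtain ⟨ha, htt⟩ := DI.F.tTay.2.1 uC _ hev
  refine ⟨uC, ⟨ha, fun j => ?_⟩, hu0, ?_, htt, hz⟩
  · rw [htt, PowerSeries.coeff_map, hc']
    exact ⟨_, hL j, rfl⟩
  · have h5 : PowerSeries.coeff 1 (tay uC) = deriv uC 0 := by
      unfold tay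
      rw [PowerSeries.coeff_mk, iteratedDeriv_one]
      simp
    rw [← h5, htt, PowerSeries.coeff_map, hc']
    intro h6
    rw [← map_zero io] at h6
    exact h1ne (io_inj h6)

end Pool.Agent.DM.F
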