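import Pool.Agent.Lib.DM.F.Base
import Pool.Agent.Lib.DN.F.Lin
import Pool.Agent.Lib.DI.F.VPB

/-!
# Theorem DM (`p = 3`, `3` inert), part F: `S_F1` (statements of the modules), author helper79

Adaptations of the modules `DN/F/<Name>.lean` (helper12). The module `DM/F/<Name>.lean` proves `t<Name> : S_<Name>`; all
are written by helper79.
-/

set_option autoImplicit false
set_option linter.unusedSectionVars false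

open scoped Pointwise Topology MatrixGroups
open Filter

noncomputable section

namespace Pool.Agent.DM.F

open Pool.Agent.MuZ Pool.Agent.FW NumberField IsDedekindDomain Pool.Agent.DN Pool.Agent.DN.F
open Pool.Agent.DI (io ofC io_inj exists_io io_ofC ofC_io VP MP UP TP ex)

variable {n t : ℕ}

/-- MODULE `KP`. THE FIELD `K` AT THE PRIMES ABOVE `3`. -/
def S_KP : Prop := ∀ (n t : ℕ) [Ine3 n t] (P : Ideal ZZ), Ab3 P →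
  (∀ x ∈ KQ n t, VP P x → ∃ v : OO n t, MP P (x - toO v)) ∧
  (∀ v : OO n t, MP P (toO v) ↔ (3 : OO n t) ∣ v) ∧
  ∀ x ∈ KQ n t, VP P x → ∃ N : ℕ, ¬ 3 ∣ N ∧ ∃ v : OO n t, (N : Om) * x = toO v

/-- MODULE `Od`. CLASSES MODULO `f` OF IDEALS PRIME TO `3 f`. -/
def S_Od : Prop := ∀ (n t : ℕ) [Ine3 n t] (f : ℕ), Fok f → ∀ b b' : Ideal (OO n t), FB f b →
  FB f b' → Ray f b b' → ∃ α α' : OO n t, α ≠ 0 ∧ α' ≠ 0 ∧ Cop α 3 ∧ Cop α' 3 ∧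
    (f : OO n t) ∣ α - 1 ∧ (f : OO n t) ∣ α' - 1 ∧ sp α * b = sp α' * b'

/-- MODULE `TmF` (from `S_Tm`, `S_Od`). THE CLASSES MODULO `3 f` IN A CLASS MODULO `f`. -/
def S_TmF : Prop := ∀ (n t : ℕ) [Ine3 n t] (f : ℕ), Fok f →
  (∀ α ∈ tm n t f, α ≠ 0 ∧ (f : OO n t) ∣ α - 1 ∧ Cop α 3 ∧ Cop α (3 * f)) ∧
  (∀ (A : Type) [AddCommMonoid A] (F : Ideal (OO n t) → A),
    (∀ b b', FB f b → FB f b' → Ray (3 * f) b b' → F b = F b') →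
    (∀ R R2 : Finset (Ideal (OO n t)), IsRC f R → FR f R → IsRC (3 * f) R2 →
      ∑ b ∈ R2, F b = ∑ b ∈ R, ∑ α ∈ tm n t f, F (sp α * b)) ∧
    ∀ b b' : Ideal (OO n t), FB f b → FB f b' → Ray f b b' →
      ∑ α ∈ tm n t f, F (sp α * b) = ∑ α ∈ tm n t f, F (sp α * b')) ∧
  ∀ b : Ideal (OO n t), Ray f b ⊤ → FB f b → ∃ α ∈ tm n t f, Ray (3 * f) b (sp α)

/-- MODULE `Gc`. GALOIS ACTION ON `κ`, `fr`. -/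
def S_Gc : Prop := ∀ (n t : ℕ) [Ine3 n t] (f : ℕ), Fok f →
  (∀ τ ∈ GK n t, ∀ a : Ideal (OO n t), Psi τ (3 * f) a → ∀ b : Ideal (OO n t), FB f b →
    τ (kp b) = kp (a * b) ∧ ∀ b' : Ideal (OO n t), FB f b' → τ (rO b b') = rO (a * b) (a * b')) ∧
  (∀ b b' : Ideal (OO n t), FB f b → FB f b' → Ray (3 * f) b b' → kp b = kp b') ∧
  kp (⊤ : Ideal (OO n t)) ∈ Kf n t f (3 * f) ∧
  (∀ b : Ideal (OO n t), FB f b → rO ⊤ b ∈ Kf n t f f ∧ rO b b = 1 ∧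
    (∀ a : Ideal (OO n t), FB f a → ∀ Q : Ideal ZZ, Ab3 Q → UP Q (rO a (b * a))) ∧
    (∀ b' b'' : Ideal (OO n t), FB f b' → FB f b'' → rO b b' * rO b' b'' = rO b b'') ∧
    ∀ α : OO n t, α ≠ 0 → (f : OO n t) ∣ α - 1 → rO b (sp α * b) = toO α) ∧
  ∀ σ : Ideal (OO n t) → Gal(Om/ℚ), IsSig n t f σ → ∀ N : ℕ, (N = f ∨ N = 3 * f) →
    ∀ x ∈ Kf n t f N, (∀ b b' : Ideal (OO n t), FB f b → FB f b' → Ray N b b' → σ b x = σ b' x) ∧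
      ∀ τ ∈ GK n t, ∀ a : Ideal (OO n t), Psi τ (3 * f) a → ∀ b : Ideal (OO n t), FB f b →
        τ (σ b x) = σ (a * b) x ∧ σ b (τ x) = σ (a * b) x

/-- MODULE `YE`. THE NUMBERS `yE`. -/
def S_YE : Prop := ∀ (n t : ℕ) [Ine3 n t] (f M k : ℕ) (m : Ideal (OO n t)) (R : Finset (Ideal (OO n t))),
  FM f m → FR f R → IsLv f m R M → (k = 1 ∨ k = 2 ∨ k = 3) → ∀ r : ℚ, r.den.Coprime M →
    yE f k m ⊤ r ∈ Kf n t f f ∧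
    (∀ Q : Ideal ZZ, Ab3 Q → ∀ τ ∈ GK n t, VP Q (τ (yE f k m ⊤ r))) ∧
    (∀ τ ∈ GK n t, ∀ a : Ideal (OO n t), Psi τ (3 * f) a → τ (yE f k m ⊤ r) = yE f k m a r) ∧
    ∀ P : Ideal ZZ, Ab3 P → ∀ b ∈ R, VP P (yE f k m b r) ∧
      MP P (yE f k m b r - (kp b / w8) ^ k * (w8 ^ k / 3 * etE P f k m b r))

/-- The numbers `w_g`. -/
def wg {n t : ℕ} (f k : ℕ) (s : ℤ) (m : Ideal (OO n t)) (b d : ℤ) : Om :=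
  (yE f k m ⊤ (3 * b / d) - yE f k m ⊤ 0) + s * (yE f k m ⊤ (-(3 * b / d)) - yE f k m ⊤ 0)

/-- `κ_b = χ(b) (fr(b)/fr(1)) (κ(b)/w8)^(-k)`. -/
def kpp {n t : ℕ} (k : ℕ) (χ : Ideal (OO n t) → Om) (b : Ideal (OO n t)) : Om :=
  χ b * rO ⊤ b * ((kp b / w8) ^ k)⁻¹

/-- `x x^(-9 k)`. -/
def pk (k : ℕ) (x : Om) : Om := x * x⁻¹ ^ (9 * k)

/-- MODULE `Kap`. THE NUMBERS `kpp`. -/
def S_Kap : Prop := ∀ (n t : ℕ) [Ine3 n t] (f k : ℕ), Fok f → ∀ χ : Ideal (OO n t) → Om,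
  IsChi (3 * f) χ → ∀ P : Ideal ZZ, Ab3 P → (k = 1 ∨ k = 2 ∨ k = 3) → Ty P f χ (k - 1) →
  (∀ b : Ideal (OO n t), FB f b → UP P (χ b) ∧ UP P (kpp k χ b)) ∧
  (∀ a b : Ideal (OO n t), FB f a → FB f b →
    MP P (kpp k χ (a * b) - χ a * pk k (rO b (a * b)) * kpp k χ b)) ∧
  ∀ b b' : Ideal (OO n t), FB f b → FB f b' → Ray f b b' → MP P (kpp k χ b - kpp k χ b')

/-- MODULE `Sm`. THE SUMS WITH `χ`. -/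
def S_Sm : Prop := ∀ (n t : ℕ) [Ine3 n t] (f M k e : ℕ) (m : Ideal (OO n t)) (R : Finset (Ideal (OO n t))),
  FM f m → FR f R → IsRC f R → IsLv f m R M → ∀ χ : Ideal (OO n t) → Om, IsChi (3 * f) χ →
  ∀ P : Ideal ZZ, Ab3 P → (k = 1 ∨ k = 2 ∨ k = 3) → Ty P f χ (k - 1) →
  ∀ σ : Ideal (OO n t) → Gal(Om/ℚ), IsSig n t f σ → ∀ s : ℤ, s = (-1) ^ e →
    ∀ a b c d : ℤ, G0 (9 * M) a b c d → (9 * M : ℤ) ∣ d - 1 →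
    MP P (xs P f k e m R χ (3 * b / d) - xs P f k e m R χ 0) →
    ∀ τ ∈ GK n t, ∀ a' : Ideal (OO n t), Psi τ (3 * f) a' →
      MP P (∑ b' ∈ R, kpp k χ b' * σ b' (pk k (rO ⊤ a') * τ (wg f k s m b d)))

/-- MODULE `Bet`. THE ELEMENT `β`. -/
def S_Bet : Prop := ∀ (n t : ℕ) [Ine3 n t] (f : ℕ) (R : Finset (Ideal (OO n t))), Fok f →
  FR f R → IsRC f R → ∀ P : Ideal ZZ, Ab3 P → ∀ σ : Ideal (OO n t) → Gal(Om/ℚ), IsSig n t f σ →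
  ∀ (κ : Ideal (OO n t) → Om) (S : Set Om), (∀ b ∈ R, UP P (κ b)) →
  (∀ w ∈ S, w ∈ Kf n t f f ∧ ∀ Q : Ideal ZZ, Ab3 Q → ∀ τ ∈ GK n t, VP Q (τ w)) →
  (∀ τ ∈ GK n t, ∃ μ ∈ Kf n t f f, (∀ Q : Ideal ZZ, Ab3 Q → ∀ τ' ∈ GK n t, UP Q (τ' μ)) ∧
    ∀ w ∈ S, μ * τ w ∈ S) →
  (∀ w ∈ S, MP P (∑ b ∈ R, κ b * σ b w)) →
  ∀ b1 ∈ R, ∃ β ∈ Kf n t f f, UP P (σ b1 β) ∧
    (∀ Q : Ideal ZZ, Ab3 Q → ∀ τ ∈ GK n t, VP Q (τ β)) ∧ ∀ w ∈ S, MP P (∑ b ∈ R, σ b (β * w))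

/-- `β = κ(1)^k β₀/3`. -/
def bet (n t k : ℕ) (β₀ : Om) : Om := kp (⊤ : Ideal (OO n t)) ^ k * β₀ / 3

/-- The period. -/
def perA {n t : ℕ} (f k : ℕ) (m : Ideal (OO n t)) (R : Finset (Ideal (OO n t)))
    (σ : Ideal (OO n t) → Gal(Om/ℚ)) (β₀ : Om) (b d : ℤ) : Om :=
  ∑ b' ∈ R, σ b' (β₀ * (yE f k m ⊤ (3 * b / d) - yE f k m ⊤ 0))

/-- MODULE `Pa`. THE PERIODS OF `A`. -/
def S_Pa : Prop := ∀ (n t : ℕ) [Ine3 n t] (f M k : ℕ) (m : Ideal (OO n t)) (R R2 : Finset (Ideal (OO n t))),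
  FM f m → FR f R → IsRC f R → IsLv f m R M → FR f R2 → IsRC (3 * f) R2 → IsLv f m R2 M →
  (k = 1 ∨ k = 2 ∨ k = 3) → ∀ σ : Ideal (OO n t) → Gal(Om/ℚ), IsSig n t f σ → ∀ β₀ ∈ Kf n t f f,
  (∀ Q : Ideal ZZ, Ab3 Q → ∀ τ ∈ GK n t, VP Q (τ β₀)) →
  ∀ a b c' d : ℤ, G0 (9 * M) a b c' d → (9 * M : ℤ) ∣ d - 1 →
    (∀ z : ℂ, 0 < z.im → AF f m R2 σ 1 (bet n t k β₀) ((a * z + b) / (c' * z + d)) =
      AF f m R2 σ 1 (bet n t k β₀) z + io (perA f k m R σ β₀ b d)) ∧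
    perA f k m R σ β₀ b d ∈ KQ n t ∧ ∀ Q : Ideal ZZ, Ab3 Q → VP Q (perA f k m R σ β₀ b d)

/-- MODULE `Pb`. FINITELY MANY GENERATORS. -/
def S_Pb : Prop := ∀ (n t : ℕ) [Ine3 n t] (f M k : ℕ) (m : Ideal (OO n t)) (R R2 : Finset (Ideal (OO n t))),
  FM f m → FR f R → IsRC f R → IsLv f m R M → FR f R2 → IsRC (3 * f) R2 → IsLv f m R2 M →
  (k = 1 ∨ k = 2 ∨ k = 3) → ∀ P : Ideal ZZ, Ab3 P → ∀ σ : Ideal (OO n t) → Gal(Om/ℚ), IsSig n t f σ →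
  ∀ β₀ ∈ Kf n t f f, (∀ Q : Ideal ZZ, Ab3 Q → ∀ τ ∈ GK n t, VP Q (τ β₀)) →
  ∃ N0 : ℕ, ¬ 3 ∣ N0 ∧ ∀ a b c' d : ℤ, G0 (9 * M) a b c' d → (9 * M : ℤ) ∣ d - 1 → ∃ α : OO n t,
    (N0 : Om) * perA f k m R σ β₀ b d = toO α ∧
    ∀ z : ℂ, 0 < z.im → AF f m R2 σ N0 (bet n t k β₀) ((a * z + b) / (c' * z + d)) =
      AF f m R2 σ N0 (bet n t k β₀) z + toC α

end Pool.Agent.DM.F
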