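import Pool.Agent.Lib.DM.F.Base

/-!
# Theorem DM, part F: `S_Lead` (statements), author helper79

The modules `DM/F/<Name>.lean` (`Hm`, `Al`, `CoL`, `Has`, `V1a`, `V1b`, `Lead`) prove `t<Name> : S_<Name>`; they are
adaptations of `DN/F/<Name>.lean` (the modulus is `3 * f` here). All are written by helper79.
-/

set_option autoImplicit false
set_option linter.unusedSectionVars false

open scoped Pointwise Topology MatrixGroups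
open Filter

noncomputable section

namespace Pool.Agent.DM.F

open Pool.Agent.MuZ Pool.Agent.FW NumberField IsDedekindDomain Pool.Agent.DN Pool.Agent.DN.F
open Pool.Agent.DI (io ofC io_inj exists_io io_ofC ofC_io VP MP UP TP ex)

/-- MODULE `Hm` (from `S_B7`, `S_C7`). HOMOGENEITY. -/
def S_Hm : Prop := ∀ (n t : ℕ) [Ine3 n t] (f : ℕ) (m b : Ideal (OO n t)), FM f m → FB f b →
  ∀ α : OO n t, α ≠ 0 → ((3 * f : ℕ) : OO n t) ∣ α - 1 →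
    FB f (sp α * b) ∧ fr (sp α * b) = toC α * fr b ∧
    ∀ j : ℕ, cM (3 * f) m (sp α * b) j = toC α * cM (3 * f) m b j

/-- MODULE `Al` (from `S_C7`). THE COEFFICIENTS `cM` ARE IN `K`. -/
def S_Al : Prop := ∀ (n t : ℕ) [Ine3 n t] (f : ℕ) (m b : Ideal (OO n t)), FM f m → FB f b → ∀ j : ℕ,
  ofC (cM (3 * f) m b j) ∈ KQ n t ∧ io (ofC (cM (3 * f) m b j)) = cM (3 * f) m b j

/-- MODULE `CoL` (from `S_Kf`, `S_E10`, `S_R1`, `S_Hm`, `S_Al`). THE COEFFICIENTS ARE IN `Kf n t f (3 * f)`. -/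
def S_CoL : Prop := ∀ (n t : ℕ) [Ine3 n t] (f : ℕ) (m : Ideal (OO n t)) (R : Finset (Ideal (OO n t))),
  FM f m → IsRC (3 * f) R → ∀ σ : Ideal (OO n t) → Gal(Om/ℚ), IsSig n t f σ →
  ∀ (N0 : ℕ) (β : Om), β ∈ Kf n t f (3 * f) →
    (∀ b : Ideal (OO n t), FB f b → rO b ⊤ ∈ Kf n t f (3 * f)) ∧
    ∀ j : ℕ, aF f m R σ N0 β j ∈ Kf n t f (3 * f)

/-- MODULE `Has` (from `S_R1`, `S_C7`, `S_Al`). THE `q`-EXPANSION. -/
def S_Has : Prop := ∀ (n t : ℕ) [Ine3 n t] (f : ℕ) (m : Ideal (OO n t)) (R : Finset (Ideal (OO n t))),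
  FM f m → IsRC (3 * f) R → ∀ (σ : Ideal (OO n t) → Gal(Om/ℚ)) (N0 : ℕ) (β : Om),
    (∀ z : ℂ, 0 < z.im → HasSum (fun j : ℕ => io (aF f m R σ N0 β j) * ex z ^ j)
      (fr (⊤ : Ideal (OO n t)) * AF f m R σ N0 β z)) ∧ aF f m R σ N0 β 0 = 0

/-- MODULE `V1a` (from `S_C7`). THE SET `vN (3 f) c 1`, `c = m b`. -/
def S_V1a : Prop := ∀ (n t : ℕ) [Ine3 n t] (f : ℕ) (m b : Ideal (OO n t)), FM f m → FB f b →
  ∀ v ∈ vN (3 * f) (m * b) 1, ∃ x : OO n t, x ≠ 0 ∧ m * b = sp x ∧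
    ((3 * f : ℕ) : OO n t) ∣ x - 1 ∧ v = 1 / ((3 * f : ℕ) * toC x)

/-- MODULE `V1b` (from `S_C7`, `S_V1a`). THE SET `vN (3 f) c 1`, SECOND PART. -/
def S_V1b : Prop := ∀ (n t : ℕ) [Ine3 n t] (f : ℕ) (m b : Ideal (OO n t)), FM f m → FB f b →
  (vN (3 * f) (m * b) 1 ≠ ∅ → Ray (3 * f) (m * b) ⊤) ∧
  (Ray (3 * f) (m * b) ⊤ → ∃ x : OO n t, x ≠ 0 ∧ m * b = sp x ∧
    ((3 * f : ℕ) : OO n t) ∣ x - 1 ∧ vN (3 * f) (m * b) 1 = {1 / ((3 * f : ℕ) * toC x)} ∧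
    (m ≠ ⊤ → 1 / ((3 * f : ℕ) * toC x) - 1 / (3 * f : ℕ) ∉ Lam b))

/-! ## The framing -/

/-- The framing is not `0`. -/
theorem fr_ne (hR1 : S_R1) {n t : ℕ} [SqN n t] {b : Ideal (OO n t)} (hb : G30 b) : fr b ≠ 0 := by
  obtain ⟨h1, h2⟩ := ((hR1 n t).1 b hb).2.2.2 b hb
  intro h
  apply h2
  apply io_inj
  rw [h1, h, div_zero, map_zero]

/-- The quotients of the framings. -/
theorem rO_io (hR1 : S_R1) {n t : ℕ} [SqN n t] {b b' : Ideal (OO n t)} (hb : G30 b) (hb' : G30 b') :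
    io (rO b b') = fr b' / fr b := (((hR1 n t).1 b hb).2.2.2 b' hb').1

theorem rO_ne (hR1 : S_R1) {n t : ℕ} [SqN n t] {b b' : Ideal (OO n t)} (hb : G30 b) (hb' : G30 b') :
    rO b b' ≠ 0 := (((hR1 n t).1 b hb).2.2.2 b' hb').2

theorem rO_mul (hR1 : S_R1) {n t : ℕ} [SqN n t] {b b' : Ideal (OO n t)} (hb : G30 b) (hb' : G30 b') :
    rO b b' * rO b' b = 1 := by
  apply io_inj
  have h1 := fr_ne hR1 hb
  have h2 := fr_ne hR1 hb'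
  rw [map_mul, rO_io hR1 hb hb', rO_io hR1 hb' hb, map_one]
  field_simp

end Pool.Agent.DM.F
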