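import Pool.Agent.Lib.DM.F4.FH
import Pool.Agent.Lib.DI.F.Tay
import Pool.Agent.Lib.DI.F.Co
import Pool.Agent.Lib.DI.F.P01

set_option autoImplicit false

/-!
# Theorem DM (`p = 3`), part F: the functions `T = -x/y`, `W = -1/y` near `0`, `x = ℘`, `y = ℘'/2`, author helper79

The curve is `y² = x³ + a x + b`, `a = -g₂/4`, `b = -g₃/4`. `Ts`, `Ws`: extended to `0`. `tTWs`: power series expansions
with coefficients in a field; `tTWsc`: the same for `T(u(q))`, `W(u(q))`.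
-/

open Filter Topology

noncomputable section

namespace Pool.Agent.DM.F

open Pool.Agent.DI.F (tay Co Cf P0 P1)

/-- `T = -2 ℘/℘'`, extended to `0`. -/
def Ts (Λ : PeriodPair) (u : ℂ) : ℂ := -2 * u * P0 Λ u / P1 Λ u

/-- `W = -2/℘'`, extended to `0`. -/
def Ws (Λ : PeriodPair) (u : ℂ) : ℂ := -2 * u ^ 3 / P1 Λ u

private def TWs_tt (Λ : PeriodPair) (u : ℂ) : ℂ := (-2) * P0 Λ u * (P1 Λ u)⁻¹

private def TWs_ww (Λ : PeriodPair) (u : ℂ) : ℂ := (-2) * (P1 Λ u)⁻¹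

private theorem TWs_Ts_eq (Λ : PeriodPair) (u : ℂ) : Ts Λ u = u * TWs_tt Λ u := by
  unfold Ts TWs_tt
  rw [div_eq_mul_inv]
  ring

private theorem TWs_Ws_eq (Λ : PeriodPair) (u : ℂ) : Ws Λ u = u ^ 3 * TWs_ww Λ u := by
  unfold Ws TWs_ww
  rw [div_eq_mul_inv]
  ring

private theorem TWs_alg {x y w t a b : ℂ} (hy : y ≠ 0) (h : y ^ 2 = x ^ 3 + a * x + b)
    (hw : w = -1 / y) (ht : t = -x / y) : w = t ^ 3 + a * t * w ^ 2 + b * w ^ 3 := by
  subst hw ht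
  field_simp
  linear_combination (-1 : ℂ) * h

/-- The functions `T`, `W` near `0`. -/
theorem tTWs (Λ : PeriodPair) (k : Subfield ℂ) (m2 : Λ.g₂ ∈ k) (m3 : Λ.g₃ ∈ k) :
    Co k (Ts Λ) ∧ Co k (Ws Λ) ∧
    (∀ᶠ u in 𝓝 (0 : ℂ), Ws Λ u = Ts Λ u ^ 3 + (-Λ.g₂ / 4) * Ts Λ u * Ws Λ u ^ 2 +
      (-Λ.g₃ / 4) * Ws Λ u ^ 3) ∧
    (∀ᶠ u in 𝓝 (0 : ℂ), deriv (Ts Λ) u * Ws Λ u - Ts Λ u * deriv (Ws Λ) u = -(2 * Ws Λ u)) ∧
    (∃ tt ww : ℂ → ℂ, Co k tt ∧ Co k ww ∧ tt 0 = 1 ∧ ww 0 = 1 ∧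
      (∀ u, Ts Λ u = u * tt u) ∧ ∀ u, Ws Λ u = u ^ 3 * ww u) ∧
    (∀ᶠ u in 𝓝[≠] (0 : ℂ), u ∉ Λ.lattice ∧ Ws Λ u ≠ 0 ∧
      Λ.weierstrassP u = Ts Λ u / Ws Λ u ∧ Λ.derivWeierstrassP u / 2 = -1 / Ws Λ u) := by
  have hCo : Pool.Agent.DI.F.S_Co := Pool.Agent.DI.F.tCo Pool.Agent.DI.F.tTay
  have hP01 : Pool.Agent.DI.F.S_P01 := Pool.Agent.DI.F.tP01 Pool.Agent.DI.F.tTay hCo
  obtain ⟨⟨cc, cid⟩, c2, -, cinv, -, -, -⟩ := hCo k
  obtain ⟨p1, p2, p3, p4⟩ := hP01 Λ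
  have mm2 : (-2 : ℂ) ∈ k := neg_mem (ofNat_mem k 2)
  obtain ⟨hP0, hP1⟩ := p4 k m2 m3
  have cmul : ∀ {f g : ℂ → ℂ}, Co k f → Co k g → Co k fun q => f q * g q :=
    fun hf hg => (c2 _ _ hf hg).2.1
  have hD0' : P1 Λ 0 ≠ 0 := by rw [p3]; norm_num
  have hDi : Co k fun u => (P1 Λ u)⁻¹ := cinv _ hP1 hD0'
  have ht : Co k (TWs_tt Λ) := cmul (cmul (cc _ mm2) hP0) hDi
  have hw : Co k (TWs_ww Λ) := cmul (cc _ mm2) hDi
  have hT : Co k (Ts Λ) := by
    have e : Ts Λ = fun u => u * TWs_tt Λ u := funext (TWs_Ts_eq Λ)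
    rw [e]
    exact cmul cid ht
  have hW : Co k (Ws Λ) := by
    have e : Ws Λ = fun u => u * u * u * TWs_ww Λ u := by
      funext u
      rw [TWs_Ws_eq]
      ring
    rw [e]
    exact cmul (cmul (cmul cid cid) cid) hw
  have T0 : Ts Λ 0 = 0 := by rw [TWs_Ts_eq, zero_mul]
  have W0 : Ws Λ 0 = 0 := by rw [TWs_Ws_eq]; ring
  have evD : ∀ᶠ u in 𝓝 (0 : ℂ), P1 Λ u ≠ 0 := hP1.1.continuousAt.eventually_ne hD0'
  have evL : ∀ᶠ u in 𝓝 (0 : ℂ), u ∉ (Λ.lattice : Set ℂ) \ {0} :=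
    Λ.compl_lattice_sdiff_singleton_mem_nhds 0
  -- the last part
  have key : ∀ u : ℂ, u ≠ 0 → P1 Λ u ≠ 0 → Ws Λ u ≠ 0 ∧
      Λ.weierstrassP u = Ts Λ u / Ws Λ u ∧ Λ.derivWeierstrassP u / 2 = -1 / Ws Λ u := by
    intro u hu hd
    obtain ⟨q1, q2⟩ := p1 u hu
    have w0 : Ws Λ u ≠ 0 := by
      unfold Ws
      exact div_ne_zero (mul_ne_zero (by norm_num) (pow_ne_zero _ hu)) hd
    refine ⟨w0, ?_, ?_⟩
    · rw [eq_div_iff w0]
      unfold Ws Ts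
      rw [q1]
      field_simp
    · rw [eq_div_iff w0]
      unfold Ws
      rw [mul_div_assoc', div_eq_iff hd, q2]
      ring
  have evK : ∀ᶠ u in 𝓝[≠] (0 : ℂ), u ∉ Λ.lattice ∧ Ws Λ u ≠ 0 ∧
      Λ.weierstrassP u = Ts Λ u / Ws Λ u ∧ Λ.derivWeierstrassP u / 2 = -1 / Ws Λ u := by
    filter_upwards [evD.filter_mono nhdsWithin_le_nhds, evL.filter_mono nhdsWithin_le_nhds,
      self_mem_nhdsWithin] with u h1 h2 h3
    exact ⟨fun h => h2 ⟨h, h3⟩, key u h3 h1⟩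
  have evA : ∀ᶠ u in 𝓝 (0 : ℂ), AnalyticAt ℂ (Ws Λ) u := hW.1.eventually_analyticAt
  refine ⟨hT, hW, ?_, ?_, ⟨TWs_tt Λ, TWs_ww Λ, ht, hw, ?_, ?_, TWs_Ts_eq Λ, TWs_Ws_eq Λ⟩, evK⟩
  · -- the curve
    rw [eventually_nhdsWithin_iff] at evK
    filter_upwards [evK] with u h
    by_cases hu : u = 0
    · rw [hu, T0, W0]
      ring
    · obtain ⟨h1, h2, h3, h4⟩ := h hu
      have h5 := Λ.derivWeierstrassP_sq u h1
      have y0 : Λ.derivWeierstrassP u / 2 ≠ 0 := by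
        rw [h4]
        exact div_ne_zero (by norm_num) h2
      have hwy : Ws Λ u = -1 / (Λ.derivWeierstrassP u / 2) := by
        rw [h4]
        field_simp
      refine TWs_alg (x := Λ.weierstrassP u) y0 ?_ hwy ?_
      · linear_combination (1 / 4 : ℂ) * h5
      · have : Ts Λ u = Λ.weierstrassP u * Ws Λ u := by
          rw [h3]
          field_simp
        rw [this, hwy]
        ring
  · -- the derivative
    have evK2 : ∀ᶠ u in 𝓝 (0 : ℂ), u ≠ 0 → (∀ᶠ v in 𝓝 u, v ∉ Λ.lattice ∧ Ws Λ v ≠ 0 ∧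
        Λ.weierstrassP v = Ts Λ v / Ws Λ v ∧ Λ.derivWeierstrassP v / 2 = -1 / Ws Λ v) := by
      rw [eventually_nhdsWithin_iff] at evK
      filter_upwards [eventually_eventually_nhds.2 evK] with u h hu
      filter_upwards [h, isOpen_ne.mem_nhds hu] with v h1 h2
      exact h1 h2
    filter_upwards [evK2, evA] with u h hA
    by_cases hu : u = 0
    · rw [hu, T0, W0]
      ring
    · have h6 := h hu
      obtain ⟨h1, h2, h3, h4⟩ := h6.self_of_nhds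
      have hder : HasDerivAt Λ.weierstrassP (Λ.derivWeierstrassP u) u := by
        have a1 : AnalyticAt ℂ Λ.weierstrassP u := Λ.analyticOnNhd_weierstrassP u h1
        have a2 := a1.differentiableAt.hasDerivAt
        rwa [Λ.deriv_weierstrassP] at a2
      have hWd : HasDerivAt (Ws Λ) (deriv (Ws Λ) u) u := hA.differentiableAt.hasDerivAt
      have hTd : HasDerivAt (Ts Λ) (Λ.derivWeierstrassP u * Ws Λ u +
          Λ.weierstrassP u * deriv (Ws Λ) u) u := by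
        refine (hder.mul hWd).congr_of_eventuallyEq ?_
        filter_upwards [h6] with v hv
        obtain ⟨-, v2, v3, -⟩ := hv
        simp only [Pi.mul_apply]
        rw [v3]
        field_simp
      rw [hTd.deriv]
      have e1 : Ts Λ u = Λ.weierstrassP u * Ws Λ u := by
        rw [h3]
        field_simp
      rw [eq_div_iff h2] at h4
      rw [e1]
      linear_combination (2 * Ws Λ u) * h4
  · unfold TWs_tt
    rw [p3, p2]
    norm_num
  · unfold TWs_ww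
    rw [p3]
    norm_num

namespace TWs_Aux

/-- `f` is analytic at `0` with Taylor series `p` -/
private def Rep (f : ℂ → ℂ) (p : PowerSeries ℂ) : Prop := AnalyticAt ℂ f 0 ∧ tay f = p

private theorem Rep.add (h : DI.F.S_Tay) {f g : ℂ → ℂ} {p r : PowerSeries ℂ} (hf : Rep f p)
    (hg : Rep g r) : Rep (fun q => f q + g q) (p + r) :=
  ⟨hf.1.add hg.1, by rw [h.2.2.1 f g hf.1 hg.1, hf.2, hg.2]⟩

private theorem Rep.mul (h : DI.F.S_Tay) {f g : ℂ → ℂ} {p r : PowerSeries ℂ} (hf : Rep f p)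
    (hg : Rep g r) : Rep (fun q => f q * g q) (p * r) :=
  ⟨hf.1.mul hg.1, by rw [h.2.2.2.1 f g hf.1 hg.1, hf.2, hg.2]⟩

private theorem Rep.const (h : DI.F.S_Tay) (c : ℂ) : Rep (fun _ => c) (PowerSeries.C c) :=
  ⟨analyticAt_const, h.2.2.2.2.1.1 c⟩

private theorem Rep.deriv' (h : DI.F.S_Tay) {f : ℂ → ℂ} {p : PowerSeries ℂ} (hf : Rep f p) :
    Rep (deriv f) (PowerSeries.derivative ℂ p) :=
  ⟨hf.1.deriv, by rw [h.2.2.2.2.2.1 f hf.1, hf.2]⟩

private theorem Rep.eq (h : DI.F.S_Tay) {f g : ℂ → ℂ} {p r : PowerSeries ℂ} (hf : Rep f p)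
    (hg : Rep g r) (hfg : f =ᶠ[𝓝 0] g) : p = r := by
  rw [← hf.2, ← hg.2]
  exact h.2.2.2.2.2.2 f g hfg

private theorem coeff_zero_tay (f : ℂ → ℂ) : PowerSeries.coeff 0 (tay f) = f 0 := by
  simp [tay]

private theorem coeff_zero_mul' (p r : PowerSeries ℂ) :
    PowerSeries.coeff 0 (p * r) = PowerSeries.coeff 0 p * PowerSeries.coeff 0 r := by
  simp only [PowerSeries.coeff_zero_eq_constantCoeff_apply, map_mul]

end TWs_Aux

open TWs_Aux

/-- The Taylor series of `T(u(q))`, `W(u(q))`. -/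
theorem tTWsc (Λ : PeriodPair) (K : Subfield ℂ) (m2 : Λ.g₂ ∈ K) (m3 : Λ.g₃ ∈ K) (u : ℂ → ℂ)
    (hu : Co K u) (hu0 : u 0 = 0) :
    Co K (fun q => Ts Λ (u q)) ∧ Co K (fun q => Ws Λ (u q)) ∧
    _root_.DM.F4.TWr (-Λ.g₂ / 4) (-Λ.g₃ / 4) (tay u) (tay fun q => Ts Λ (u q))
      (tay fun q => Ws Λ (u q)) := by
  have hTay := DI.F.tTay
  have hCo := DI.F.tCo DI.F.tTay
  obtain ⟨hT, hW, hcurve, hdiff, ⟨t, w, ht, hw, ht0, hw0, hTt, hWw⟩, -⟩ := tTWs Λ K m2 m3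
  obtain ⟨a, ha⟩ : ∃ a, a = -Λ.g₂ / 4 := ⟨_, rfl⟩
  obtain ⟨b, hb⟩ : ∃ b, b = -Λ.g₃ / 4 := ⟨_, rfl⟩
  rw [← ha, ← hb] at hcurve ⊢
  have hcomp := (hCo K).2.2.2.2.1
  have hTu := hcomp _ _ hT hu hu0
  have hWu := hcomp _ _ hW hu hu0
  have htu := hcomp _ _ ht hu hu0
  refine ⟨hTu, hWu, ?_⟩
  have hcont : Tendsto u (𝓝 0) (𝓝 0) := by
    have h := hu.1.continuousAt
    rw [ContinuousAt, hu0] at h
    exact h
  have rT : Rep (fun q => Ts Λ (u q)) (tay fun q => Ts Λ (u q)) := ⟨hTu.1, rfl⟩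
  have rW : Rep (fun q => Ws Λ (u q)) (tay fun q => Ws Λ (u q)) := ⟨hWu.1, rfl⟩
  have ru : Rep u (tay u) := ⟨hu.1, rfl⟩
  have rt : Rep (fun q => t (u q)) (tay fun q => t (u q)) := ⟨htu.1, rfl⟩
  have r2 : Rep (fun _ => (-2 : ℂ)) (-2 : PowerSeries ℂ) := by
    have h := Rep.const hTay (-2)
    rwa [map_neg, map_ofNat] at h
  have ra := Rep.const hTay a
  have rb := Rep.const hTay b
  have h1 := hcont.eventually hcurve
  have h2 := hcont.eventually hdiff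
  -- products
  have eT := Rep.eq hTay rT (ru.mul hTay rt) (Eventually.of_forall fun q => hTt (u q))
  have c0 : PowerSeries.coeff 0 (tay u) = 0 := by rw [coeff_zero_tay, hu0]
  obtain ⟨p, hp⟩ : PowerSeries.X ∣ tay u := by
    rw [PowerSeries.X_dvd_iff, ← PowerSeries.coeff_zero_eq_constantCoeff_apply]
    exact c0
  have ct : PowerSeries.coeff 0 (tay fun q => t (u q)) = 1 := by
    rw [coeff_zero_tay, hu0, ht0]
  have eT' : (tay fun q => Ts Λ (u q)) = PowerSeries.X * (p * tay fun q => t (u q)) := by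
    rw [eT, hp]
    ring
  have c1 : PowerSeries.coeff 1 (tay u) = PowerSeries.coeff 0 p := by
    rw [hp, show (1 : ℕ) = 0 + 1 from rfl, PowerSeries.coeff_succ_X_mul]
  refine ⟨?_, ?_, ?_, ?_, ?_⟩
  · -- curve
    have hR := (((rT.mul hTay rT).mul hTay rT).add hTay (ra.mul hTay (rT.mul hTay
      (rW.mul hTay rW)))).add hTay (rb.mul hTay (rW.mul hTay (rW.mul hTay rW)))
    have h := Rep.eq hTay rW hR (h1.mono fun q hq => by
      simp only
      linear_combination hq)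
    linear_combination h
  · -- differential
    have hL := (rT.deriv' hTay).mul hTay rW
    have hR := (rT.mul hTay (rW.deriv' hTay)).add hTay
      ((r2.mul hTay rW).mul hTay (ru.deriv' hTay))
    have dT : ∀ᶠ q in 𝓝 (0 : ℂ),
        deriv (fun q => Ts Λ (u q)) q = deriv (Ts Λ) (u q) * deriv u q := by
      have a1 := hcont.eventually hT.1.eventually_analyticAt
      filter_upwards [a1, hu.1.eventually_analyticAt] with q hq1 hq2
      exact deriv_comp q hq1.differentiableAt hq2.differentiableAt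
    have dW : ∀ᶠ q in 𝓝 (0 : ℂ),
        deriv (fun q => Ws Λ (u q)) q = deriv (Ws Λ) (u q) * deriv u q := by
      have a1 := hcont.eventually hW.1.eventually_analyticAt
      filter_upwards [a1, hu.1.eventually_analyticAt] with q hq1 hq2
      exact deriv_comp q hq1.differentiableAt hq2.differentiableAt
    have h := Rep.eq hTay hL hR (by
      filter_upwards [h2, dT, dW] with q hq hq1 hq2
      simp only [hq1, hq2]
      linear_combination (deriv u q) * hq)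
    linear_combination h
  · rw [coeff_zero_tay, hu0, hTt 0, zero_mul]
  · rw [c1, eT', show (1 : ℕ) = 0 + 1 from rfl, PowerSeries.coeff_succ_X_mul, coeff_zero_mul', ct,
      mul_one]
  · rw [coeff_zero_tay, hu0, hWw 0]
    ring

end Pool.Agent.DM.F
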