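import Pool.Agent.Lib.DM.F.Base
import Pool.Agent.Lib.DN.B.All
import Pool.Agent.Lib.DM.F.Gt3

/-!
# Theorem DM, part F, module `Tan`: the numbers `a4O`, `a6O`, `xtO`, `ytO`, `lamO`, `nuO`
-/

set_option autoImplicit false
set_option linter.unusedSectionVars false

open scoped Pointwise Topology
open Filter

noncomputable section

namespace Pool.Agent.DM.F

open Pool.Agent.MuZ Pool.Agent.FW NumberField IsDedekindDomain Pool.Agent.DN Pool.Agent.DN.F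
open Pool.Agent.DI (io ofC io_inj exists_io io_ofC ofC_io VP MP UP TP ex)

theorem tor_third (n t : ℕ) : Tor n t (1 / 3 : ℂ) := ⟨1, 3, by norm_num, by rw [toC_one]; norm_num⟩

/-- `℘'(1/3) ≠ 0`. -/
theorem wd3_ne (n t : ℕ) [SqN n t] : wdC (⊤ : Ideal (OO n t)) (1 / 3) ≠ 0 := by
  obtain ⟨-, -, -, -, -, b6⟩ := DN.aB1 n t (⊤ : Ideal (OO n t)) Eb.ne_top
  obtain ⟨-, h3, -⟩ := b6 (Eb.pri_top 15)
  intro h
  apply h3
  unfold A3 DN.WC
  rw [h, zero_div]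

/-- The numbers in `ℂ`. -/
theorem tan_io (hB1 : S_B1) (hR1 : S_R1) (n t : ℕ) [SqN n t] :
    fr (⊤ : Ideal (OO n t)) ≠ 0 ∧
    io (a4O n t) = -(LP (⊤ : Ideal (OO n t))).g₂ / (4 * fr (⊤ : Ideal (OO n t)) ^ 4) ∧
    io (a6O n t) = -(LP (⊤ : Ideal (OO n t))).g₃ / (4 * fr (⊤ : Ideal (OO n t)) ^ 6) ∧
    io (xtO n t) = wpC (⊤ : Ideal (OO n t)) (1 / 3) / fr (⊤ : Ideal (OO n t)) ^ 2 ∧
    io (ytO n t) = wdC (⊤ : Ideal (OO n t)) (1 / 3) / (2 * fr (⊤ : Ideal (OO n t)) ^ 3) ∧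
    io (lamO n t) = w2C (⊤ : Ideal (OO n t)) (1 / 3) /
      (2 * wdC (⊤ : Ideal (OO n t)) (1 / 3) * fr (⊤ : Ideal (OO n t))) ∧
    io (nuO n t) = (wdC (⊤ : Ideal (OO n t)) (1 / 3) -
      w2C (⊤ : Ideal (OO n t)) (1 / 3) * wpC (⊤ : Ideal (OO n t)) (1 / 3) /
        wdC (⊤ : Ideal (OO n t)) (1 / 3)) / (2 * fr (⊤ : Ideal (OO n t)) ^ 3) := by
  obtain ⟨f0, -, -, -, -, -, -, -, e1, e2, g2, g3⟩ :=
    hB1 n t (⊤ : Ideal (OO n t)) Eb.ne_top (Eb.pri_top 2)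
  obtain ⟨r1, -, r3, -⟩ := (hR1 n t).1 ⊤ g30_top
  obtain ⟨rx, rv⟩ := r3 (1 / 3) (tor_third n t)
  have hd := wd3_ne n t
  have e1' := e1 (1 / 3)
  have e2' := e2 (1 / 3)
  have ha4 : io (a4O n t) = -(LP (⊤ : Ideal (OO n t))).g₂ / (4 * fr (⊤ : Ideal (OO n t)) ^ 4) := by
    unfold a4O
    rw [map_sub, map_pow, map_div₀, map_pow, map_sub, map_one, map_mul, map_ofNat, map_ofNat, r1, g2]
    field_simp
    ring
  have ha6 : io (a6O n t) = -(LP (⊤ : Ideal (OO n t))).g₃ / (4 * fr (⊤ : Ideal (OO n t)) ^ 6) := by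
    unfold a6O
    rw [map_sub, map_div₀, map_div₀, map_mul, map_pow, map_pow, map_sub, map_one, map_mul, map_ofNat,
      map_ofNat, map_ofNat, r1, g3]
    field_simp
    ring
  have hx : io (xtO n t) = wpC (⊤ : Ideal (OO n t)) (1 / 3) / fr (⊤ : Ideal (OO n t)) ^ 2 := by
    unfold xtO
    rw [map_add, map_div₀, map_sub, map_one, map_mul, map_ofNat, map_ofNat, r1, rx, e1']
    field_simp
  have hy : io (ytO n t) = wdC (⊤ : Ideal (OO n t)) (1 / 3) / (2 * fr (⊤ : Ideal (OO n t)) ^ 3) := by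
    unfold ytO
    rw [map_div₀, map_ofNat, rv, e2']
    field_simp
  have hl : io (lamO n t) = w2C (⊤ : Ideal (OO n t)) (1 / 3) /
      (2 * wdC (⊤ : Ideal (OO n t)) (1 / 3) * fr (⊤ : Ideal (OO n t))) := by
    unfold lamO w2C
    rw [map_div₀, map_add, map_mul, map_mul, map_pow, map_ofNat, map_ofNat, hx, hy, ha4]
    field_simp
    ring
  refine ⟨f0, ha4, ha6, hx, hy, hl, ?_⟩
  unfold nuO
  rw [map_sub, map_mul, hx, hy, hl]
  field_simp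

/-- The curve and the division polynomial. -/
theorem tan_rel (hB1 : S_B1) (hR1 : S_R1) (n t : ℕ) [SqN n t] :
    ytO n t ≠ 0 ∧ ytO n t ^ 2 = xtO n t ^ 3 + a4O n t * xtO n t + a6O n t ∧
    3 * xtO n t ^ 4 + 6 * a4O n t * xtO n t ^ 2 + 12 * a6O n t * xtO n t - a4O n t ^ 2 = 0 := by
  obtain ⟨f0, h4, h6, hx, hy, -, -⟩ := tan_io hB1 hR1 n t
  have hd := wd3_ne n t
  have ht : (1 / 3 : ℂ) ∉ Lam (⊤ : Ideal (OO n t)) := Gt3.third_nlam
  have hc := (DN.aB2 n t (⊤ : Ideal (OO n t)) Eb.ne_top (1 / 3) ht).1.1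
  obtain ⟨-, -, -, -, -, b6⟩ := DN.aB1 n t (⊤ : Ideal (OO n t)) Eb.ne_top
  obtain ⟨c1, -, -, c4, -, -, -, c8, c9⟩ := b6 (Eb.pri_top 15)
  refine ⟨?_, ?_, ?_⟩
  · intro h
    rw [h, map_zero] at hy
    rcases div_eq_zero_iff.1 hy.symm with h1 | h1
    · exact hd h1
    · exact (mul_ne_zero two_ne_zero (pow_ne_zero 3 f0)) h1
  · apply io_inj
    rw [map_add, map_add, map_mul, map_pow, map_pow, hx, hy, h4, h6]
    field_simp
    linear_combination 4 * hc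
  · apply io_inj
    rw [map_zero, map_sub, map_add, map_add, map_mul, map_mul, map_mul, map_mul, map_mul, map_pow, map_pow,
      map_pow, map_ofNat, map_ofNat, map_ofNat, hx, h4, h6, c4, c8, c9]
    field_simp
    ring

end Pool.Agent.DM.F
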